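import Pool.Agent.Work.MP_8f87b2_mid.Types

/-!
# MP_8f87b2_co: type MAR = the plain triple of a marriage

`TyMar P Q R F g`: `a = P(Q)R`, `b = Q(R)P`, `c = R(P)Q` lie in three different T-cycles, `a` is the old word and
`F = {cyc b, cyc c}` (the two new T-cycles may have different heights). By cyclic renaming of `P, Q, R` every one
of the three words can be the old one. hF, new, old, abs, arcs, path, words, rank, ex.
`marA` : the link `(R)(Q)`, `R((Q))`, `(Q)()R` ; `marB` : the triangle `B((Q))S`, `(Q)(S)B`, `S(B)(Q)`.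
-/

set_option autoImplicit false

namespace Pool.OddHC

open Finset Equiv BinaryTree Pool.Agent.Work.MP_8f87b2_co

variable {k : ℕ}

/-- TYPE MAR: old word `P(Q)R`, new T-cycles those of `Q(R)P` and `R(P)Q` -/
def TyMar (P Q R : BinaryTree Unit) (F : Set (Cyc k)) (g : DG k) : Prop :=
  ∃ a b c : X k, a.1 = w1 P Q R ∧ b.1 = w1 Q R P ∧ c.1 = w1 R P Q ∧ cyc a ≠ cyc b ∧ cyc a ≠ cyc c ∧
    cyc b ≠ cyc c ∧ F = {cyc b, cyc c} ∧ g = pDG {a, b, c} (cyc b) (cyc c) ∅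

variable {P Q R : BinaryTree Unit} {F : Set (Cyc k)} {g : DG k}

theorem TyMar.hF (h : TyMar P Q R F g) : ∀ w, w ∈ g.F ↔ cyc w ∈ F := by
  obtain ⟨a, b, c, ha, hb, hc, h1, h2, h3, rfl, rfl⟩ := h
  intro w
  exact Iff.rfl

theorem TyMar.new (h : TyMar P Q R F g) : ∀ c ∈ F, ∃ u ∈ g.B, cyc u = c := by
  obtain ⟨a, b, c, ha, hb, hc, h1, h2, h3, rfl, rfl⟩ := h
  rintro d (rfl | rfl)
  · exact ⟨b, by simp [pDG], rfl⟩
  · exact ⟨c, by simp [pDG], rfl⟩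

theorem TyMar.old (h : TyMar P Q R F g) : ∃ u ∈ g.B, cyc u ∉ F := by
  obtain ⟨a, b, c, ha, hb, hc, h1, h2, h3, rfl, rfl⟩ := h
  refine ⟨a, by simp [pDG], ?_⟩
  rintro (e | e)
  · exact h1 e
  · exact h2 e

theorem TyMar.arcs (h : TyMar P Q R F g) : g.arcs = ∅ := by
  obtain ⟨a, b, c, ha, hb, hc, h1, h2, h3, rfl, rfl⟩ := h
  rfl

theorem TyMar.path (h : TyMar P Q R F g) : ∀ a ∈ g.arcs, ∃ n : ℕ, (TT ^ (n + 1)) a.1 = a.2 ∧ a.1 ∈ g.B ∧
    ∀ i < n, (TT ^ (i + 1)) a.1 ∉ g.B ∧ (TT ^ (i + 1)) a.1 ∈ innA a := by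
  intro a ha
  rw [h.arcs] at ha
  exact absurd ha (Set.notMem_empty _)

theorem TyMar.abs (h : TyMar P Q R F g) : g.Abs := by
  obtain ⟨a, b, c, ha, hb, hc, h1, h2, h3, rfl, rfl⟩ := h
  exact tri_abs ha hb hc h1 h2 h3

/-- two T-cycles -/
theorem TyMar.two (h : TyMar P Q R F g) : ∃ p q : Cyc k, p ≠ q ∧ F = {p, q} := by
  obtain ⟨a, b, c, ha, hb, hc, h1, h2, h3, rfl, rfl⟩ := h
  exact ⟨_, _, h3, rfl⟩

/-- the words -/
theorem TyMar.words (h : TyMar P Q R F g) : ∀ w ∈ g.B, (w.1 = w1 P Q R ∧ cyc w ∉ F) ∨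
    (cyc w ∈ F ∧ (w.1 = w1 Q R P ∨ w.1 = w1 R P Q)) := by
  obtain ⟨a, b, c, ha, hb, hc, h1, h2, h3, rfl, rfl⟩ := h
  intro w hw
  have hw' : w ∈ ({a, b, c} : Finset (X k)) := hw
  rw [Finset.mem_insert, Finset.mem_insert, Finset.mem_singleton] at hw'
  rcases hw' with rfl | rfl | rfl
  · refine Or.inl ⟨ha, ?_⟩
    rintro (e | e)
    · exact h1 e
    · exact h2 e
  · exact Or.inr ⟨Or.inl rfl, Or.inl hb⟩
  · exact Or.inr ⟨Or.inr rfl, Or.inr hc⟩

/-- the three words of a triple of the same T-cycles, in the form needed for the rank -/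
theorem TyMar.rank (h : TyMar P Q R F g) : ∀ w ∈ g.B, cyc w ∈ F ∨ w.1 = w1 P Q R := by
  intro w hw
  rcases h.words w hw with h1 | h1
  · exact Or.inr h1.1
  · exact Or.inl h1.1

/-- the T-cycles -/
theorem TyMar.F_eq (h : TyMar P Q R F g) {b c : X k} (hb : b.1 = w1 Q R P) (hc : c.1 = w1 R P Q) :
    F = {cyc b, cyc c} := by
  obtain ⟨a, b', c', ha, hb', hc', h1, h2, h3, rfl, rfl⟩ := h
  rw [show b' = b from Subtype.ext (hb'.trans hb.symm), show c' = c from Subtype.ext (hc'.trans hc.symm)]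

/-- the gadget is determined by the triple -/
theorem TyMar.uniq {g' : DG k} {F' : Set (Cyc k)} (h : TyMar P Q R F g) (h' : TyMar P Q R F' g') :
    F = F' ∧ g = g' := by
  obtain ⟨a, b, c, ha, hb, hc, h1, h2, h3, rfl, rfl⟩ := h
  obtain ⟨a', b', c', ha', hb', hc', h1', h2', h3', rfl, rfl⟩ := h'
  obtain rfl : a = a' := Subtype.ext (ha.trans ha'.symm)
  obtain rfl : b = b' := Subtype.ext (hb.trans hb'.symm)
  obtain rfl : c = c' := Subtype.ext (hc.trans hc'.symm)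
  exact ⟨rfl, rfl⟩

/-- **existence** -/
theorem TyMar.ex {a b c : X k} (ha : a.1 = w1 P Q R) (hb : b.1 = w1 Q R P) (hc : c.1 = w1 R P Q)
    (hab : cyc a ≠ cyc b) (hac : cyc a ≠ cyc c) (hbc : cyc b ≠ cyc c) :
    ∃ g : DG k, TyMar P Q R {cyc b, cyc c} g :=
  ⟨_, a, b, c, ha, hb, hc, hab, hac, hbc, rfl, rfl⟩

/-- the words of a triple exist in `X k` -/
theorem mar_words {k : ℕ} {P Q R : BinaryTree Unit} (hk : P.numNodes + Q.numNodes + R.numNodes + 1 = k) :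
    ∃ a b c : X k, a.1 = w1 P Q R ∧ b.1 = w1 Q R P ∧ c.1 = w1 R P Q := by
  refine ⟨⟨w1 P Q R, mem_treesOfNumNodesEq.2 ?_⟩, ⟨w1 Q R P, mem_treesOfNumNodesEq.2 ?_⟩,
    ⟨w1 R P Q, mem_treesOfNumNodesEq.2 ?_⟩, rfl, rfl, rfl⟩ <;> rw [w1_num] <;> omega

/-- a plain triple with a higher host is a marriage -/
theorem IsTri.toMar (h : IsTri P Q R F g) : TyMar P Q R F g := by
  obtain ⟨a, b, c, ha, hb, hc, h1, h2, h3, rfl, rfl⟩ := h
  refine ⟨a, b, c, ha, hb, hc, ?_, ?_, h1, rfl, rfl⟩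
  · intro e; rw [e] at h3; exact lt_irrefl _ h3
  · intro e; rw [e, h2] at h3; exact lt_irrefl _ h3

/-! ### The two families of marriages -/

/-- LINK A of a node `R((Q))`: old word `(Q)()R`, new T-cycles those of `(R)(Q)` and `R((Q))` -/
def TyMarA (R Q : BinaryTree Unit) (F : Set (Cyc k)) (g : DG k) : Prop :=
  TyMar (Q △ .nil) .nil R F g

/-- the three words of link A -/
theorem marA_words (R Q : BinaryTree Unit) : w1 (Q △ .nil) .nil R = Q △ (.nil △ R) ∧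
    w1 .nil R (Q △ .nil) = R △ (Q △ .nil) ∧ w1 R (Q △ .nil) .nil = app R ((Q △ .nil) △ .nil) :=
  ⟨rfl, rfl, rfl⟩

/-- TRIANGLE B of a node `B((Q))S`: old word `B((Q))S`'s partner `S(B)(Q)`, new T-cycles `B((Q))S`, `(Q)(S)B` -/
def TyMarB (B S Q : BinaryTree Unit) (F : Set (Cyc k)) (g : DG k) : Prop :=
  TyMar S B (Q △ .nil) F g

/-- the same triangle, old word `(Q)(S)B` -/
def TyMarB' (B S Q : BinaryTree Unit) (F : Set (Cyc k)) (g : DG k) : Prop :=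
  TyMar (Q △ .nil) S B F g

/-- the three words of triangle B -/
theorem marB_words (B S Q : BinaryTree Unit) : w1 S B (Q △ .nil) = app S (B △ (Q △ .nil)) ∧
    w1 B (Q △ .nil) S = app B ((Q △ .nil) △ S) ∧ w1 (Q △ .nil) S B = Q △ (S △ B) :=
  ⟨rfl, rfl, rfl⟩

end Pool.OddHC
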