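import Pool.Agent.Work.MP_8f87b2_h88.DisU
import Pool.Agent.Work.MP_8f87b2_h88.TyMar

/-!
MP_8f87b2_co: the children of an END window. `law_kid`: a child `z` (unique smallest part) whose window meets the window of
the parent `z'` is the T-cycle of the word 6, 16, 9 or 19 of the parent. `marA_win`, `marB_win`: the marriages from the
words 0, 5, 6 and 10, 15, 16 of the parent; `marA_sub`, `marB_sub`: their words are words of the window of the parent.
-/

set_option autoImplicit false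

namespace Pool.OddHC

open Finset Equiv BinaryTree Multiset Pool.Agent.Work.MP_8f87b2_co

namespace I0

variable {k q q' : ℕ} {R B S R' B' S' : BinaryTree Unit}

/-- **CHILDREN**: a common word of the window of a child with a unique smallest part and of the window of the parent -/
theorem law_kid (hqq : q < q') (hD : H1.Dat q R B S) (hk : R.numNodes + q + 3 = k)
    (hp : ∀ x ∈ OddHC.cont R, q + 3 < x) (hD' : H1.Dat q' R' B' S') (hk' : R'.numNodes + q' + 3 = k)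
    (hp' : ∀ x ∈ OddHC.cont R', q' + 3 ≤ x) (w0 w0' : X k) {i j : ℕ} (hi : i < 20) (hj : j < 20)
    (e : H1.wX R B S q w0 i = H1.wX R' B' S' q' w0' j) :
    (q' = q + 1 ∧ R = R' △ .nil ∧ ((i = 0 ∧ j = 6) ∨ (i = 5 ∧ j = 8) ∨ (i = 6 ∧ j = 9) ∨
      (i = 10 ∧ j = 15) ∨ (i = 15 ∧ j = 17) ∨ (i = 16 ∧ j = 12)) ∧
      H1.wX R B S q w0 0 = H1.wX R' B' S' q' w0' 6) ∨
    (q' = q + 1 ∧ B' ≠ .nil ∧ R = app S' (B' △ .nil) ∧
      ((i = 0 ∧ j = 16) ∨ (i = 5 ∧ j = 18) ∨ (i = 6 ∧ j = 19)) ∧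
      H1.wX R B S q w0 0 = H1.wX R' B' S' q' w0' 16) ∨
    (q' = q + 2 ∧ R = (R' △ .nil) △ .nil ∧ ((i = 0 ∧ j = 9) ∨ (i = 10 ∧ j = 17)) ∧
      H1.wX R B S q w0 0 = H1.wX R' B' S' q' w0' 9) ∨
    (q' = q + 2 ∧ B' ≠ .nil ∧ R = app S' (B' △ .nil) △ .nil ∧ i = 0 ∧ j = 19 ∧
      H1.wX R B S q w0 0 = H1.wX R' B' S' q' w0' 19) := by
  have e1 := congrArg Subtype.val e
  rw [H1.wX_eq hD hk w0 hi, H1.wX_eq hD' hk' w0' hj] at e1
  have h0 := H1.wX_eq hD hk w0 (i := 0) (by norm_num)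
  rcases W_law hqq hD.sq hD.ne hp hD'.sq hD'.ne hp' hi hj e1 with
    ⟨a, b, c⟩ | ⟨a, b, c, d⟩ | ⟨a, b, c⟩ | ⟨a, b, c, d1, d2⟩
  · left
    refine ⟨a, b, c, ?_⟩
    apply Subtype.ext
    rw [h0, H1.wX_eq hD' hk' w0' (by norm_num), b, a]
    rfl
  · right; left
    refine ⟨a, b, c, d, ?_⟩
    apply Subtype.ext
    rw [h0, H1.wX_eq hD' hk' w0' (by norm_num), c, a]
    change app (app S' (B' △ .nil)) _ = _
    rw [app_assoc']
    rfl
  · right; right; left
    refine ⟨a, b, c, ?_⟩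
    apply Subtype.ext
    rw [h0, H1.wX_eq hD' hk' w0' (by norm_num), b, a]
    rfl
  · right; right; right
    refine ⟨a, b, c, d1, d2, ?_⟩
    apply Subtype.ext
    rw [h0, H1.wX_eq hD' hk' w0' (by norm_num), c, a]
    rfl

/-- the words 6 and 15 are on the same T-cycle -/
theorem cyc_6_15 (hD : H1.Dat q R B S) (hk : R.numNodes + q + 3 = k) (w0 : X k) :
    cyc (H1.wX R B S q w0 6) = cyc (H1.wX R B S q w0 15) := by
  apply cyc_eq.2
  refine ⟨2, ?_⟩
  rw [show (2 : ℤ) = ((2 : ℕ) : ℤ) from rfl, zpow_natCast, pow_two, Perm.mul_apply,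
    H1.wX_link hD hk w0 (i := 6) (j := 15) (by simp)]

/-- the words 9 and 17 are on the same T-cycle -/
theorem cyc_9_17 (hD : H1.Dat q R B S) (hk : R.numNodes + q + 3 = k) (w0 : X k) :
    cyc (H1.wX R B S q w0 9) = cyc (H1.wX R B S q w0 17) := by
  apply cyc_eq.2
  refine ⟨2, ?_⟩
  rw [show (2 : ℤ) = ((2 : ℕ) : ℤ) from rfl, zpow_natCast, pow_two, Perm.mul_apply,
    H1.wX_link hD hk w0 (i := 9) (j := 17) (by simp)]

/-- the words 0 and 10 are on the same T-cycle -/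
theorem cyc_0_10 (hD : H1.Dat q R B S) (hk : R.numNodes + q + 3 = k) (w0 : X k) :
    cyc (H1.wX R B S q w0 0) = cyc (H1.wX R B S q w0 10) := by
  apply cyc_eq.2
  refine ⟨2, ?_⟩
  rw [show (2 : ℤ) = ((2 : ℕ) : ℤ) from rfl, zpow_natCast, pow_two, Perm.mul_apply,
    H1.wX_link hD hk w0 (i := 0) (j := 10) (by simp)]

theorem cyc_0_ne (hD : H1.Dat q R B S) (hk : R.numNodes + q + 3 = k) (w0 : X k) {i : ℕ} (hi : i < 20)
    (h0 : i ≠ 0) (h10 : i ≠ 10) : cyc (H1.wX R B S q w0 i) ≠ cyc (H1.wX R B S q w0 0) := by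
  intro e
  exact H1.wX_hold hD hk w0 i hi h0 h10 (cyc_eq.1 e.symm)

/-- the words 5 and 6 are on different T-cycles -/
theorem cyc_5_6 (hD : H1.Dat q R B S) (hk : R.numNodes + q + 3 = k) (hp : ∀ x ∈ OddHC.cont R, q + 3 ≤ x)
    (w0 : X k) : cyc (H1.wX R B S q w0 5) ≠ cyc (H1.wX R B S q w0 6) := by
  intro e
  have e1 := congrArg contc e
  change OddHC.cont (H1.wX R B S q w0 5).1 = OddHC.cont (H1.wX R B S q w0 6).1 at e1
  rw [H1.wX_eq hD hk w0 (by norm_num), H1.wX_eq hD hk w0 (by norm_num)] at e1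
  have cQ : raise (OddHC.cont (H1.ch (q + 1))) = {q + 2} := by
    rw [H1.ch_cont]
    exact raise_single _
  have cQ2 : OddHC.cont (H1.ch (q + 1) △ .nil) = {q + 2} := H1.ch_cont (q + 1)
  change OddHC.cont (H1.ch (q + 1) △ (.nil △ R)) = OddHC.cont (R △ (H1.ch (q + 1) △ .nil)) at e1
  rw [cont_node, cQ, cont_node, cont_nil, raise_zero, cont_node, cQ2] at e1
  have e2 := congrArg (Multiset.count 1) e1
  have h1 : (raise (OddHC.cont R)).count 1 = 0 := by
    rw [Multiset.count_eq_zero]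
    intro h
    have := raise_hv hp (cont_ne hD.ne) 1 h
    omega
  rw [Multiset.count_add, Multiset.count_add, Multiset.count_singleton_self, Multiset.count_add, h1,
    Multiset.count_singleton, if_neg (by omega)] at e2
  omega

/-- **MARRIAGE A** on the words 0, 5, 6 of the parent -/
theorem marA_win (hD : H1.Dat q R B S) (hk : R.numNodes + q + 3 = k) (hp : ∀ x ∈ OddHC.cont R, q + 3 ≤ x)
    (w0 : X k) : ∃ g : DG k, TyMarA R (H1.ch (q + 1))
      {cyc (H1.wX R B S q w0 6), cyc (H1.wX R B S q w0 0)} g := by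
  have w : ∀ {i : ℕ} (hi : i < 20), (H1.wX R B S q w0 i).1 = H1.W R (H1.ch (q + 1)) B S i :=
    fun hi => H1.wX_eq hD hk w0 hi
  exact TyMar.ex (a := H1.wX R B S q w0 5) (w (by norm_num)) (w (by norm_num)) (w (by norm_num))
    (cyc_5_6 hD hk hp w0) (cyc_0_ne hD hk w0 (by norm_num) (by norm_num) (by norm_num))
    (cyc_0_ne hD hk w0 (by norm_num) (by norm_num) (by norm_num))

/-- the words of marriage A are words of the window of the parent -/
theorem marA_sub (hD : H1.Dat q R B S) (hk : R.numNodes + q + 3 = k) (w0 : X k) {F : Set (Cyc k)}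
    {g : DG k} (h : TyMarA R (H1.ch (q + 1)) F g) :
    (∀ x ∈ g.B, x = H1.wX R B S q w0 5 ∨ x = H1.wX R B S q w0 6 ∨ x = H1.wX R B S q w0 0) ∧
      F = {cyc (H1.wX R B S q w0 6), cyc (H1.wX R B S q w0 0)} := by
  have w : ∀ {i : ℕ} (hi : i < 20), (H1.wX R B S q w0 i).1 = H1.W R (H1.ch (q + 1)) B S i :=
    fun hi => H1.wX_eq hD hk w0 hi
  refine ⟨?_, TyMar.F_eq h (w (by norm_num)) (w (by norm_num))⟩
  intro x hx
  rcases TyMar.words h x hx with ⟨h1, _⟩ | ⟨_, h1 | h1⟩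
  · exact Or.inl (Subtype.ext (by rw [h1, w (by norm_num)]; rfl))
  · exact Or.inr (Or.inl (Subtype.ext (by rw [h1, w (by norm_num)]; rfl)))
  · exact Or.inr (Or.inr (Subtype.ext (by rw [h1, w (by norm_num)]; rfl)))

/-- **MARRIAGE B** on the words 10, 15, 16 of the parent; hypothesis: the words 6 and 16 on different T-cycles -/
theorem marB_win (hD : H1.Dat q R B S) (hk : R.numNodes + q + 3 = k) (w0 : X k)
    (hne : cyc (H1.wX R B S q w0 6) ≠ cyc (H1.wX R B S q w0 16)) : ∃ g : DG k, TyMarB' B S (H1.ch (q + 1))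
      {cyc (H1.wX R B S q w0 16), cyc (H1.wX R B S q w0 10)} g := by
  have w : ∀ {i : ℕ} (hi : i < 20), (H1.wX R B S q w0 i).1 = H1.W R (H1.ch (q + 1)) B S i :=
    fun hi => H1.wX_eq hD hk w0 hi
  refine TyMar.ex (a := H1.wX R B S q w0 15) (w (by norm_num)) (w (by norm_num)) (w (by norm_num)) ?_ ?_ ?_
  · rw [← cyc_6_15 hD hk]
    exact hne
  · rw [← cyc_0_10 hD hk]
    exact cyc_0_ne hD hk w0 (by norm_num) (by norm_num) (by norm_num)
  · rw [← cyc_0_10 hD hk]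
    exact cyc_0_ne hD hk w0 (by norm_num) (by norm_num) (by norm_num)

/-- the words of marriage B are words of the window of the parent -/
theorem marB_sub (hD : H1.Dat q R B S) (hk : R.numNodes + q + 3 = k) (w0 : X k) {F : Set (Cyc k)}
    {g : DG k} (h : TyMarB' B S (H1.ch (q + 1)) F g) :
    (∀ x ∈ g.B, x = H1.wX R B S q w0 15 ∨ x = H1.wX R B S q w0 16 ∨ x = H1.wX R B S q w0 10) ∧
      F = {cyc (H1.wX R B S q w0 16), cyc (H1.wX R B S q w0 10)} := by
  have w : ∀ {i : ℕ} (hi : i < 20), (H1.wX R B S q w0 i).1 = H1.W R (H1.ch (q + 1)) B S i :=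
    fun hi => H1.wX_eq hD hk w0 hi
  refine ⟨?_, TyMar.F_eq h (w (by norm_num)) (w (by norm_num))⟩
  intro x hx
  rcases TyMar.words h x hx with ⟨h1, _⟩ | ⟨_, h1 | h1⟩
  · exact Or.inl (Subtype.ext (by rw [h1, w (by norm_num)]; rfl))
  · exact Or.inr (Or.inl (Subtype.ext (by rw [h1, w (by norm_num)]; rfl)))
  · exact Or.inr (Or.inr (Subtype.ext (by rw [h1, w (by norm_num)]; rfl)))

end I0

end Pool.OddHC
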