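import Pool.Agent.Work.MP_8f87b2_h88.U0

/-!
MP_8f87b2_co: THE LAW for two blocks with different smallest parts. Block `(q, X, Y)`, all parts of `X`, `Y` larger than
`q + 3`, `1 ≤ q`; block `(q', X', Y')`, `q < q'`, all parts of `X'`, `Y'` at least `q' + 3`. A common word occurs only if
`q' = q + 1` and (`Y` empty and `X = (X')`, `Y'` empty, or `X = Y'(X')`; or `X` empty and `Y = (Y')X'`), or
`q' = q + 2` and the same with one more pair of brackets.
-/

set_option autoImplicit false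

namespace Pool.OddHC

open Finset Equiv BinaryTree Multiset Pool.Agent.Work.MP_8f87b2_co

namespace I0

/-- small content with the part `q + 3` of the class 0 -/
def smU (d : ℕ) (κ : ℕ) : Multiset ℕ := if κ = 0 then {d + 3} else smc d κ

variable {d : ℕ} {X Y X' Y' : BinaryTree Unit}

/-- the content of a word, heavy parts at least `m` -/
theorem cont_blkG {m : ℕ} (hm : d + 3 ≤ m) (hX : ∀ x ∈ OddHC.cont X, m ≤ x)
    (hY : ∀ x ∈ OddHC.cont Y, m ≤ x) (Y0 : Y ≠ .nil) {e : Bool} (he : e = true ↔ X = .nil)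
    {i : ℕ} (hi : i < 10) :
    ∃ H, OddHC.cont (blk (pc (d + 1)) X Y i) = smU d (kapI e i) + H ∧ ∀ x ∈ H, m ≤ x := by
  obtain ⟨x, hx⟩ : ∃ x, x = OddHC.cont X := ⟨_, rfl⟩
  obtain ⟨y, hy⟩ : ∃ y, y = OddHC.cont Y := ⟨_, rfl⟩
  have y0 : y ≠ 0 := by rw [hy]; exact cont_ne Y0
  have xh : ∀ z ∈ x, m ≤ z := by rw [hx]; exact hX
  have yh : ∀ z ∈ y, m ≤ z := by rw [hy]; exact hY
  have x0 : e = true ↔ x = 0 := by rw [he, hx, cont_eq_zero]
  have l1 : ∀ x ∈ ({1} : Multiset ℕ), x < m := lt_single (by omega)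
  have lq1 : ∀ x ∈ ({d + 1} + {1} : Multiset ℕ), x < m := lt_pair (by omega) (by omega)
  have Yh := raise_hv yh y0
  have both : ∀ {A C : Multiset ℕ}, (∀ z ∈ A, m ≤ z) → (∀ z ∈ C, m ≤ z) →
      ∀ z ∈ A + C, m ≤ z := by
    intro A C hA hC z hz
    rw [Multiset.mem_add] at hz
    exact hz.elim (hA z) (hC z)
  have xne : e = false → x ≠ 0 := by
    intro g g1
    rw [x0.2 g1] at g
    exact absurd g (by simp)
  have Xh : e = false → ∀ z ∈ raise x, m ≤ z := fun g => raise_hv xh (xne g)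
  have hq := cont_pc d
  have eq1 : raise {d + 1} = {d + 2} := raise_single _
  have eq2 : raise {d + 2} = {d + 3} := raise_single _
  have hz := raise_zero
  interval_cases i <;> simp only [kapI, smU, smc, blk, cont_node, cont_app, cont_nil, hq, eq1, eq2, hz,
    ← hx, ← hy, add_zero, if_true, reduceCtorEq, if_false, one_ne_zero, OfNat.ofNat_ne_zero]
  · exact ⟨x + y, by abel, both xh yh⟩
  · exact ⟨x + y, by abel, both xh yh⟩
  · exact ⟨raise y + x, by abel, both Yh xh⟩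
  · cases e with
    | true =>
      refine ⟨y, ?_, yh⟩
      rw [x0.1 rfl, zero_add, add_comm {1}, raise_two]
      simp only [if_true, OfNat.ofNat_ne_zero, if_false]
      abel
    | false =>
      refine ⟨y + raise x, ?_, both yh (Xh rfl)⟩
      rw [add_comm {1}, add_comm x, raise_add lq1 xh (xne rfl)]
      simp only [Bool.false_eq_true, if_false, OfNat.ofNat_ne_zero]
      abel
  · refine ⟨raise y + x, ?_, both Yh xh⟩
    rw [← add_assoc {d + 1}, raise_add lq1 yh y0]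
    abel
  · exact ⟨raise y + x, by abel, both Yh xh⟩
  · cases e with
    | true =>
      refine ⟨y, ?_, yh⟩
      rw [x0.1 rfl, raise_zero]
      simp only [if_true, OfNat.ofNat_ne_zero, if_false]
      abel
    | false =>
      refine ⟨y + raise x, ?_, both yh (Xh rfl)⟩
      simp only [Bool.false_eq_true, if_false, OfNat.ofNat_ne_zero]
      abel
  · refine ⟨raise (raise y + x), by abel, raise_hv (both Yh xh) ?_⟩
    intro g
    exact raise_ne_zero y (add_eq_zero.1 g).1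
  · cases e with
    | true =>
      refine ⟨y, ?_, yh⟩
      rw [x0.1 rfl, raise_zero]
      simp only [if_true, one_ne_zero, if_false]
      abel
    | false =>
      refine ⟨y + raise x, ?_, both yh (Xh rfl)⟩
      simp only [Bool.false_eq_true, if_false, OfNat.ofNat_ne_zero]
      abel
  · cases e with
    | true =>
      refine ⟨raise y, ?_, Yh⟩
      rw [x0.1 rfl, raise_zero, add_comm y, raise_add l1 yh y0]
      simp only [if_true, OfNat.ofNat_ne_zero, if_false]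
      abel
    | false =>
      refine ⟨raise (y + raise x), ?_, raise_hv (both yh (Xh rfl)) ?_⟩
      · simp only [Bool.false_eq_true, if_false, OfNat.ofNat_ne_zero]
        abel
      · intro g
        exact y0 (add_eq_zero.1 g).1

/-- the content of a word, `Y` empty, heavy parts at least `m` -/
theorem cont_blkFG {m : ℕ} (hm : d + 3 ≤ m) (hX : ∀ x ∈ OddHC.cont X, m ≤ x) (X0 : X ≠ .nil)
    {i : ℕ} (hi : i < 10) :
    ∃ H, OddHC.cont (blk (pc (d + 1)) X .nil i) = smU d (kapF i) + H ∧ ∀ x ∈ H, m ≤ x := by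
  obtain ⟨x, hx⟩ : ∃ x, x = OddHC.cont X := ⟨_, rfl⟩
  have x0 : x ≠ 0 := by rw [hx]; exact cont_ne X0
  have xh : ∀ z ∈ x, m ≤ z := by rw [hx]; exact hX
  have l1 : ∀ x ∈ ({1} : Multiset ℕ), x < m := lt_single (by omega)
  have lq1 : ∀ x ∈ ({d + 1} + {1} : Multiset ℕ), x < m := lt_pair (by omega) (by omega)
  have Xh := raise_hv xh x0
  have hq := cont_pc d
  have eq1 : raise {d + 1} = {d + 2} := raise_single _
  have eq2 : raise {d + 2} = {d + 3} := raise_single _
  have hz := raise_zero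
  interval_cases i <;> simp only [kapF, smU, smc, blk, cont_node, cont_app, cont_nil, hq, eq1, eq2, hz,
    ← hx, add_zero, zero_add, if_true, if_false, one_ne_zero, OfNat.ofNat_ne_zero]
  · exact ⟨x, by abel, xh⟩
  · exact ⟨x, by abel, xh⟩
  · exact ⟨x, by abel, xh⟩
  · refine ⟨raise x, ?_, Xh⟩
    rw [add_comm {1}, add_comm x, raise_add lq1 xh x0]
  · refine ⟨x, ?_, xh⟩
    rw [raise_two]
  · exact ⟨x, by abel, xh⟩
  · exact ⟨raise x, by abel, Xh⟩
  · refine ⟨raise x, ?_, Xh⟩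
    rw [raise_add l1 xh x0]
    abel
  · exact ⟨raise x, by abel, Xh⟩
  · exact ⟨raise (raise x), by abel, raise_hv Xh (raise_ne_zero _)⟩

/-- number of the parts 1 of a class -/
def k1 : ℕ → ℕ
  | 1 => 2
  | 2 => 1
  | 3 => 1
  | _ => 0

/-- number of the parts `q + 1` of a class -/
def ka : ℕ → ℕ
  | 1 => 1
  | 2 => 1
  | 5 => 1
  | _ => 0

/-- number of the parts `q + 2` of a class -/
def kb : ℕ → ℕ
  | 3 => 1
  | 4 => 1
  | _ => 0

/-- number of the parts `q + 3` of a class -/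
def kc : ℕ → ℕ
  | 0 => 1
  | _ => 0

theorem cntU (q κ x : ℕ) (hκ : κ ≤ 5) : (smU q κ).count x =
    (if x = 1 then k1 κ else 0) + (if x = q + 1 then ka κ else 0) +
      (if x = q + 2 then kb κ else 0) + (if x = q + 3 then kc κ else 0) := by
  have h0 : ∀ p : Prop, [Decidable p] → (if p then 0 else 0) = 0 := by
    intro p _
    split_ifs <;> rfl
  interval_cases κ <;>
    simp only [smU, smc, if_true, if_false, one_ne_zero, OfNat.ofNat_ne_zero, Multiset.count_add,
      Multiset.count_singleton, k1, ka, kb, kc, h0, add_zero, zero_add]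
  · by_cases h1 : x = 1
    · simp [h1]; omega
    · simp [h1]
  · omega
  · omega

/-- the classes of a common word -/
theorem sepU {q q' κ κ' : ℕ} (hq : 1 ≤ q) (hqq : q < q') (hκ : κ ≤ 5) (hκ' : κ' ≤ 5)
    {H H' : Multiset ℕ} (hH : ∀ x ∈ H, q + 4 ≤ x) (hH' : ∀ x ∈ H', q' + 3 ≤ x)
    (hE : smU q κ + H = smU q' κ' + H') :
    (q' = q + 1 ∧ ((κ = 3 ∧ κ' = 2) ∨ (κ = 4 ∧ κ' = 5) ∨ (κ = 0 ∧ κ' = 4))) ∨
      (q' = q + 2 ∧ κ = 0 ∧ κ' = 5) := by
  have hc : ∀ x, (smU q κ).count x + H.count x = (smU q' κ').count x + H'.count x := by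
    intro x
    have h1 := congrArg (Multiset.count x) hE
    rwa [Multiset.count_add, Multiset.count_add] at h1
  have z : ∀ x, x < q + 4 → H.count x = 0 := by
    intro x hx
    rw [Multiset.count_eq_zero]
    intro h
    have := hH x h
    omega
  have z' : ∀ x, x < q' + 3 → H'.count x = 0 := by
    intro x hx
    rw [Multiset.count_eq_zero]
    intro h
    have := hH' x h
    omega
  have c1 := hc 1
  have c2 := hc (q + 1)
  have c3 := hc (q + 2)
  have c4 := hc (q + 3)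
  rw [z _ (by omega), z' _ (by omega), cntU _ _ _ hκ, cntU _ _ _ hκ'] at c1 c2 c3 c4
  clear hc hE z z' hH hH'
  rw [if_pos rfl, if_neg (by omega), if_neg (by omega), if_neg (by omega), if_pos rfl,
    if_neg (by omega), if_neg (by omega), if_neg (by omega)] at c1
  rw [if_neg (by omega), if_pos rfl, if_neg (by omega), if_neg (by omega), if_neg (by omega),
    if_neg (by omega), if_neg (by omega), if_neg (by omega)] at c2
  rw [if_neg (by omega), if_neg (by omega), if_pos rfl, if_neg (by omega), if_neg (by omega),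
    if_neg (by omega : ¬ (q + 2 = q' + 2)), if_neg (by omega : ¬ (q + 2 = q' + 3))] at c3
  rw [if_neg (by omega), if_neg (by omega), if_neg (by omega), if_pos rfl, if_neg (by omega),
    if_neg (by omega : ¬ (q + 3 = q' + 3))] at c4
  by_cases g1 : q' = q + 1
  · subst g1
    rw [if_pos (by omega)] at c3
    rw [if_neg (by omega), if_pos (by omega)] at c4
    left
    refine ⟨rfl, ?_⟩
    interval_cases κ <;> simp only [k1, ka, kb, kc] at c1 c2 c3 c4 <;>
      interval_cases κ' <;> simp only [k1, ka, kb, kc] at c1 c2 c3 c4 <;> simp at c1 c2 c3 c4 ⊢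
  · rw [if_neg (by omega)] at c3
    by_cases g2 : q' = q + 2
    · subst g2
      rw [if_pos (by omega), if_neg (by omega)] at c4
      right
      refine ⟨rfl, ?_⟩
      interval_cases κ <;> simp only [k1, ka, kb, kc] at c1 c2 c3 c4 <;>
        interval_cases κ' <;> simp only [k1, ka, kb, kc] at c1 c2 c3 c4 <;> simp at c1 c2 c3 c4 ⊢
    · rw [if_neg (by omega), if_neg (by omega)] at c4
      exfalso
      interval_cases κ <;> simp only [k1, ka, kb, kc] at c1 c2 c3 c4 <;>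
        simp at c1 c2 c3 c4

/-- the pairs of words left by the profile, `q' = q + 1` -/
def spU (f e f' e' : Bool) (i j : ℕ) : Prop :=
  (i = 0 ∧ j = 6 ∧ (f' = true ∨ e' = false)) ∨ (i = 0 ∧ j = 5 ∧ f' = false) ∨ (f = true ∧ f' = true ∧ ((i = 5 ∧ j = 8) ∨ (i = 6 ∧ j = 9))) ∨
    (f = true ∧ f' = false ∧ ((i = 4 ∧ j = 4) ∨ (i = 5 ∧ j = 8 ∧ e' = false) ∨ (i = 6 ∧ j = 9 ∧ e' = false))) ∨
    (f = false ∧ f' = true ∧ i = 6 ∧ j = 9) ∨
    (f = false ∧ f' = false ∧ ((i = 3 ∧ j = 3 ∧ e = true ∧ e' = false) ∨ (i = 6 ∧ j = 2 ∧ e = true) ∨ (i = 5 ∧ j = 7) ∨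
      (i = 6 ∧ j = 9)))

instance (f e f' e' : Bool) (i j : ℕ) : Decidable (spU f e f' e' i j) := by unfold spU; infer_instance

/-- class of a word of a block -/
def kapB (f e : Bool) (i : ℕ) : ℕ := if f then kapF i else kapI e i

/-- profile of a word of a block -/
def abB (f e : Bool) (i : ℕ) : ℕ × ℕ := if f then abF i else abI e i

theorem kapB_le (f e : Bool) (i : ℕ) : kapB f e i ≤ 5 := by
  unfold kapB
  split_ifs
  · exact kapF_le i
  · exact kapI_le e i

/-- the pairs of classes, `q' = q + 1` -/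
def cpU (κ κ' : ℕ) : Prop := (κ = 3 ∧ κ' = 2) ∨ (κ = 4 ∧ κ' = 5) ∨ (κ = 0 ∧ κ' = 4)

instance (κ κ' : ℕ) : Decidable (cpU κ κ') := by unfold cpU; infer_instance

theorem pairU1 : ∀ i < 10, ∀ j < 10, ∀ f e f' e' : Bool, cpU (kapB f e i) (kapB f' e' j) →
    (i = 0 ∨ j = 0 ∨ abB f e i = abB f' e' j) → spU f e f' e' i j := by
  decide

/-- the pairs of words, `q' = q + 2` -/
def spV (f' e' : Bool) (i j : ℕ) : Prop :=
  i = 0 ∧ ((j = 9 ∧ (f' = true ∨ e' = false)) ∨ (j = 7 ∧ f' = false))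

instance (f' e' : Bool) (i j : ℕ) : Decidable (spV f' e' i j) := by unfold spV; infer_instance

/-- the pairs of classes, `q' = q + 2` -/
def cpV (κ κ' : ℕ) : Prop := κ = 0 ∧ κ' = 5

instance (κ κ' : ℕ) : Decidable (cpV κ κ') := by unfold cpV; infer_instance

theorem pairU2 : ∀ i < 10, ∀ j < 10, ∀ f e f' e' : Bool, cpV (kapB f e i) (kapB f' e' j) →
    spV f' e' i j := by
  decide

/-- content of a word of a block -/
theorem contB {m : ℕ} (hm : d + 3 ≤ m) (hX : ∀ x ∈ OddHC.cont X, m ≤ x)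
    (hY : ∀ x ∈ OddHC.cont Y, m ≤ x) (h0 : X ≠ .nil ∨ Y ≠ .nil) {f e : Bool}
    (hf : f = true ↔ Y = .nil) (he : e = true ↔ X = .nil) {i : ℕ} (hi : i < 10) :
    ∃ H, OddHC.cont (blk (pc (d + 1)) X Y i) = smU d (kapB f e i) + H ∧ ∀ x ∈ H, m ≤ x := by
  unfold kapB
  cases f with
  | true =>
    obtain rfl := hf.1 rfl
    exact cont_blkFG hm hX (h0.resolve_right (fun h => h rfl)) hi
  | false => exact cont_blkG hm hX hY (fun h => absurd (hf.2 h) (by simp)) he hi

/-- profile of a word of a block -/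
theorem abB_eq {D : ℕ} (hD : d ≤ D) (hX : Hv D X) (hY : Hv D Y) (h0 : X ≠ .nil ∨ Y ≠ .nil) {f e : Bool}
    (hf : f = true ↔ Y = .nil) (he : e = true ↔ X = .nil) {i : ℕ} (hi : i < 10) (hi0 : i ≠ 0) :
    (lo D (fs (blk (pc (d + 1)) X Y i)), lo D (ls (blk (pc (d + 1)) X Y i))) = abB f e i := by
  unfold abB
  cases f with
  | true =>
    obtain rfl := hf.1 rfl
    exact ab_blkF hD hX (h0.resolve_right (fun h => h rfl)) hi hi0
  | false => exact ab_blk hD hX hY (fun h => absurd (hf.2 h) (by simp)) he hi hi0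

/-- THE LAW for two blocks `(q, X, Y)`, `(q', X', Y')` and the words `i`, `j` -/
def LawB (q q' : ℕ) (X Y X' Y' : BinaryTree Unit) (i j : ℕ) : Prop :=
  (q' = q + 1 ∧ Y = .nil ∧ Y' = .nil ∧ X = X' △ .nil ∧
    ((i = 0 ∧ j = 6) ∨ (i = 5 ∧ j = 8) ∨ (i = 6 ∧ j = 9))) ∨
  (q' = q + 1 ∧ Y = .nil ∧ Y' ≠ .nil ∧ X' ≠ .nil ∧ X = app Y' (X' △ .nil) ∧
    ((i = 0 ∧ j = 6) ∨ (i = 5 ∧ j = 8) ∨ (i = 6 ∧ j = 9))) ∨
  (q' = q + 1 ∧ X = .nil ∧ Y' ≠ .nil ∧ Y = Y' △ X' ∧
    ((i = 0 ∧ j = 5) ∨ (i = 5 ∧ j = 7) ∨ (i = 6 ∧ j = 2))) ∨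
  (q' = q + 2 ∧ Y = .nil ∧ Y' = .nil ∧ X = (X' △ .nil) △ .nil ∧ i = 0 ∧ j = 9) ∨
  (q' = q + 2 ∧ Y = .nil ∧ Y' ≠ .nil ∧ X' ≠ .nil ∧ X = app Y' (X' △ .nil) △ .nil ∧ i = 0 ∧ j = 9) ∨
  (q' = q + 2 ∧ X = .nil ∧ Y' ≠ .nil ∧ Y = (Y' △ X') △ .nil ∧ i = 0 ∧ j = 7)

/-- THE LAW from the classes -/
theorem blk_lawC {q q' : ℕ}
    (hX : ∀ x ∈ OddHC.cont X, q + 3 < x) (hY : ∀ x ∈ OddHC.cont Y, q + 3 < x) (h0 : X ≠ .nil ∨ Y ≠ .nil)
    (hX' : ∀ x ∈ OddHC.cont X', q' + 3 ≤ x) (hY' : ∀ x ∈ OddHC.cont Y', q' + 3 ≤ x)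
    (h0' : X' ≠ .nil ∨ Y' ≠ .nil) {f e f' e' : Bool} (hf : f = true ↔ Y = .nil)
    (he : e = true ↔ X = .nil) (hf' : f' = true ↔ Y' = .nil) (he' : e' = true ↔ X' = .nil)
    {i j : ℕ} (hi : i < 10) (hj : j < 10)
    (heq : blk (pc (q + 1)) X Y i = blk (pc (q' + 1)) X' Y' j)
    (hcl : (q' = q + 1 ∧ cpU (kapB f e i) (kapB f' e' j)) ∨ (q' = q + 2 ∧ cpV (kapB f e i) (kapB f' e' j))) :
    LawB q q' X Y X' Y' i j := by
  have hqq : q < q' := by
    rcases hcl with ⟨h, _⟩ | ⟨h, _⟩ <;> omega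
  have nf : ∀ {e : Bool} {t : BinaryTree Unit}, (e = true ↔ t = .nil) → e = false → t ≠ .nil := by
    intro e t h g g1
    rw [h.2 g1] at g
    exact absurd g (by simp)
  have nd : ∀ {A C A' C' : BinaryTree Unit}, A △ C = A' △ C' → A = A' ∧ C = C' :=
    fun h => ⟨congrArg fs h, congrArg tl h⟩
  have an : ∀ t : BinaryTree Unit, app .nil t = t := fun _ => rfl
  have hX1 : Hv (q + 1) X := fun x hx => hX x hx
  have hY1 : Hv (q + 1) Y := fun x hx => hY x hx
  have hX1' : Hv (q + 1) X' := fun x hx => by have := hX' x hx; omega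
  have hY1' : Hv (q + 1) Y' := fun x hx => by have := hY' x hx; omega
  have gq : lo (q + 1) (pc (q + 1) △ .nil) ≠ 0 := by
    change lo (q + 1) (pc (q + 2)) ≠ 0
    rw [lo_pc (by omega)]
    omega
  rcases hcl with ⟨rfl, g⟩ | ⟨rfl, g⟩
  · -- `q' = q + 1`
    have hsp : spU f e f' e' i j := by
      apply pairU1 i hi j hj f e f' e' g
      by_cases hi0 : i = 0
      · exact Or.inl hi0
      by_cases hj0 : j = 0
      · exact Or.inr (Or.inl hj0)
      right; right
      rw [← abB_eq (d := q) (D := q + 1) (by omega) hX1 hY1 h0 hf he hi hi0,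
        ← abB_eq (d := q + 1) (D := q + 1) le_rfl hX1' hY1' h0' hf' he' hj hj0, heq]
    clear g
    rcases hsp with ⟨rfl, rfl, g⟩ | ⟨rfl, rfl, g⟩ | ⟨rfl, rfl, g⟩ | ⟨rfl, rfl, g⟩ | ⟨rfl, rfl, rfl, rfl⟩ |
      ⟨rfl, rfl, g⟩
    · -- (0, 6)
      cases f' with
      | true =>
        obtain rfl := hf'.1 rfl
        have X0' : X' ≠ .nil := h0'.resolve_right (fun h => h rfl)
        have h1 : app X ((pc (q + 1) △ .nil) △ Y) = app (X' △ .nil) ((pc (q + 1) △ .nil) △ .nil) := heq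
        obtain ⟨a1, _, a2⟩ := hv_split gq gq hX1 (hX1'.node X0' (Hv.nil _)) h1
        exact Or.inl ⟨rfl, a2, rfl, a1, Or.inl ⟨rfl, rfl⟩⟩
      | false =>
        have Y0' := nf hf' rfl
        have g1 : e' = false := by simpa using g
        have X0' := nf he' g1
        have h1 : app X ((pc (q + 1) △ .nil) △ Y) =
            app (app Y' (X' △ .nil)) ((pc (q + 1) △ .nil) △ .nil) := by
          rw [app_assoc']
          exact heq
        obtain ⟨a1, _, a2⟩ := hv_split gq gq hX1 (hY1'.app (hX1'.node X0' (Hv.nil _))) h1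
        exact Or.inr (Or.inl ⟨rfl, a2, Y0', X0', a1, Or.inl ⟨rfl, rfl⟩⟩)
    · -- (0, 5)
      have Y0' := nf hf' g
      have h1 : app X ((pc (q + 1) △ .nil) △ Y) = app .nil ((pc (q + 1) △ .nil) △ (Y' △ X')) := heq
      obtain ⟨a1, _, a2⟩ := hv_split gq gq hX1 (Hv.nil _) h1
      exact Or.inr (Or.inr (Or.inl ⟨rfl, a1, Y0', a2, Or.inl ⟨rfl, rfl⟩⟩))
    · obtain rfl := hf.1 rfl
      obtain rfl := hf'.1 rfl
      rcases g with ⟨rfl, rfl⟩ | ⟨rfl, rfl⟩
      · have h1 : pc (q + 1) △ (.nil △ X) = pc (q + 1) △ (.nil △ (X' △ .nil)) := heq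
        exact Or.inl ⟨rfl, rfl, rfl, (nd (nd h1).2).2, Or.inr (Or.inl ⟨rfl, rfl⟩)⟩
      · have h1 : X △ (pc (q + 1) △ .nil) = (X' △ .nil) △ pc (q + 1 + 1) := heq
        exact Or.inl ⟨rfl, rfl, rfl, (nd h1).1, Or.inr (Or.inr ⟨rfl, rfl⟩)⟩
    · obtain rfl := hf.1 rfl
      have Y0' := nf hf' rfl
      rcases g with ⟨rfl, rfl⟩ | ⟨rfl, rfl, g1⟩ | ⟨rfl, rfl, g1⟩
      · exfalso
        have h1 : app (pc (q + 1)) (.nil △ .nil) △ X = app (pc (q + 1 + 1)) (.nil △ Y') △ X' := heq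
        rw [app_pc, app_pc] at h1
        have h2 := congrArg ht (congrArg fs (nd h1).1)
        rw [fs_node, fs_node, ht_pc, ht_pc] at h2
        omega
      · have h1 : pc (q + 1) △ (.nil △ X) = pc (q + 1) △ (.nil △ app Y' (X' △ .nil)) := heq
        exact Or.inr (Or.inl ⟨rfl, rfl, Y0', nf he' g1, (nd (nd h1).2).2, Or.inr (Or.inl ⟨rfl, rfl⟩)⟩)
      · have h1 : X △ (pc (q + 1) △ .nil) = app Y' (X' △ .nil) △ pc (q + 1 + 1) := heq
        exact Or.inr (Or.inl ⟨rfl, rfl, Y0', nf he' g1, (nd h1).1, Or.inr (Or.inr ⟨rfl, rfl⟩)⟩)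
    · exfalso
      have Y0 := nf hf rfl
      obtain rfl := hf'.1 rfl
      have h1 : app Y (X △ (pc (q + 1) △ .nil)) = (X' △ .nil) △ pc (q + 1 + 1) := heq
      have h2 := congrArg nc h1
      have h3 := nc_pos Y0
      simp only [nc_app, nc_node, nc_nil, pc] at h2
      omega
    · have Y0 := nf hf rfl
      have Y0' := nf hf' rfl
      rcases g with ⟨rfl, rfl, g1, g2⟩ | ⟨rfl, rfl, g1⟩ | ⟨rfl, rfl⟩ | ⟨rfl, rfl⟩
      · exfalso
        obtain rfl := he.1 g1
        have X0' := nf he' g2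
        have h1 : app Y (app .nil (.nil △ pc (q + 1)) △ .nil) =
            app Y' (app X' (.nil △ pc (q + 1 + 1)) △ .nil) := heq
        have h2 := congrArg fs (app_snoc h1).2
        rw [an, fs_node, fs_app X0'] at h2
        exact hX1'.fs_ne X0' h2.symm
      · obtain rfl := he.1 g1
        have h1 : app Y (.nil △ (pc (q + 1) △ .nil)) = app (Y' △ X') (.nil △ (pc (q + 1) △ .nil)) := heq
        exact Or.inr (Or.inr (Or.inl ⟨rfl, rfl, Y0', app_cancel_right _ h1, Or.inr (Or.inr ⟨rfl, rfl⟩)⟩))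
      · have h1 : pc (q + 1) △ (Y △ X) = pc (q + 1) △ ((Y' △ X') △ .nil) := heq
        obtain ⟨a1, a2⟩ := nd (nd h1).2
        exact Or.inr (Or.inr (Or.inl ⟨rfl, a2, Y0', a1, Or.inr (Or.inl ⟨rfl, rfl⟩)⟩))
      · exfalso
        have h1 : app Y (X △ (pc (q + 1) △ .nil)) = app Y' (X' △ .nil) △ pc (q + 1 + 1) := heq
        have h2 := congrArg nc h1
        have h3 := nc_pos Y0
        simp only [nc_app, nc_node, nc_nil, pc] at h2
        omega
  · -- `q' = q + 2`
    obtain ⟨rfl, hsp⟩ := pairU2 i hi j hj f e f' e' g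
    clear g
    rcases hsp with ⟨rfl, g⟩ | ⟨rfl, g⟩
    · cases f' with
      | true =>
        obtain rfl := hf'.1 rfl
        have X0' : X' ≠ .nil := h0'.resolve_right (fun h => h rfl)
        have h1 : app X ((pc (q + 1) △ .nil) △ Y) =
            app ((X' △ .nil) △ .nil) ((pc (q + 1) △ .nil) △ .nil) := heq
        obtain ⟨a1, _, a2⟩ := hv_split gq gq hX1
          ((hX1'.node X0' (Hv.nil _)).node (nn' _ _) (Hv.nil _)) h1
        exact Or.inr (Or.inr (Or.inr (Or.inl ⟨rfl, a2, rfl, a1, rfl, rfl⟩)))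
      | false =>
        have Y0' := nf hf' rfl
        have g1 : e' = false := by simpa using g
        have X0' := nf he' g1
        have h1 : app X ((pc (q + 1) △ .nil) △ Y) =
            app (app Y' (X' △ .nil) △ .nil) ((pc (q + 1) △ .nil) △ .nil) := heq
        obtain ⟨a1, _, a2⟩ := hv_split gq gq hX1
          ((hY1'.app (hX1'.node X0' (Hv.nil _))).node (app_ne' (nn' _ _)) (Hv.nil _)) h1
        exact Or.inr (Or.inr (Or.inr (Or.inr (Or.inl ⟨rfl, a2, Y0', X0', a1, rfl, rfl⟩))))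
    · have Y0' := nf hf' g
      have h1 : app X ((pc (q + 1) △ .nil) △ Y) =
          app .nil ((pc (q + 1) △ .nil) △ ((Y' △ X') △ .nil)) := heq
      obtain ⟨a1, _, a2⟩ := hv_split gq gq hX1 (Hv.nil _) h1
      exact Or.inr (Or.inr (Or.inr (Or.inr (Or.inr ⟨rfl, a1, Y0', a2, rfl, rfl⟩))))

theorem exB (t : BinaryTree Unit) : ∃ e : Bool, e = true ↔ t = .nil := by
  by_cases g : t = .nil
  · exact ⟨true, by simp [g]⟩
  · exact ⟨false, by simp [g]⟩

/-- **THE LAW**, `q ≥ 1` -/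
theorem blk_law {q q' : ℕ} (hq : 1 ≤ q) (hqq : q < q')
    (hX : ∀ x ∈ OddHC.cont X, q + 3 < x) (hY : ∀ x ∈ OddHC.cont Y, q + 3 < x) (h0 : X ≠ .nil ∨ Y ≠ .nil)
    (hX' : ∀ x ∈ OddHC.cont X', q' + 3 ≤ x) (hY' : ∀ x ∈ OddHC.cont Y', q' + 3 ≤ x)
    (h0' : X' ≠ .nil ∨ Y' ≠ .nil) {i j : ℕ} (hi : i < 10) (hj : j < 10)
    (heq : blk (pc (q + 1)) X Y i = blk (pc (q' + 1)) X' Y' j) : LawB q q' X Y X' Y' i j := by
  obtain ⟨e, he⟩ := exB X
  obtain ⟨f, hf⟩ := exB Y
  obtain ⟨e', he'⟩ := exB X'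
  obtain ⟨f', hf'⟩ := exB Y'
  obtain ⟨H, c1, c2⟩ := contB (d := q) (m := q + 4) (by omega) hX hY h0 hf he hi
  obtain ⟨H', c1', c2'⟩ := contB (d := q') (m := q' + 3) le_rfl hX' hY' h0' hf' he' hj
  exact blk_lawC hX hY h0 hX' hY' h0' hf he hf' he' hi hj heq
    (sepU hq hqq (kapB_le f e i) (kapB_le f' e' j) c2 c2' (by rw [← c1, heq, c1']))

/-! ### The child with `q = 0` -/

/-- the classes of a common word, child with `q = 0` -/
theorem sepU0 {q' κ κ' : ℕ} (hqq : 1 ≤ q') (hκ : κ ≤ 5) (hκ' : κ' ≤ 5)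
    {H H' : Multiset ℕ} (hH : ∀ x ∈ H, 0 + 4 ≤ x) (hH' : ∀ x ∈ H', q' + 3 ≤ x)
    (hE : smU 0 κ + H = smU q' κ' + H') :
    (q' = 0 + 1 ∧ cpU κ κ') ∨ (q' = 0 + 2 ∧ cpV κ κ') ∨ (3 ≤ q' ∧ κ = 2 ∧ κ' = 1) ∨
      (κ = 5 ∧ (κ' = 2 ∨ κ' = 3)) := by
  have hc : ∀ x, (smU 0 κ).count x + H.count x = (smU q' κ').count x + H'.count x := by
    intro x
    have h1 := congrArg (Multiset.count x) hE
    rwa [Multiset.count_add, Multiset.count_add] at h1
  have z : ∀ x, x < 4 → H.count x = 0 := by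
    intro x hx
    rw [Multiset.count_eq_zero]
    intro h
    have := hH x h
    omega
  have z' : ∀ x, x < q' + 3 → H'.count x = 0 := by
    intro x hx
    rw [Multiset.count_eq_zero]
    intro h
    have := hH' x h
    omega
  have c1 := hc 1
  have c2 := hc 2
  have c3 := hc 3
  rw [z _ (by omega), z' _ (by omega), cntU _ _ _ hκ, cntU _ _ _ hκ'] at c1 c2 c3
  clear hc hE z z' hH hH'
  rw [if_pos rfl, if_pos rfl, if_neg (by omega), if_neg (by omega), if_pos rfl,
    if_neg (by omega), if_neg (by omega), if_neg (by omega)] at c1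
  rw [if_neg (by omega), if_neg (by omega), if_pos rfl, if_neg (by omega), if_neg (by omega),
    if_neg (by omega : ¬ (2 = q' + 2)), if_neg (by omega : ¬ (2 = q' + 3))] at c2
  rw [if_neg (by omega), if_neg (by omega), if_neg (by omega), if_pos rfl, if_neg (by omega),
    if_neg (by omega : ¬ (3 = q' + 3))] at c3
  unfold cpU cpV
  by_cases g1 : q' = 1
  · subst g1
    rw [if_pos (by omega)] at c2
    rw [if_neg (by omega), if_pos (by omega)] at c3
    interval_cases κ <;> simp only [k1, ka, kb, kc] at c1 c2 c3 <;>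
      interval_cases κ' <;> simp only [k1, ka, kb, kc] at c1 c2 c3 <;> simp at c1 c2 c3 ⊢
  · rw [if_neg (by omega)] at c2
    by_cases g2 : q' = 2
    · subst g2
      rw [if_pos (by omega), if_neg (by omega)] at c3
      interval_cases κ <;> simp only [k1, ka, kb, kc] at c1 c2 c3 <;>
        interval_cases κ' <;> simp only [k1, ka, kb, kc] at c1 c2 c3 <;> simp at c1 c2 c3 ⊢
    · rw [if_neg (by omega), if_neg (by omega)] at c3
      have g3 : 3 ≤ q' := by omega
      interval_cases κ <;> simp only [k1, ka, kb, kc] at c1 c2 c3 <;>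
        interval_cases κ' <;> simp only [k1, ka, kb, kc] at c1 c2 c3 <;> simp at c1 c2 c3 ⊢ <;>
        exact g3

/-- the words of class 5, `q = 0`: `()` at one end -/
theorem end5 {f e : Bool} (hf : f = true ↔ Y = .nil) (he : e = true ↔ X = .nil) {i : ℕ} (hi : i < 10)
    (hk : kapB f e i = 5) : fs (blk (pc (0 + 1)) X Y i) = .nil ∨ ls (blk (pc (0 + 1)) X Y i) = .nil := by
  have hi' : i = 7 ∨ i = 9 := by
    cases f <;> cases e <;> interval_cases i <;> simp [kapB, kapF, kapI] at hk ⊢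
  rcases hi' with rfl | rfl
  · left
    rfl
  · right
    have e1 : ls (app Y (X △ .nil) △ pc (0 + 1)) = pc 0 := by
      rw [ls_node _ (by rw [pc_succ]; exact nn' _ _), pc_succ, ls_single]
    exact e1

/-- the words of class 2, 3, `q' ≥ 1`: no `()` at the ends -/
theorem end23 {q' : ℕ} (hq : 1 ≤ q') (hX : Hv q' X) (hY : Hv q' Y) (h0 : X ≠ .nil ∨ Y ≠ .nil)
    {f e : Bool} (hf : f = true ↔ Y = .nil) (he : e = true ↔ X = .nil) {i : ℕ} (hi : i < 10)
    (hk : kapB f e i = 2 ∨ kapB f e i = 3) :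
    fs (blk (pc (q' + 1)) X Y i) ≠ .nil ∧ ls (blk (pc (q' + 1)) X Y i) ≠ .nil := by
  have an : ∀ t : BinaryTree Unit, app .nil t = t := fun _ => rfl
  have nf : ∀ {e : Bool} {t : BinaryTree Unit}, (e = true ↔ t = .nil) → e = false → t ≠ .nil := by
    intro e t h g g1
    rw [h.2 g1] at g
    exact absurd g (by simp)
  have lQ : ∀ A : BinaryTree Unit, ls (A △ pc (q' + 1)) = pc q' := by
    intro A
    rw [ls_node _ (by rw [pc_succ]; exact nn' _ _), pc_succ, ls_single]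
  cases f with
  | true =>
    obtain rfl := hf.1 rfl
    have X0 : X ≠ .nil := h0.resolve_right (fun h => h rfl)
    have hi' : i = 3 ∨ i = 7 ∨ i = 8 ∨ i = 4 ∨ i = 5 := by
      interval_cases i <;> simp [kapB, kapF] at hk ⊢
    rcases hi' with rfl | rfl | rfl | rfl | rfl
    · simp only [blk, an, fs_node, ls_single]
      exact ⟨app_ne' (nn' _ _), app_ne' (nn' _ _)⟩
    · simp only [blk, app_pc, fs_node, ls_node _ (nn' _ _), ls_single]
      exact ⟨pc_ne hq, nn' _ _⟩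
    · simp only [blk, an, app_pc, fs_node, ls_node _ (nn' _ _), ls_single]
      exact ⟨pc_ne hq, X0⟩
    · simp only [blk, fs_node, ls_node _ X0]
      exact ⟨app_ne' (nn' _ _), hX.ls_ne X0⟩
    · simp only [blk, fs_node, ls_node _ (nn' _ _), ls_node _ X0]
      exact ⟨pc_ne (by omega), hX.ls_ne X0⟩
  | false =>
    have Y0 := nf hf rfl
    have hi' : i = 2 ∨ i = 3 ∨ i = 4 ∨ (i = 6 ∧ e = true) ∨ (i = 8 ∧ e = false) ∨ (i = 9 ∧ e = true) := by
      cases e <;> interval_cases i <;> simp [kapB, kapI] at hk ⊢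
    rcases hi' with rfl | rfl | rfl | ⟨rfl, rfl⟩ | ⟨rfl, rfl⟩ | ⟨rfl, rfl⟩
    · have e1 : ls (Y △ app X (.nil △ pc (q' + 1))) = pc q' := by
        rw [ls_node _ (app_ne' (nn' _ _)), ls_app _ (nn' _ _), lQ]
      simp only [blk, e1, fs_node]
      exact ⟨Y0, pc_ne hq⟩
    · simp only [blk, ls_app _ (nn' _ _), ls_single, fs_app Y0]
      exact ⟨hY.fs_ne Y0, app_ne' (nn' _ _)⟩
    · simp only [blk, fs_node]
      refine ⟨app_ne' (nn' _ _), ?_⟩
      by_cases g : X = .nil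
      · rw [g, ls_single]
        exact app_ne' (nn' _ _)
      · rw [ls_node _ g]
        exact hX.ls_ne g
    · simp only [blk, fs_app Y0, ls_app _ (nn' _ _), ls_node _ (nn' _ _), ls_single]
      exact ⟨hY.fs_ne Y0, pc_ne (by omega)⟩
    · have X0 := nf he rfl
      have e1 : ls (app (pc (q' + 1)) (.nil △ app Y (X △ .nil))) = X := by
        rw [ls_app _ (nn' _ _), ls_node _ (app_ne' (nn' _ _)), ls_app _ (nn' _ _), ls_single]
      simp only [blk, e1]
      simp only [app_pc, fs_node]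
      exact ⟨pc_ne hq, X0⟩
    · simp only [blk, fs_node, lQ]
      exact ⟨app_ne' (nn' _ _), pc_ne hq⟩

/-- the words of class 1, `q' ≥ 1` -/
theorem cls1B {q' : ℕ} (hq : 1 ≤ q') (hX : Hv q' X) (hY : Hv q' Y) (h0 : X ≠ .nil ∨ Y ≠ .nil)
    {f e : Bool} (hf : f = true ↔ Y = .nil) (he : e = true ↔ X = .nil) {i : ℕ} (hi : i < 10)
    (hk : kapB f e i = 1) : 4 ≤ nc (blk (pc (q' + 1)) X Y i) ∧
    (fs (blk (pc (q' + 1)) X Y i) ≠ .nil ∨ fs (tl (blk (pc (q' + 1)) X Y i)) ≠ .nil) ∧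
    c1 (fs (blk (pc (q' + 1)) X Y i)) ≤ 1 ∧ c1 (ls (blk (pc (q' + 1)) X Y i)) ≤ 1 ∧
    ∀ P : BinaryTree Unit, blk (pc (q' + 1)) X Y i ≠ app P (.nil △ (.nil △ .nil)) := by
  have an : ∀ t : BinaryTree Unit, app .nil t = t := fun _ => rfl
  have nf : ∀ {e : Bool} {t : BinaryTree Unit}, (e = true ↔ t = .nil) → e = false → t ≠ .nil := by
    intro e t h g g1
    rw [h.2 g1] at g
    exact absurd g (by simp)
  have lQ : ∀ A : BinaryTree Unit, ls (A △ pc (q' + 1)) = pc q' := by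
    intro A
    rw [ls_node _ (by rw [pc_succ]; exact nn' _ _), pc_succ, ls_single]
  have two : ∀ P : BinaryTree Unit, app P (.nil △ (.nil △ .nil)) =
      app (app P (.nil △ .nil)) (BinaryTree.nil △ .nil) := by
    intro P
    rw [app_assoc']
    rfl
  have ql : pc q' ≠ .nil := pc_ne hq
  have lst : ∀ P : BinaryTree Unit, ls (app P (.nil △ (.nil △ .nil))) = .nil := by
    intro P
    rw [ls_app _ (nn' _ _), ls_node _ (nn' _ _), ls_single]
  cases f with
  | true =>
    obtain rfl := hf.1 rfl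
    have X0 : X ≠ .nil := h0.resolve_right (fun h => h rfl)
    have nX := nc_pos X0
    have hi' : i = 1 ∨ i = 2 := by
      interval_cases i <;> simp [kapB, kapF] at hk ⊢
    rcases hi' with rfl | rfl
    · simp only [blk, app_pc, nc_app, nc_node, nc_nil, fs_app X0, ls_app _ (nn' _ _),
        ls_node _ (nn' _ _), ls_single, c1_nil, c1_lo (hX.fs X0)]
      refine ⟨by omega, Or.inl (hX.fs_ne X0), by omega, le_refl _, ?_⟩
      intro P h
      have h1 : app (app X (.nil △ (pc q' △ .nil))) (BinaryTree.nil △ .nil) =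
          app (app P (.nil △ .nil)) (BinaryTree.nil △ .nil) := by
        rw [← two, app_assoc']
        exact h
      have h2 := congrArg ls (app_cancel_right _ h1)
      rw [ls_app _ (nn' _ _), ls_app _ (nn' _ _), ls_node _ (nn' _ _), ls_single, ls_single] at h2
      exact ql h2
    · have e1 : ls (.nil △ app X (.nil △ pc (q' + 1))) = pc q' := by
        rw [ls_node _ (app_ne' (nn' _ _)), ls_app _ (nn' _ _), lQ]
      simp only [blk, e1, fs_node, tl_node, fs_app X0, c1_nil, c1_pc hq, nc_node, nc_app]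
      refine ⟨?_, Or.inr (hX.fs_ne X0), le_refl _, by omega, ?_⟩
      · rw [pc_succ, nc_node]
        omega
      · intro P h
        have h2 := congrArg ls h
        rw [e1, lst] at h2
        exact ql h2
  | false =>
    have Y0 := nf hf rfl
    have nY := nc_pos Y0
    have hi' : i = 1 ∨ (i = 8 ∧ e = true) := by
      cases e <;> interval_cases i <;> simp [kapB, kapI] at hk ⊢
    rcases hi' with rfl | ⟨rfl, rfl⟩
    · have e1 : ls (app X (.nil △ app (pc (q' + 1)) (.nil △ Y))) = ls Y := by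
        rw [ls_app _ (nn' _ _), ls_node _ (app_ne' (nn' _ _)), ls_app _ (nn' _ _), ls_node _ Y0]
      have e2 : fs (app X (.nil △ app (pc (q' + 1)) (.nil △ Y))) ≠ .nil ∨
          fs (tl (app X (.nil △ app (pc (q' + 1)) (.nil △ Y)))) ≠ .nil := by
        by_cases g : X = .nil
        · right
          rw [g, an, tl_node, app_pc, fs_node]
          exact ql
        · left
          rw [fs_app g]
          exact hX.fs_ne g
      have e3 : c1 (fs (app X (.nil △ app (pc (q' + 1)) (.nil △ Y)))) ≤ 1 := by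
        by_cases g : X = .nil
        · rw [g, an, fs_node, c1_nil]
        · rw [fs_app g, c1_lo (hX.fs g)]
          omega
      refine ⟨?_, e2, e3, ?_, ?_⟩
      · simp only [blk, app_pc, nc_app, nc_node]
        omega
      · change c1 (ls (app X (.nil △ app (pc (q' + 1)) (.nil △ Y)))) ≤ 1
        rw [e1, c1_lo (hY.ls Y0)]
        omega
      · intro P h
        have h2 := congrArg ls h
        rw [lst] at h2
        change ls (app X (.nil △ app (pc (q' + 1)) (.nil △ Y))) = .nil at h2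
        rw [e1] at h2
        exact hY.ls_ne Y0 h2
    · obtain rfl := he.1 rfl
      have e1 : ls (app (pc (q' + 1)) (.nil △ app Y (.nil △ .nil))) = .nil := by
        rw [ls_app _ (nn' _ _), ls_node _ (app_ne' (nn' _ _)), ls_app _ (nn' _ _), ls_single]
      refine ⟨?_, Or.inl ?_, ?_, ?_, ?_⟩
      · simp only [blk, app_pc, nc_app, nc_node, nc_nil]
        omega
      · simp only [blk, app_pc, fs_node]
        exact ql
      · simp only [blk, app_pc, fs_node, c1_pc hq]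
        omega
      · change c1 (ls (app (pc (q' + 1)) (.nil △ app Y (.nil △ .nil)))) ≤ 1
        rw [e1, c1_nil]
      · intro P h
        have h1 : app (app (pc (q' + 1)) (.nil △ Y)) (BinaryTree.nil △ .nil) =
            app (app P (.nil △ .nil)) (BinaryTree.nil △ .nil) := by
          rw [← two, app_assoc']
          exact h
        have h2 := congrArg ls (app_cancel_right _ h1)
        rw [ls_app _ (nn' _ _), ls_app _ (nn' _ _), ls_single, ls_node _ Y0] at h2
        exact hY.ls_ne Y0 h2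

/-- the words of class 2, `q = 0` -/
theorem cls2B (hX : Hv 0 X) (hY : Hv 0 Y) {f e : Bool} (hf : f = true ↔ Y = .nil)
    (he : e = true ↔ X = .nil) {i : ℕ} (hi : i < 10) (hk : kapB f e i = 2) :
    nc (blk (pc 1) X Y i) ≤ 3 ∨ (fs (blk (pc 1) X Y i) = .nil ∧ fs (tl (blk (pc 1) X Y i)) = .nil) ∨
    c1 (fs (blk (pc 1) X Y i)) = 2 ∨ c1 (ls (blk (pc 1) X Y i)) = 2 ∨
    ∃ P : BinaryTree Unit, blk (pc 1) X Y i = app P (.nil △ (.nil △ .nil)) := by
  have nf : ∀ {e : Bool} {t : BinaryTree Unit}, (e = true ↔ t = .nil) → e = false → t ≠ .nil := by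
    intro e t h g g1
    rw [h.2 g1] at g
    exact absurd g (by simp)
  have hv0 : ∀ {t : BinaryTree Unit}, Hv 0 t → t ≠ .nil → (raise (OddHC.cont t)).count 1 = 0 := by
    intro t h h0
    rw [Multiset.count_eq_zero]
    intro h1
    have := raise_hv h (cont_ne h0) 1 h1
    omega
  cases f with
  | true =>
    obtain rfl := hf.1 rfl
    have hi' : i = 3 ∨ i = 7 ∨ i = 8 := by
      interval_cases i <;> simp [kapB, kapF] at hk ⊢
    left
    rcases hi' with rfl | rfl | rfl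
    · change nc (app X (.nil △ pc 1) △ .nil) ≤ 3
      rw [nc_node, nc_nil]
      omega
    · change nc (.nil △ ((BinaryTree.nil △ X) △ .nil)) ≤ 3
      rw [nc_node, nc_node, nc_nil]
      omega
    · change nc (.nil △ (.nil △ (X △ .nil))) ≤ 3
      rw [nc_node, nc_node, nc_node, nc_nil]
  | false =>
    have Y0 := nf hf rfl
    have hi' : i = 2 ∨ (i = 3 ∧ e = false) ∨ i = 4 ∨ (i = 8 ∧ e = false) ∨ (i = 9 ∧ e = true) := by
      cases e <;> interval_cases i <;> simp [kapB, kapI] at hk ⊢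
    rcases hi' with rfl | ⟨rfl, rfl⟩ | rfl | ⟨rfl, rfl⟩ | ⟨rfl, rfl⟩
    · right; right; right; right
      exact ⟨Y △ X, rfl⟩
    · right; right; right; left
      have X0 := nf he rfl
      have e1 : OddHC.cont (app X (.nil △ pc 1)) = ({1} + {1}) + OddHC.cont X := by
        rw [cont_app, cont_node, cont_nil, raise_zero, pc, pc, cont_node, cont_nil, raise_zero]
        abel
      change c1 (ls (app Y (app X (.nil △ pc 1) △ .nil))) = 2
      rw [ls_app _ (nn' _ _), ls_single]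
      unfold c1
      rw [e1, raise_add (c := 3) (lt_pair (by omega) (by omega)) hX (cont_ne X0),
        Multiset.count_add, hv0 hX X0]
      rfl
    · right; right; left
      have e1 : OddHC.cont (pc 0 △ (.nil △ Y)) = ({1} + {1}) + OddHC.cont Y := by
        rw [pc, cont_node, cont_node, cont_nil, raise_zero, add_assoc]
      change c1 (pc 0 △ (.nil △ Y)) = 2
      unfold c1
      rw [e1, raise_add (c := 3) (lt_pair (by omega) (by omega)) hY (cont_ne Y0),
        Multiset.count_add, hv0 hY Y0]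
      rfl
    · right; left
      exact ⟨rfl, rfl⟩
    · left
      change nc (app Y (X △ .nil) △ (.nil △ .nil)) ≤ 3
      rw [nc_node, nc_node, nc_nil]
      omega

/-- **THE LAW**, child with `q = 0` -/
theorem blk_law0 {q' : ℕ} (hqq : 1 ≤ q')
    (hX : ∀ x ∈ OddHC.cont X, 0 + 3 < x) (hY : ∀ x ∈ OddHC.cont Y, 0 + 3 < x) (h0 : X ≠ .nil ∨ Y ≠ .nil)
    (hX' : ∀ x ∈ OddHC.cont X', q' + 3 ≤ x) (hY' : ∀ x ∈ OddHC.cont Y', q' + 3 ≤ x)
    (h0' : X' ≠ .nil ∨ Y' ≠ .nil) {i j : ℕ} (hi : i < 10) (hj : j < 10)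
    (heq : blk (pc (0 + 1)) X Y i = blk (pc (q' + 1)) X' Y' j) : LawB 0 q' X Y X' Y' i j := by
  obtain ⟨e, he⟩ := exB X
  obtain ⟨f, hf⟩ := exB Y
  obtain ⟨e', he'⟩ := exB X'
  obtain ⟨f', hf'⟩ := exB Y'
  obtain ⟨H, d1, d2⟩ := contB (d := 0) (m := 0 + 4) (by omega) hX hY h0 hf he hi
  obtain ⟨H', d1', d2'⟩ := contB (d := q') (m := q' + 3) le_rfl hX' hY' h0' hf' he' hj
  rcases sepU0 hqq (kapB_le f e i) (kapB_le f' e' j) d2 d2' (by rw [← d1, heq, d1']) with
    g | g | ⟨_, g1, g2⟩ | ⟨g1, g2⟩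
  · exact blk_lawC hX hY h0 hX' hY' h0' hf he hf' he' hi hj heq (Or.inl g)
  · exact blk_lawC hX hY h0 hX' hY' h0' hf he hf' he' hi hj heq (Or.inr g)
  · exfalso
    obtain ⟨b1, b2, b3, b4, b5⟩ := cls1B hqq hX' hY' h0' hf' he' hj g2
    rw [← heq] at b1 b2 b3 b4
    rcases cls2B (hv_of hX) (hv_of hY) hf he hi g1 with b | b | b | b | ⟨P, b⟩
    · exact absurd (b1.trans b) (by omega)
    · rcases b2 with b2 | b2
      · exact b2 b.1
      · exact b2 b.2
    · change c1 (fs (blk (pc (0 + 1)) X Y i)) = 2 at b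
      omega
    · change c1 (ls (blk (pc (0 + 1)) X Y i)) = 2 at b
      omega
    · exact b5 P (heq.symm.trans b)
  · exfalso
    obtain ⟨b1, b2⟩ := end23 hqq hX' hY' h0' hf' he' hj g2
    rw [← heq] at b1 b2
    rcases end5 hf he hi g1 with b | b
    · exact b1 b
    · exact b2 b

end I0

end Pool.OddHC
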