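import Pool.Agent.Work.MP_8f87b2_h88.BlkLaw
import Pool.Agent.Work.MP_8f87b2_h71.H1Gad

/-!
MP_8f87b2_co: THE LAW for two END windows (both right; mirrored: apply `mirX`). Child `z = R[q + 3]`, all parts of `R` larger
than `q + 3` (unique smallest part), `(S, B) = sq R`; parent `z' = R'[q' + 3]`, all parts of `R'` at least `q' + 3`,
`(S', B') = sq R'`, `q < q'`. `W_law`: a common word occurs only for

* L1A: `q' = q + 1`, `R = (R')`, words `(i, j)` (child, parent) in (0,6), (5,8), (6,9), (10,15), (15,17), (16,12);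
* L1B: `q' = q + 1`, `R = S'(B')`, `B'` not empty, (0,16), (5,18), (6,19);
* L2A: `q' = q + 2`, `R = ((R'))`, (0,9), (10,17);
* L2B: `q' = q + 2`, `R = (S'(B'))`, `B'` not empty, (0,19).

`W_same`: the same `q`, both unique: same index and `R = R'`.
-/

set_option autoImplicit false

namespace Pool.OddHC

open Finset Equiv BinaryTree Multiset Pool.Agent.Work.MP_8f87b2_co

namespace I0

variable {q q' : ℕ} {R B S R' B' S' : BinaryTree Unit}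

/-- the words of an END window = two blocks -/
theorem W_blk (R Q B S : BinaryTree Unit) {i : ℕ} (hi : i < 20) : H1.W R Q B S i =
    if i < 10 then blk Q R .nil i else blk Q B S (i - 10) := by
  interval_cases i <;> rfl

theorem W_blk1 (R Q B S : BinaryTree Unit) {i : ℕ} (hi : i < 10) : H1.W R Q B S i = blk Q R .nil i := by
  rw [W_blk R Q B S (by omega), if_pos hi]

theorem W_blk2 (R Q B S : BinaryTree Unit) {i : ℕ} (hi : i < 20) (h : 10 ≤ i) :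
    H1.W R Q B S i = blk Q B S (i - 10) := by
  rw [W_blk R Q B S hi, if_neg (by omega)]

/-- content of `sq` -/
theorem sq_cont (h0 : R ≠ .nil) (h : Tsq.sq R = (S, B)) : OddHC.cont B + OddHC.cont S = OddHC.cont R := by
  let x : X R.numNodes := ⟨R, mem_treesOfNumNodesEq.2 rfl⟩
  have e1 : (TT (TT x)).1 = app (Tsq.sq R).2 (Tsq.sq R).1 := Tsq.TT_sq x h0
  have e2 : OddHC.cont (TT (TT x)).1 = OddHC.cont R := by
    rw [TT_apply, cont_TF, TT_apply, cont_TF]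
  rw [e1, cont_app, h] at e2
  exact e2

theorem sq_ne (h0 : R ≠ .nil) (h : Tsq.sq R = (S, B)) : S ≠ .nil := by
  rintro rfl
  have h1 := (Tsq.ht_sq h0).1
  rw [h] at h1
  have h2 := Tsq.ht_pos h0
  change Tsq.ht .nil = Tsq.ht R at h1
  have h3 : Tsq.ht (BinaryTree.nil : BinaryTree Unit) = 0 := rfl
  omega

/-- `sq (R') = ((S')B', e)` -/
theorem sq_prime (h0 : R' ≠ .nil) (h : Tsq.sq R' = (S', B')) : Tsq.sq (R' △ .nil) = (S' △ B', .nil) := by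
  have h1 := Tsq.sq_wrap (Z := .nil) h0 (by
    change (0 : ℕ) ≤ _
    omega)
  rw [h] at h1
  exact h1

/-- THE LAW for two END windows: child `q, R, i`, parent `q', R', B', S', j` -/
def LawW (q q' : ℕ) (R R' B' S' : BinaryTree Unit) (i j : ℕ) : Prop :=
  (q' = q + 1 ∧ R = R' △ .nil ∧ ((i = 0 ∧ j = 6) ∨ (i = 5 ∧ j = 8) ∨ (i = 6 ∧ j = 9) ∨
    (i = 10 ∧ j = 15) ∨ (i = 15 ∧ j = 17) ∨ (i = 16 ∧ j = 12))) ∨
  (q' = q + 1 ∧ B' ≠ .nil ∧ R = app S' (B' △ .nil) ∧ ((i = 0 ∧ j = 16) ∨ (i = 5 ∧ j = 18) ∨ (i = 6 ∧ j = 19))) ∨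
  (q' = q + 2 ∧ R = (R' △ .nil) △ .nil ∧ ((i = 0 ∧ j = 9) ∨ (i = 10 ∧ j = 17))) ∨
  (q' = q + 2 ∧ B' ≠ .nil ∧ R = app S' (B' △ .nil) △ .nil ∧ i = 0 ∧ j = 19)

/-- the law, block level hypothesis -/
theorem W_lawB (hs : Tsq.sq R = (S, B)) (R0 : R ≠ .nil) (hs' : Tsq.sq R' = (S', B')) (R0' : R' ≠ .nil)
    {Q Q' : BinaryTree Unit} (hL : ∀ X Y X' Y' : BinaryTree Unit,
      ((X = R ∧ Y = .nil) ∨ (X = B ∧ Y = S)) → ((X' = R' ∧ Y' = .nil) ∨ (X' = B' ∧ Y' = S')) →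
      ∀ i < 10, ∀ j < 10, blk Q X Y i = blk Q' X' Y' j → LawB q q' X Y X' Y' i j)
    {i j : ℕ} (hi : i < 20) (hj : j < 20) (heq : H1.W R Q B S i = H1.W R' Q' B' S' j) :
    LawW q q' R R' B' S' i j := by
  have S0 := sq_ne R0 hs
  have S0' := sq_ne R0' hs'
  rcases Nat.lt_or_ge i 10 with h1 | h1 <;> rcases Nat.lt_or_ge j 10 with h2 | h2
  · rw [W_blk1 _ _ _ _ h1, W_blk1 _ _ _ _ h2] at heq
    rcases hL R .nil R' .nil (Or.inl ⟨rfl, rfl⟩) (Or.inl ⟨rfl, rfl⟩) i h1 j h2 heq with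
      ⟨a, _, _, b, c⟩ | ⟨_, _, a, _⟩ | ⟨_, a, _⟩ | ⟨a, _, _, b, c, d⟩ | ⟨_, _, a, _⟩ | ⟨_, a, _⟩
    · left
      refine ⟨a, b, ?_⟩
      omega
    · exact absurd rfl a
    · exact absurd a R0
    · right; right; left
      refine ⟨a, b, ?_⟩
      omega
    · exact absurd rfl a
    · exact absurd a R0
  · rw [W_blk1 _ _ _ _ h1, W_blk2 _ _ _ _ hj h2] at heq
    rcases hL R .nil B' S' (Or.inl ⟨rfl, rfl⟩) (Or.inr ⟨rfl, rfl⟩) i h1 (j - 10) (by omega) heq with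
      ⟨_, _, a, _⟩ | ⟨a, _, _, b, c, d⟩ | ⟨_, a, _⟩ | ⟨_, _, a, _⟩ | ⟨a, _, _, b, c, d, e⟩ | ⟨_, a, _⟩
    · exact absurd a S0'
    · right; left
      refine ⟨a, b, c, ?_⟩
      omega
    · exact absurd a R0
    · exact absurd a S0'
    · right; right; right
      refine ⟨a, b, c, ?_⟩
      omega
    · exact absurd a R0
  · rw [W_blk2 _ _ _ _ hi h1, W_blk1 _ _ _ _ h2] at heq
    rcases hL B S R' .nil (Or.inr ⟨rfl, rfl⟩) (Or.inl ⟨rfl, rfl⟩) (i - 10) (by omega) j h2 heq with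
      ⟨_, a, _⟩ | ⟨_, a, _⟩ | ⟨_, _, a, _⟩ | ⟨_, a, _⟩ | ⟨_, a, _⟩ | ⟨_, _, a, _⟩
    · exact absurd a S0
    · exact absurd a S0
    · exact absurd rfl a
    · exact absurd a S0
    · exact absurd a S0
    · exact absurd rfl a
  · rw [W_blk2 _ _ _ _ hi h1, W_blk2 _ _ _ _ hj h2] at heq
    rcases hL B S B' S' (Or.inr ⟨rfl, rfl⟩) (Or.inr ⟨rfl, rfl⟩) (i - 10) (by omega) (j - 10) (by omega)
      heq with
      ⟨_, a, _⟩ | ⟨_, a, _⟩ | ⟨a, b, _, c, d⟩ | ⟨_, a, _⟩ | ⟨_, a, _⟩ | ⟨a, b, _, c, d, e⟩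
    · exact absurd a S0
    · exact absurd a S0
    · left
      refine ⟨a, ?_, by omega⟩
      apply H1.sq_inj R0 (by simp)
      rw [hs, sq_prime R0' hs', b, c]
    · exact absurd a S0
    · exact absurd a S0
    · right; right; left
      refine ⟨a, ?_, by omega⟩
      apply H1.sq_inj R0 (by simp)
      rw [hs, sq_prime (by simp) (sq_prime R0' hs'), b, c]

/-- parts of `B` and `S` -/
theorem part_sq {m : ℕ} (hs : Tsq.sq R = (S, B)) (R0 : R ≠ .nil) (h : ∀ x ∈ OddHC.cont R, m ≤ x) :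
    (∀ x ∈ OddHC.cont B, m ≤ x) ∧ ∀ x ∈ OddHC.cont S, m ≤ x := by
  have hc := sq_cont R0 hs
  constructor <;> intro x hx <;> apply h <;> rw [← hc, Multiset.mem_add]
  · exact Or.inl hx
  · exact Or.inr hx

/-- **THE LAW**, every child with a unique smallest part -/
theorem W_law (hqq : q < q') (hs : Tsq.sq R = (S, B)) (R0 : R ≠ .nil)
    (hR : ∀ x ∈ OddHC.cont R, q + 3 < x) (hs' : Tsq.sq R' = (S', B')) (R0' : R' ≠ .nil)
    (hR' : ∀ x ∈ OddHC.cont R', q' + 3 ≤ x) {i j : ℕ} (hi : i < 20) (hj : j < 20)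
    (heq : H1.W R (H1.ch (q + 1)) B S i = H1.W R' (H1.ch (q' + 1)) B' S' j) :
    LawW q q' R R' B' S' i j := by
  obtain ⟨hB, hS⟩ := part_sq hs R0 (m := q + 4) hR
  obtain ⟨hB', hS'⟩ := part_sq hs' R0' hR'
  have S0 := sq_ne R0 hs
  have S0' := sq_ne R0' hs'
  have n0 : ∀ m, ∀ x ∈ OddHC.cont (BinaryTree.nil : BinaryTree Unit), m ≤ x := by
    intro m x hx
    rw [cont_nil] at hx
    exact absurd hx (Multiset.notMem_zero _)
  rw [H1.ch_eq, H1.ch_eq] at heq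
  apply W_lawB hs R0 hs' R0' _ hi hj heq
  intro X Y X' Y' h h' i hi j hj e
  have a1 : (∀ x ∈ OddHC.cont X, q + 3 < x) ∧ (∀ x ∈ OddHC.cont Y, q + 3 < x) ∧ (X ≠ .nil ∨ Y ≠ .nil) := by
    rcases h with ⟨rfl, rfl⟩ | ⟨rfl, rfl⟩
    · exact ⟨hR, n0 _, Or.inl R0⟩
    · exact ⟨hB, hS, Or.inr S0⟩
  have a2 : (∀ x ∈ OddHC.cont X', q' + 3 ≤ x) ∧ (∀ x ∈ OddHC.cont Y', q' + 3 ≤ x) ∧
      (X' ≠ .nil ∨ Y' ≠ .nil) := by
    rcases h' with ⟨rfl, rfl⟩ | ⟨rfl, rfl⟩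
    · exact ⟨hR', n0 _, Or.inl R0'⟩
    · exact ⟨hB', hS', Or.inr S0'⟩
  rcases Nat.eq_zero_or_pos q with rfl | hq
  · exact blk_law0 hqq a1.1 a1.2.1 a1.2.2 a2.1 a2.2.1 a2.2.2 hi hj e
  · exact blk_law hq hqq a1.1 a1.2.1 a1.2.2 a2.1 a2.2.1 a2.2.2 hi hj e

/-- **the same `q`, both unique**: same index, same `R` -/
theorem W_same (hs : Tsq.sq R = (S, B)) (R0 : R ≠ .nil) (hR : ∀ x ∈ OddHC.cont R, q + 3 < x)
    (hs' : Tsq.sq R' = (S', B')) (R0' : R' ≠ .nil) (hR' : ∀ x ∈ OddHC.cont R', q + 3 < x)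
    {i j : ℕ} (hi : i < 20) (hj : j < 20)
    (heq : H1.W R (H1.ch (q + 1)) B S i = H1.W R' (H1.ch (q + 1)) B' S' j) : i = j ∧ R = R' := by
  obtain ⟨hB, hS⟩ := part_sq hs R0 (m := q + 4) hR
  obtain ⟨hB', hS'⟩ := part_sq hs' R0' (m := q + 4) hR'
  have S0 := sq_ne R0 hs
  have S0' := sq_ne R0' hs'
  have n0 : ∀ x ∈ OddHC.cont (BinaryTree.nil : BinaryTree Unit), q + 3 < x := by
    intro x hx
    rw [cont_nil] at hx
    exact absurd hx (Multiset.notMem_zero _)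
  rw [H1.ch_eq] at heq
  rcases Nat.lt_or_ge i 10 with h1 | h1 <;> rcases Nat.lt_or_ge j 10 with h2 | h2
  · rw [W_blk1 _ _ _ _ h1, W_blk1 _ _ _ _ h2] at heq
    obtain ⟨a, b, _⟩ := blk_inj2 hR n0 (Or.inl R0) hR' n0 (Or.inl R0') h1 h2 heq
    exact ⟨a, b⟩
  · rw [W_blk1 _ _ _ _ h1, W_blk2 _ _ _ _ hj h2] at heq
    obtain ⟨_, _, a⟩ := blk_inj2 hR n0 (Or.inl R0) hB' hS' (Or.inr S0') h1 (by omega) heq
    exact absurd a.symm S0'
  · rw [W_blk2 _ _ _ _ hi h1, W_blk1 _ _ _ _ h2] at heq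
    obtain ⟨_, _, a⟩ := blk_inj2 hB hS (Or.inr S0) hR' n0 (Or.inl R0') (by omega) h2 heq
    exact absurd a S0
  · rw [W_blk2 _ _ _ _ hi h1, W_blk2 _ _ _ _ hj h2] at heq
    obtain ⟨a, b, c⟩ := blk_inj2 hB hS (Or.inr S0) hB' hS' (Or.inr S0') (by omega) (by omega) heq
    refine ⟨by omega, ?_⟩
    apply H1.sq_inj R0 R0'
    rw [hs, hs', b, c]

end I0

end Pool.OddHC
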