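import Pool.Agent.Work.MP_8f87b2_base.Gad20M

/-!
MP_8f87b2_co: the 20-word absorber `gad20` and its mirror `gad20M` for arbitrary blocks: words `i < 10` = the block
`bw A0 A1 A2 A3 A4`, words `10 + i` = the block `bw C0 C1 C2 C3 C4` (mirror: the indices `ix20 i`).
-/

set_option autoImplicit false

namespace Pool.OddHC

open Finset BinaryTree Equiv

variable {k : ℕ}

/-- star positions of two blocks -/
def s5 (a0 a1 a2 a3 c0 c1 c2 c3 : ℕ) (i : ℕ) : ℕ :=
  if i < 10 then bs a0 a1 a2 a3 i else bs c0 c1 c2 c3 (i - 10)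

/-- star positions of two mirrored blocks -/
def s5M (a0 a1 a2 a3 c0 c1 c2 c3 : ℕ) (i : ℕ) : ℕ :=
  if i < 10 then bs a0 a1 a2 a3 (ix20 i) else bs c0 c1 c2 c3 (ix20 (i - 10))

variable {A0 A1 A2 A3 A4 C0 C1 C2 C3 C4 : BinaryTree Unit}

theorem hfr5 (hA : A0.numNodes + A1.numNodes + A2.numNodes + A3.numNodes + A4.numNodes + 2 = k)
    (hC : C0.numNodes + C1.numNodes + C2.numNodes + C3.numNodes + C4.numNodes + 2 = k)
    {w : ℕ → X k} (hw : ∀ i < 10, (w i).1 = bw A0 A1 A2 A3 A4 i)
    (hw' : ∀ i < 10, (w (10 + i)).1 = bw C0 C1 C2 C3 C4 i) :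
    ∀ i < Cert.al.length, ∀ j < Cert.al.length, Abs.bit (Cert.al.getD i 0) j = true →
      io (w i) ((s5 A0.numNodes A1.numNodes A2.numNodes A3.numNodes C0.numNodes C1.numNodes
          C2.numNodes C3.numNodes i : ℕ) : ZMod (2 * k + 1)) ⊆
        insert ((s5 A0.numNodes A1.numNodes A2.numNodes A3.numNodes C0.numNodes C1.numNodes
          C2.numNodes C3.numNodes j : ℕ) : ZMod (2 * k + 1))
          (io (w j) ((s5 A0.numNodes A1.numNodes A2.numNodes A3.numNodes C0.numNodes C1.numNodes
          C2.numNodes C3.numNodes j : ℕ) : ZMod (2 * k + 1))) := by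
  intro i hi j hj hb
  have hi' : i < 20 := hi
  have hj' : j < 20 := hj
  rcases al20_cases ⟨i, hi'⟩ ⟨j, hj'⟩ hb with ⟨h1, h2, h3⟩ | ⟨h1, h2, h3⟩
  · have h1' : i < 10 := h1
    have h2' : j < 10 := h2
    have h4 := block_al (k := k) A0 A1 A2 A3 A4 hA h1' h2' (hw i h1') (hw j h2') h3 0
    unfold s5
    rw [if_pos h1', if_pos h2']
    rw [zero_add, zero_add] at h4
    exact h4
  · have h1' : 10 ≤ i := h1
    have h2' : 10 ≤ j := h2
    have e1 : (w i).1 = bw C0 C1 C2 C3 C4 (i - 10) := by
      have := hw' (i - 10) (by omega)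
      rwa [show 10 + (i - 10) = i by omega] at this
    have e2 : (w j).1 = bw C0 C1 C2 C3 C4 (j - 10) := by
      have := hw' (j - 10) (by omega)
      rwa [show 10 + (j - 10) = j by omega] at this
    have h4 := block_al (k := k) C0 C1 C2 C3 C4 hC (show i - 10 < 10 by omega)
      (show j - 10 < 10 by omega) e1 e2 h3 0
    unfold s5
    rw [if_neg (by omega), if_neg (by omega)]
    rw [zero_add, zero_add] at h4
    exact h4

/-- THE 20-WORD ABSORBER with arbitrary blocks -/
theorem gad20_abs5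
    (hA : A0.numNodes + A1.numNodes + A2.numNodes + A3.numNodes + A4.numNodes + 2 = k)
    (hC : C0.numNodes + C1.numNodes + C2.numNodes + C3.numNodes + C4.numNodes + 2 = k)
    {w : ℕ → X k} (hw : ∀ i < 10, (w i).1 = bw A0 A1 A2 A3 A4 i)
    (hw' : ∀ i < 10, (w (10 + i)).1 = bw C0 C1 C2 C3 C4 i)
    (hinj : ∀ i < 20, ∀ j < 20, w i = w j → i = j) (h10 : TT.SameCycle (w 0) (w 10))
    (hold : ∀ i < 20, i ≠ 0 → i ≠ 10 → ¬ TT.SameCycle (w 0) (w i)) :
    (gad20 w).Abs := by
  classical
  have hBm : ∀ x, x ∈ (gad20 w).B ↔ ∃ i < Cert.al.length, w i = x := by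
    intro x
    change x ∈ (range 20).image w ↔ _
    rw [mem_image]
    constructor
    · rintro ⟨i, hi, rfl⟩
      exact ⟨i, mem_range.1 hi, rfl⟩
    · rintro ⟨i, hi, rfl⟩
      exact ⟨i, mem_range.2 hi, rfl⟩
  have hbit : ∀ i : ℕ, Abs.bit Cert.F_0 i = true ↔ (i = 0 ∨ i = 10) := by
    intro i
    rw [Abs.bit_eq]
    constructor
    · intro h
      have h20 : i < 11 := by
        by_contra h2
        have h3 : Cert.F_0 < 2 ^ i := lt_of_lt_of_le (by decide)
          (Nat.pow_le_pow_right (by norm_num) (show 11 ≤ i by omega))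
        rw [Nat.testBit_lt_two_pow h3] at h
        exact absurd h (by simp)
      interval_cases i <;> first | (left; rfl) | (right; rfl) | (exact absurd h (by decide))
    · rintro (rfl | rfl) <;> decide
  have hFi : ∀ i < 20, (w i ∈ (gad20 w).F ↔ (i = 0 ∨ i = 10)) := by
    intro i hi
    change TT.SameCycle (w 0) (w i) ↔ _
    constructor
    · intro h
      by_contra h2
      push Not at h2
      exact hold i hi h2.1 h2.2 h
    · rintro (rfl | rfl)
      · exact Perm.SameCycle.refl _ _
      · exact h10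
  have hne : w 0 ≠ w 10 := by
    intro h
    have := hinj 0 (by norm_num) 10 (by norm_num) h
    omega
  have hin : ∀ x ∈ (gad20 w).B, TT.SameCycle (w 0) x → x = w 0 ∨ x = w 10 := by
    intro x hx hs
    obtain ⟨j, hj, rfl⟩ := (hBm x).1 hx
    have hj' : j < 20 := hj
    by_contra h2
    push Not at h2
    refine hold j hj' ?_ ?_ hs
    · rintro rfl
      exact h2.1 rfl
    · rintro rfl
      exact h2.2 rfl
  apply Abs.cert_abs (gad20 w) w (fun i => ((s5 A0.numNodes A1.numNodes A2.numNodes A3.numNodes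
      C0.numNodes C1.numNodes C2.numNodes C3.numNodes i : ℕ) : ZMod (2 * k + 1)))
    Cert.A Cert.F_0 Cert.Z_0 Cert.x0_0 Cert.z0_0 Cert.cF_0 Cert.al Cert.code_0 hBm
  · intro i hi j hj h
    exact hinj i hi j hj h
  · intro i hi
    rw [hFi i hi, hbit]
  · intro i h
    rw [hbit] at h
    change i < 20
    omega
  · intro x y hxy hx
    exact Perm.SameCycle.trans hx hxy
  · intro i hi hd
    have hi' : i < 20 := hi
    change (w i, w (Abs.dig Cert.A i)) ∈ ({(w 0, w 10), (w 1, w 11), (w 3, w 12), (w 6, w 15),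
      (w 8, w 14), (w 9, w 17)} : Set (X k × X k))
    have hd' : Abs.dig Cert.A i < 20 := hd
    interval_cases i
    · exact Or.inl rfl
    · exact Or.inr (Or.inl rfl)
    · exact absurd hd' (by decide)
    · exact Or.inr (Or.inr (Or.inl rfl))
    · exact absurd hd' (by decide)
    · exact absurd hd' (by decide)
    · exact Or.inr (Or.inr (Or.inr (Or.inl rfl)))
    · exact absurd hd' (by decide)
    · exact Or.inr (Or.inr (Or.inr (Or.inr (Or.inl rfl))))
    · exact Or.inr (Or.inr (Or.inr (Or.inr (Or.inr rfl))))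
    all_goals exact absurd hd' (by decide)
  · intro i h
    rw [hbit] at h
    rcases h with rfl | rfl
    · refine ⟨by decide, ?_⟩
      change FR TT (gad20 w).B (w 0) (w 10)
      exact FR_pair TT _ _ _ ((hBm _).2 ⟨10, by decide, rfl⟩) hne h10 hin
    · refine ⟨by decide, ?_⟩
      change FR TT (gad20 w).B (w 10) (w 0)
      refine FR_pair TT _ _ _ ((hBm _).2 ⟨0, by decide, rfl⟩) hne.symm h10.symm ?_
      intro x hx hs
      exact (hin x hx (h10.trans hs)).symm
  · exact hfr5 hA hC hw hw'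
  · decide
  · decide
  · decide
  · exact Cert.run20

theorem hfr5M (hA : A0.numNodes + A1.numNodes + A2.numNodes + A3.numNodes + A4.numNodes + 2 = k)
    (hC : C0.numNodes + C1.numNodes + C2.numNodes + C3.numNodes + C4.numNodes + 2 = k)
    {w : ℕ → X k} (hw : ∀ i < 10, (w i).1 = bw A0 A1 A2 A3 A4 (ix20 i))
    (hw' : ∀ i < 10, (w (10 + i)).1 = bw C0 C1 C2 C3 C4 (ix20 i)) :
    ∀ i < CertM.al.length, ∀ j < CertM.al.length, Abs.bit (CertM.al.getD i 0) j = true →
      io (w i) ((s5M A0.numNodes A1.numNodes A2.numNodes A3.numNodes C0.numNodes C1.numNodes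
          C2.numNodes C3.numNodes i : ℕ) : ZMod (2 * k + 1)) ⊆
        insert ((s5M A0.numNodes A1.numNodes A2.numNodes A3.numNodes C0.numNodes C1.numNodes
          C2.numNodes C3.numNodes j : ℕ) : ZMod (2 * k + 1))
          (io (w j) ((s5M A0.numNodes A1.numNodes A2.numNodes A3.numNodes C0.numNodes C1.numNodes
          C2.numNodes C3.numNodes j : ℕ) : ZMod (2 * k + 1))) := by
  intro i hi j hj hb
  have hi' : i < 20 := hi
  have hj' : j < 20 := hj
  rcases al20M_cases ⟨i, hi'⟩ ⟨j, hj'⟩ hb with ⟨h1, h2, h3⟩ | ⟨h1, h2, h3⟩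
  · have h1' : i < 10 := h1
    have h2' : j < 10 := h2
    have h4 := block_al (k := k) A0 A1 A2 A3 A4 hA (ix20_lt i) (ix20_lt j) (hw i h1')
      (hw j h2') h3 0
    unfold s5M
    rw [if_pos h1', if_pos h2']
    rw [zero_add, zero_add] at h4
    exact h4
  · have h1' : 10 ≤ i := h1
    have h2' : 10 ≤ j := h2
    have e1 : (w i).1 = bw C0 C1 C2 C3 C4 (ix20 (i - 10)) := by
      have := hw' (i - 10) (by omega)
      rwa [show 10 + (i - 10) = i by omega] at this
    have e2 : (w j).1 = bw C0 C1 C2 C3 C4 (ix20 (j - 10)) := by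
      have := hw' (j - 10) (by omega)
      rwa [show 10 + (j - 10) = j by omega] at this
    have h4 := block_al (k := k) C0 C1 C2 C3 C4 hC (ix20_lt (i - 10)) (ix20_lt (j - 10)) e1 e2 h3 0
    unfold s5M
    rw [if_neg (by omega), if_neg (by omega)]
    rw [zero_add, zero_add] at h4
    exact h4

/-- THE MIRROR OF THE 20-WORD ABSORBER with arbitrary blocks -/
theorem gad20M_abs5
    (hA : A0.numNodes + A1.numNodes + A2.numNodes + A3.numNodes + A4.numNodes + 2 = k)
    (hC : C0.numNodes + C1.numNodes + C2.numNodes + C3.numNodes + C4.numNodes + 2 = k)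
    {w : ℕ → X k} (hw : ∀ i < 10, (w i).1 = bw A0 A1 A2 A3 A4 (ix20 i))
    (hw' : ∀ i < 10, (w (10 + i)).1 = bw C0 C1 C2 C3 C4 (ix20 i))
    (hinj : ∀ i < 20, ∀ j < 20, w i = w j → i = j) (h10 : TT.SameCycle (w 0) (w 10))
    (hold : ∀ i < 20, i ≠ 0 → i ≠ 10 → ¬ TT.SameCycle (w 0) (w i)) :
    (gad20M w).Abs := by
  classical
  have hBm : ∀ x, x ∈ (gad20M w).B ↔ ∃ i < CertM.al.length, w i = x := by
    intro x
    change x ∈ (range 20).image w ↔ _
    rw [mem_image]
    constructor
    · rintro ⟨i, hi, rfl⟩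
      exact ⟨i, mem_range.1 hi, rfl⟩
    · rintro ⟨i, hi, rfl⟩
      exact ⟨i, mem_range.2 hi, rfl⟩
  have hbit : ∀ i : ℕ, Abs.bit CertM.F_0 i = true ↔ (i = 0 ∨ i = 10) := by
    intro i
    rw [Abs.bit_eq]
    constructor
    · intro h
      have h20 : i < 11 := by
        by_contra h2
        have h3 : CertM.F_0 < 2 ^ i := lt_of_lt_of_le (by decide)
          (Nat.pow_le_pow_right (by norm_num) (show 11 ≤ i by omega))
        rw [Nat.testBit_lt_two_pow h3] at h
        exact absurd h (by simp)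
      interval_cases i <;> first | (left; rfl) | (right; rfl) | (exact absurd h (by decide))
    · rintro (rfl | rfl) <;> decide
  have hFi : ∀ i < 20, (w i ∈ (gad20M w).F ↔ (i = 0 ∨ i = 10)) := by
    intro i hi
    change TT.SameCycle (w 0) (w i) ↔ _
    constructor
    · intro h
      by_contra h2
      push Not at h2
      exact hold i hi h2.1 h2.2 h
    · rintro (rfl | rfl)
      · exact Perm.SameCycle.refl _ _
      · exact h10
  have hne : w 0 ≠ w 10 := by
    intro h
    have := hinj 0 (by norm_num) 10 (by norm_num) h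
    omega
  have hin : ∀ x ∈ (gad20M w).B, TT.SameCycle (w 0) x → x = w 0 ∨ x = w 10 := by
    intro x hx hs
    obtain ⟨j, hj, rfl⟩ := (hBm x).1 hx
    have hj' : j < 20 := hj
    by_contra h2
    push Not at h2
    refine hold j hj' ?_ ?_ hs
    · rintro rfl
      exact h2.1 rfl
    · rintro rfl
      exact h2.2 rfl
  apply Abs.cert_abs (gad20M w) w (fun i => ((s5M A0.numNodes A1.numNodes A2.numNodes A3.numNodes
      C0.numNodes C1.numNodes C2.numNodes C3.numNodes i : ℕ) : ZMod (2 * k + 1)))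
    CertM.A CertM.F_0 CertM.Z_0 CertM.x0_0 CertM.z0_0 CertM.cF_0 CertM.al CertM.code_0 hBm
  · intro i hi j hj h
    exact hinj i hi j hj h
  · intro i hi
    rw [hFi i hi, hbit]
  · intro i h
    rw [hbit] at h
    change i < 20
    omega
  · intro x y hxy hx
    exact Perm.SameCycle.trans hx hxy
  · intro i hi hd
    have hi' : i < 20 := hi
    change (w i, w (Abs.dig CertM.A i)) ∈ ({(w 10, w 0), (w 11, w 1), (w 12, w 3), (w 15, w 6),
      (w 14, w 8), (w 17, w 9)} : Set (X k × X k))
    have hd' : Abs.dig CertM.A i < 20 := hd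
    interval_cases i
    · exact absurd hd' (by decide)
    · exact absurd hd' (by decide)
    · exact absurd hd' (by decide)
    · exact absurd hd' (by decide)
    · exact absurd hd' (by decide)
    · exact absurd hd' (by decide)
    · exact absurd hd' (by decide)
    · exact absurd hd' (by decide)
    · exact absurd hd' (by decide)
    · exact absurd hd' (by decide)
    · exact Or.inl rfl
    · exact Or.inr (Or.inl rfl)
    · exact Or.inr (Or.inr (Or.inl rfl))
    · exact absurd hd' (by decide)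
    · exact Or.inr (Or.inr (Or.inr (Or.inr (Or.inl rfl))))
    · exact Or.inr (Or.inr (Or.inr (Or.inl rfl)))
    · exact absurd hd' (by decide)
    · exact Or.inr (Or.inr (Or.inr (Or.inr (Or.inr rfl))))
    · exact absurd hd' (by decide)
    · exact absurd hd' (by decide)
  · intro i h
    rw [hbit] at h
    rcases h with rfl | rfl
    · refine ⟨by decide, ?_⟩
      change FR TT (gad20M w).B (w 0) (w 10)
      exact FR_pair TT _ _ _ ((hBm _).2 ⟨10, by decide, rfl⟩) hne h10 hin
    · refine ⟨by decide, ?_⟩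
      change FR TT (gad20M w).B (w 10) (w 0)
      refine FR_pair TT _ _ _ ((hBm _).2 ⟨0, by decide, rfl⟩) hne.symm h10.symm ?_
      intro x hx hs
      exact (hin x hx (h10.trans hs)).symm
  · exact hfr5M hA hC hw hw'
  · decide
  · decide
  · decide
  · exact CertM.run20M

end Pool.OddHC
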