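import Pool.Agent.Work.MP_8f87b2_h88.Gen5
import Pool.Agent.Work.MP_8f87b2_h60.A0A
import Pool.Agent.Work.MP_8f87b2_mid.Types

/-!
MP_8f87b2_co: INTERIOR WINDOWS of a bead free `T`-cycle. `z = R ((Q)) R2`, `Q = [q + 1]`, `R2` not empty, `ht R2 ≤ ht R`,
all solitons of `R`, `R2` larger than `c = q + 3`, `(S, B) = sq R`. The twenty words are the blocks `[e, Q, e, R2, R]`,
`[e, Q, e, R2 S, B]`, the same certificate as for the window at the end. Contents, rank, links, `Abs`.
-/

set_option autoImplicit false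

namespace Pool.OddHC

open Finset Equiv BinaryTree Multiset Pool.Agent.Work.MP_8f87b2_co

variable {k : ℕ}

namespace I0

open H1 (ch ch_num ch_ht ch_cont raise_one raise_one_pos sqs sqs_add sqs_single sqs_raise Lower)

/-- the twenty words -/
def V (R Q R2 B S : BinaryTree Unit) : ℕ → BinaryTree Unit
  | 0 => app R ((Q △ .nil) △ R2)
  | 1 => app R (.nil △ app Q (.nil △ R2))
  | 2 => R2 △ app R (.nil △ Q)
  | 3 => app R2 (app R (.nil △ Q) △ .nil)
  | 4 => app Q (.nil △ R2) △ R
  | 5 => Q △ (R2 △ R)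
  | 6 => app R2 (R △ (Q △ .nil))
  | 7 => app Q ((R2 △ R) △ .nil)
  | 8 => app Q (.nil △ app R2 (R △ .nil))
  | 9 => app R2 (R △ .nil) △ Q
  | 10 => app B ((Q △ .nil) △ app R2 S)
  | 11 => app B (.nil △ app Q (.nil △ app R2 S))
  | 12 => app R2 S △ app B (.nil △ Q)
  | 13 => app (app R2 S) (app B (.nil △ Q) △ .nil)
  | 14 => app Q (.nil △ app R2 S) △ B
  | 15 => Q △ (app R2 S △ B)
  | 16 => app (app R2 S) (B △ (Q △ .nil))
  | 17 => app Q ((app R2 S △ B) △ .nil)
  | 18 => app Q (.nil △ app (app R2 S) (B △ .nil))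
  | _ => app (app R2 S) (B △ .nil) △ Q

/-- the data: `R ((Q)) R2` -/
structure NodeI (k q : ℕ) (R R2 B S : BinaryTree Unit) : Prop where
  sq : Tsq.sq R = (S, B)
  part : ∀ x ∈ cont R, q + 3 < x
  part2 : ∀ x ∈ cont R2, q + 3 < x
  ne2 : R2 ≠ .nil
  low : ht R2 ≤ ht R
  size : R.numNodes + R2.numNodes + q + 3 = k

variable {q : ℕ} {R R2 B S : BinaryTree Unit}

theorem ht_pos' {t : BinaryTree Unit} (h : t ≠ .nil) : 1 ≤ ht t := by
  have := Tsq.ht_pos h
  rw [H1.ht_eq] at this
  exact this

theorem NodeI.top2 (h : NodeI k q R R2 B S) : q + 3 < ht R2 := by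
  have h1 : cont R2 ≠ 0 := fun e => h.ne2 (cont_eq_zero.1 e)
  have h2 := h.part2 _ (sup_mem h1)
  rwa [← OddHC.ht_eq] at h2

theorem NodeI.top (h : NodeI k q R R2 B S) : q + 3 < ht R := lt_of_lt_of_le h.top2 h.low

theorem NodeI.ne (h : NodeI k q R R2 B S) : R ≠ .nil := by
  rintro rfl
  have := h.top
  rw [ht] at this
  omega

theorem NodeI.num (h : NodeI k q R R2 B S) : S.numNodes + B.numNodes = R.numNodes := by
  have := Tsq.sq_num h.ne
  rwa [h.sq] at this

theorem NodeI.htS (h : NodeI k q R R2 B S) : ht S = ht R := by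
  have := (Tsq.ht_sq h.ne).1
  rwa [h.sq, H1.ht_eq, H1.ht_eq] at this

theorem NodeI.htB (h : NodeI k q R R2 B S) : ht B ≤ ht R := by
  have := (Tsq.ht_sq h.ne).2
  rwa [h.sq, H1.ht_eq, H1.ht_eq] at this

theorem NodeI.neS (h : NodeI k q R R2 B S) : S ≠ .nil := by
  rintro rfl
  have h1 := h.htS
  have h2 := h.top
  rw [ht] at h1
  omega

theorem NodeI.cont (h : NodeI k q R R2 B S) : cont B + cont S = cont R := by
  let x : X R.numNodes := ⟨R, mem_treesOfNumNodesEq.2 rfl⟩
  have e1 : (TT (TT x)).1 = app (Tsq.sq R).2 (Tsq.sq R).1 := Tsq.TT_sq x h.ne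
  have e2 : OddHC.cont (TT (TT x)).1 = OddHC.cont R := by
    rw [TT_apply, cont_TF, TT_apply, cont_TF]
  rw [e1, cont_app, h.sq] at e2
  exact e2

theorem NodeI.partB (h : NodeI k q R R2 B S) : ∀ x ∈ OddHC.cont B, q + 3 < x := by
  intro x hx
  apply h.part
  rw [← h.cont]
  exact Multiset.mem_add.2 (Or.inl hx)

theorem NodeI.partS (h : NodeI k q R R2 B S) : ∀ x ∈ OddHC.cont S, q + 3 < x := by
  intro x hx
  apply h.part
  rw [← h.cont]
  exact Multiset.mem_add.2 (Or.inr hx)

/-- the sizes -/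
theorem num_V (h : NodeI k q R R2 B S) (Q : BinaryTree Unit) : ∀ i < 20,
    (V R Q R2 B S i).numNodes = R.numNodes + R2.numNodes + Q.numNodes + 2 := by
  have e := h.num
  intro i hi
  have hn : ∀ A C : BinaryTree Unit, (A △ C).numNodes = A.numNodes + C.numNodes + 1 := fun _ _ => rfl
  have h0 : (BinaryTree.nil : BinaryTree Unit).numNodes = 0 := rfl
  interval_cases i <;> simp only [V, num_app, hn, h0] <;> omega

/-- the words in `X k` -/
noncomputable def vX (R R2 B S : BinaryTree Unit) (q : ℕ) (w0 : X k) (i : ℕ) : X k := by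
  classical
  exact if h : (V R (ch (q + 1)) R2 B S i).numNodes = k then ⟨_, mem_treesOfNumNodesEq.2 h⟩ else w0

theorem vX_eq (h : NodeI k q R R2 B S) (w0 : X k) {i : ℕ} (hi : i < 20) :
    (vX R R2 B S q w0 i).1 = V R (ch (q + 1)) R2 B S i := by
  have hk := h.size
  unfold vX
  rw [dif_pos (by rw [num_V h _ i hi, ch_num]; omega)]

/-- the content of the new `T`-cycle -/
theorem cont_V0 : OddHC.cont (V R (ch (q + 1)) R2 B S 0) = OddHC.cont R + {q + 3} + OddHC.cont R2 := by
  have e : OddHC.cont ((ch (q + 1) △ BinaryTree.nil) △ BinaryTree.nil) = {q + 3} := ch_cont (q + 2)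
  have e2 : OddHC.raise (OddHC.cont (ch (q + 1) △ BinaryTree.nil)) = {q + 3} := by
    rw [OddHC.cont_node (ch (q + 1) △ BinaryTree.nil) BinaryTree.nil, cont_nil, add_zero] at e
    exact e
  change OddHC.cont (app R ((ch (q + 1) △ BinaryTree.nil) △ R2)) = _
  rw [cont_app, OddHC.cont_node, e2, ← add_assoc]

/-- THE OLD WORDS ARE OLDER -/
theorem rank_V (h : NodeI k q R R2 B S) : ∀ i < 20, i ≠ 0 → i ≠ 10 →
    Lower (OddHC.cont (V R (ch (q + 1)) R2 B S i)) (OddHC.cont R + {q + 3} + OddHC.cont R2) := by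
  intro i hi h0 h10
  have ht2 := h.top2
  have htR := h.top
  have hl := h.low
  have hz : (OddHC.cont R + {q + 3} + OddHC.cont R2).sup = ht R := by
    rw [sup_add', sup_add', ← OddHC.ht_eq, ← OddHC.ht_eq, Multiset.sup_singleton]
    omega
  have c1 : ∀ {M : Multiset ℕ}, (∀ x ∈ M, q + 3 < x) → M.count 1 = 0 := by
    intro M hM
    rw [Multiset.count_eq_zero]
    intro h1
    have := hM 1 h1
    omega
  have hR1 := c1 h.part
  have hR21 := c1 h.part2
  have hB1 := c1 h.partB
  have hS1 := c1 h.partS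
  have hz1 : (OddHC.cont R + {q + 3} + OddHC.cont R2).count 1 = 0 := by
    rw [Multiset.count_add, Multiset.count_add, Multiset.count_singleton, if_neg (by omega), hR1,
      hR21]
  have hS := h.htS
  have hB := h.htB
  have hc := h.cont
  have hQ := ch_ht (q + 1)
  have h00 : ht (BinaryTree.nil : BinaryTree Unit) = 0 := rfl
  have cQ := ch_cont q
  -- more height
  have up : ∀ w : BinaryTree Unit, ht R < ht w →
      Lower (OddHC.cont w) (OddHC.cont R + {q + 3} + OddHC.cont R2) := by
    intro w hw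
    left
    rw [hz, ← OddHC.ht_eq]
    exact hw
  have one : ∀ w : BinaryTree Unit, ht w = ht R → 0 < (OddHC.cont w).count 1 →
      Lower (OddHC.cont w) (OddHC.cont R + {q + 3} + OddHC.cont R2) := by
    intro w hw h1
    right
    rw [hz, ← OddHC.ht_eq]
    refine ⟨hw, Or.inl ?_⟩
    rw [hz1]
    exact h1
  have cn : ∀ A C : BinaryTree Unit, (OddHC.cont (A △ C)).count 1 =
      (raise (OddHC.cont A)).count 1 + (OddHC.cont C).count 1 := by
    intro A C
    rw [OddHC.cont_node, Multiset.count_add]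
  have ca : ∀ A C : BinaryTree Unit, (OddHC.cont (app A C)).count 1 =
      (OddHC.cont A).count 1 + (OddHC.cont C).count 1 := by
    intro A C
    rw [cont_app, Multiset.count_add]
  have c0 : (OddHC.cont (BinaryTree.nil : BinaryTree Unit)).count 1 = 0 := rfl
  have r0 : (raise (OddHC.cont (BinaryTree.nil : BinaryTree Unit))).count 1 = 1 := by
    rw [cont_nil, raise_zero]; rfl
  have hR20 : OddHC.cont R2 ≠ 0 := fun e => h.ne2 (cont_eq_zero.1 e)
  interval_cases i
  · exact absurd rfl h0
  · apply one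
    · simp only [V, OddHC.ht_app, OddHC.ht_node, hQ, h00]; omega
    · simp only [V, ca, cn, c0, r0]; omega
  · rcases Nat.lt_or_ge (ht R2) (ht R) with h5 | h5
    · apply one
      · simp only [V, OddHC.ht_app, OddHC.ht_node, hQ, h00]; omega
      · simp only [V, ca, cn, r0]; omega
    · apply up
      simp only [V, OddHC.ht_app, OddHC.ht_node, hQ, h00]; omega
  · apply up
    simp only [V, OddHC.ht_app, OddHC.ht_node, hQ, h00]; omega
  · rcases Nat.lt_or_ge (ht R2) (ht R) with h5 | h5
    · apply one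
      · simp only [V, OddHC.ht_app, OddHC.ht_node, hQ, h00]; omega
      · simp only [V, cn]
        have h6 : 1 ≤ (raise (OddHC.cont (app (ch (q + 1)) (BinaryTree.nil △ R2)))).count 1 := by
          apply raise_one_pos
          · rw [cont_app, OddHC.cont_node, cont_nil, raise_zero]
            simp
          · rw [cont_app, OddHC.cont_node, cont_nil, raise_zero, cQ]
            intro h6
            have := congrArg Multiset.card h6
            simp at this
          · exact cont_pos _
        omega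
    · apply up
      simp only [V, OddHC.ht_app, OddHC.ht_node, hQ, h00]; omega
  · rcases Nat.lt_or_ge (ht R2) (ht R) with h5 | h5
    · have e1 : ht (V R (ch (q + 1)) R2 B S 5) = ht R := by
        simp only [V, OddHC.ht_app, OddHC.ht_node, hQ, h00]; omega
      have e2 : OddHC.cont (V R (ch (q + 1)) R2 B S 5) =
          {q + 2} + (raise (OddHC.cont R2) + OddHC.cont R) := by
        have e3 : raise (OddHC.cont (ch (q + 1))) = {q + 2} := by
          have e4 : OddHC.cont (ch (q + 1) △ BinaryTree.nil) = {q + 2} := ch_cont (q + 1)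
          rw [OddHC.cont_node, cont_nil, add_zero] at e4
          exact e4
        simp only [V]
        rw [OddHC.cont_node, OddHC.cont_node, e3]
      right
      rw [hz, ← OddHC.ht_eq]
      refine ⟨e1, Or.inr ⟨?_, ?_⟩⟩
      · rw [hz1, e2, Multiset.count_add, Multiset.count_add, raise_one (by
          rw [← OddHC.ht_eq]; omega), hR21, hR1, Multiset.count_singleton, if_neg (by omega)]
      · rw [e2, sqs_add, sqs_add, sqs_add, sqs_add, sqs_raise hR20, sqs_single, sqs_single,
          ← OddHC.ht_eq]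
        nlinarith
    · apply up
      simp only [V, OddHC.ht_app, OddHC.ht_node, hQ, h00]; omega
  · apply up
    simp only [V, OddHC.ht_app, OddHC.ht_node, hQ, h00]; omega
  · apply up
    simp only [V, OddHC.ht_app, OddHC.ht_node, hQ, h00]; omega
  · apply up
    simp only [V, OddHC.ht_app, OddHC.ht_node, hQ, h00]; omega
  · apply up
    simp only [V, OddHC.ht_app, OddHC.ht_node, hQ, h00]; omega
  · exact absurd rfl h10
  · apply one
    · simp only [V, OddHC.ht_app, OddHC.ht_node, hQ, h00]; omega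
    · simp only [V, ca, cn, r0]; omega
  · apply up
    simp only [V, OddHC.ht_app, OddHC.ht_node, hQ, h00]; omega
  · rcases Nat.lt_or_ge (ht B) (ht R) with h5 | h5
    · apply one
      · simp only [V, OddHC.ht_app, OddHC.ht_node, hQ, h00]; omega
      · simp only [V, ca, cn, c0]
        have h6 : 1 ≤ (raise (OddHC.cont (app B (BinaryTree.nil △ ch (q + 1))))).count 1 := by
          apply raise_one_pos
          · rw [cont_app, OddHC.cont_node, cont_nil, raise_zero]
            simp
          · rw [cont_app, OddHC.cont_node, cont_nil, raise_zero, cQ]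
            intro h6
            have := congrArg Multiset.card h6
            simp at this
          · exact cont_pos _
        omega
    · apply up
      simp only [V, OddHC.ht_app, OddHC.ht_node, hQ, h00]; omega
  · apply up
    simp only [V, OddHC.ht_app, OddHC.ht_node, hQ, h00]; omega
  · apply up
    simp only [V, OddHC.ht_app, OddHC.ht_node, hQ, h00]; omega
  · rcases Nat.lt_or_ge (ht B) (ht R) with h5 | h5
    · have e1 : ht (V R (ch (q + 1)) R2 B S 16) = ht R := by
        simp only [V, OddHC.ht_app, OddHC.ht_node, hQ, h00]; omega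
      have e2 : OddHC.cont (V R (ch (q + 1)) R2 B S 16) =
          OddHC.cont R2 + OddHC.cont S + (raise (OddHC.cont B) + {q + 2}) := by
        have e3 : OddHC.cont (ch (q + 1) △ BinaryTree.nil) = {q + 2} := ch_cont (q + 1)
        simp only [V, cont_app]
        rw [OddHC.cont_node, e3]
      by_cases hBn : B = .nil
      · apply one _ e1
        rw [e2, hBn, Multiset.count_add, Multiset.count_add, Multiset.count_add, r0]
        omega
      · have hB0 : OddHC.cont B ≠ 0 := fun h => hBn (cont_eq_zero.1 h)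
        have hBs := h.partB _ (sup_mem hB0)
        right
        rw [hz, ← OddHC.ht_eq]
        refine ⟨e1, Or.inr ⟨?_, ?_⟩⟩
        · rw [hz1, e2, Multiset.count_add, Multiset.count_add, Multiset.count_add,
            raise_one (by omega), hB1, hR21, hS1, Multiset.count_singleton, if_neg (by omega)]
        · rw [e2, ← hc, sqs_add, sqs_add, sqs_add, sqs_add, sqs_add, sqs_add, sqs_raise hB0,
            sqs_single, sqs_single]
          nlinarith
    · apply up
      simp only [V, OddHC.ht_app, OddHC.ht_node, hQ, h00]; omega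
  · apply up
    simp only [V, OddHC.ht_app, OddHC.ht_node, hQ, h00]; omega
  · rcases Nat.lt_or_ge (ht B) (ht R) with h5 | h5
    · apply one
      · simp only [V, OddHC.ht_app, OddHC.ht_node, hQ, h00]; omega
      · simp only [V, ca, cn, r0, c0]; omega
    · apply up
      simp only [V, OddHC.ht_app, OddHC.ht_node, hQ, h00]; omega
  · apply up
    simp only [V, OddHC.ht_app, OddHC.ht_node, hQ, h00]; omega

theorem NodeI.cont0 (h : NodeI k q R R2 B S) (w0 : X k) :
    OddHC.cont (vX R R2 B S q w0 0).1 = OddHC.cont R + {q + 3} + OddHC.cont R2 := by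
  rw [vX_eq h w0 (by norm_num), cont_V0]

theorem NodeI.rank (h : NodeI k q R R2 B S) (w0 : X k) : ∀ i < 20, i ≠ 0 → i ≠ 10 →
    Lower (OddHC.cont (vX R R2 B S q w0 i).1) (OddHC.cont (vX R R2 B S q w0 0).1) := by
  intro i hi h0 h10
  rw [h.cont0, vX_eq h w0 hi]
  exact rank_V h i hi h0 h10

theorem NodeI.hold (h : NodeI k q R R2 B S) (w0 : X k) : ∀ i < 20, i ≠ 0 → i ≠ 10 →
    ¬ TT.SameCycle (vX R R2 B S q w0 0) (vX R R2 B S q w0 i) := by
  intro i hi h0 h10 hs
  exact (h.rank w0 i hi h0 h10).ne (cont_same hs).symm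

/-! ### The links -/

theorem pre_app (P : BinaryTree Unit) (X Y : BinaryTree Unit) :
    Tsq.pre P (X △ Y) = app P X △ Y := rfl

theorem NodeI.link (h : NodeI k q R R2 B S) (w0 : X k) {i j : ℕ}
    (hij : (i, j) ∈ [(0, 10), (1, 11), (3, 12), (6, 15), (8, 14), (9, 17)]) :
    TT (TT (vX R R2 B S q w0 i)) = vX R R2 B S q w0 j := by
  have hR : R ≠ .nil := h.ne
  have ht2 := h.top2
  have htR := h.top
  have hl := h.low
  have t1 : Tsq.ht R = ht R := H1.ht_eq R
  have t2 : Tsq.ht R2 = ht R2 := H1.ht_eq R2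
  have tQ : Tsq.ht (ch (q + 1)) = q + 1 := by rw [H1.ht_eq, ch_ht]
  have t0 : Tsq.ht (BinaryTree.nil : BinaryTree Unit) = 0 := rfl
  have hsR := h.sq
  have hpn : ∀ P A C : BinaryTree Unit, app P (A △ C) ≠ .nil := fun P A C => H1.app_ne (by simp)
  simp only [List.mem_cons, Prod.mk.injEq, List.not_mem_nil, or_false] at hij
  rcases hij with ⟨rfl, rfl⟩ | ⟨rfl, rfl⟩ | ⟨rfl, rfl⟩ | ⟨rfl, rfl⟩ | ⟨rfl, rfl⟩ | ⟨rfl, rfl⟩
  · -- `R((Q))R2 -> B((Q))R2 S`
    have e := vX_eq h w0 (i := 0) (by norm_num)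
    have e' := vX_eq h w0 (i := 10) (by norm_num)
    apply Tsq.TT_eq
    · rw [e]; exact hpn _ _ _
    · rw [e, e']
      have hs := Tsq.sq_app R ((ch (q + 1) △ BinaryTree.nil) △ R2) hR (by
        rw [Tsq.ht_node, Tsq.ht_node]; omega)
      change app B ((ch (q + 1) △ BinaryTree.nil) △ app R2 S) =
        app (Tsq.sq (app R ((ch (q + 1) △ BinaryTree.nil) △ R2))).2
          (Tsq.sq (app R ((ch (q + 1) △ BinaryTree.nil) △ R2))).1
      rw [hs, hsR]
      change _ = app (app B ((ch (q + 1) △ BinaryTree.nil) △ R2)) S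
      rw [Tsq.app_assoc]
      rfl
  · -- `R()Q()R2 -> B()Q()R2 S`
    have e := vX_eq h w0 (i := 1) (by norm_num)
    have e' := vX_eq h w0 (i := 11) (by norm_num)
    apply Tsq.TT_eq
    · rw [e]; exact hpn _ _ _
    · rw [e, e']
      have hs := Tsq.sq_app R (.nil △ app (ch (q + 1)) (.nil △ R2)) hR (by
        rw [Tsq.ht_node, Tsq.ht_app, Tsq.ht_node]; omega)
      change app B (.nil △ app (ch (q + 1)) (.nil △ app R2 S)) =
        app (Tsq.sq (app R (.nil △ app (ch (q + 1)) (.nil △ R2)))).2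
          (Tsq.sq (app R (.nil △ app (ch (q + 1)) (.nil △ R2)))).1
      rw [hs, hsR]
      change _ = app (app B (.nil △ app (ch (q + 1)) (.nil △ R2))) S
      rw [Tsq.app_assoc]
      change _ = app B (.nil △ app (app (ch (q + 1)) (.nil △ R2)) S)
      rw [Tsq.app_assoc]
      rfl
  · -- `R2(R()Q) -> (R2 S)B()Q`
    have e := vX_eq h w0 (i := 3) (by norm_num)
    have e' := vX_eq h w0 (i := 12) (by norm_num)
    apply Tsq.TT_eq
    · rw [e]; exact hpn _ _ _
    · rw [e, e']
      have hs := Tsq.sq_app R (.nil △ ch (q + 1)) hR (by rw [Tsq.ht_node]; omega)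
      have hs2 := Tsq.sq_wrap (R := app R (.nil △ ch (q + 1))) (Z := .nil) (hpn _ _ _) (by
        rw [t0]; omega)
      have hs3 := Tsq.sq_pre R2 (app R (.nil △ ch (q + 1)) △ .nil) (by
        rw [Tsq.ht_node, Tsq.ht_app, Tsq.ht_node]; omega)
      rw [hs2, hs, hsR] at hs3
      change app R2 S △ app B (.nil △ ch (q + 1)) =
        app (Tsq.sq (app R2 (app R (.nil △ ch (q + 1)) △ .nil))).2
          (Tsq.sq (app R2 (app R (.nil △ ch (q + 1)) △ .nil))).1
      rw [hs3]
      rfl
  · -- `R2(R)(Q) -> (Q)(R2 S)B`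
    have e := vX_eq h w0 (i := 6) (by norm_num)
    have e' := vX_eq h w0 (i := 15) (by norm_num)
    apply Tsq.TT_eq
    · rw [e]; exact hpn _ _ _
    · rw [e, e']
      have hs2 := Tsq.sq_wrap (R := R) (Z := ch (q + 1) △ .nil) hR (by rw [Tsq.ht_node]; omega)
      have hs3 := Tsq.sq_pre R2 (R △ (ch (q + 1) △ .nil)) (by rw [Tsq.ht_node]; omega)
      rw [hs2, hsR] at hs3
      change ch (q + 1) △ (app R2 S △ B) =
        app (Tsq.sq (app R2 (R △ (ch (q + 1) △ .nil)))).2
          (Tsq.sq (app R2 (R △ (ch (q + 1) △ .nil)))).1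
      rw [hs3]
      rfl
  · -- `Q()R2(R) -> (Q()R2 S)B`
    have e := vX_eq h w0 (i := 8) (by norm_num)
    have e' := vX_eq h w0 (i := 14) (by norm_num)
    apply Tsq.TT_eq
    · rw [e]; exact hpn _ _ _
    · rw [e, e']
      have hs2 := Tsq.sq_wrap (R := R) (Z := .nil) hR (by rw [t0]; omega)
      have hs3 := Tsq.sq_pre (app (ch (q + 1)) (.nil △ R2)) (R △ .nil) (by
        rw [Tsq.ht_app, Tsq.ht_node, Tsq.ht_node]; omega)
      rw [hs2, hsR, Tsq.app_assoc] at hs3
      change app (ch (q + 1)) (.nil △ app R2 S) △ B =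
        app (Tsq.sq (app (ch (q + 1)) (.nil △ app R2 (R △ .nil)))).2
          (Tsq.sq (app (ch (q + 1)) (.nil △ app R2 (R △ .nil)))).1
      have hs4 : Tsq.sq (app (ch (q + 1)) (.nil △ app R2 (R △ .nil))) =
          (Tsq.pre (app (ch (q + 1)) (.nil △ R2)) (S △ B), .nil) := hs3
      rw [hs4]
      change _ = app (app (ch (q + 1)) (.nil △ R2)) S △ B
      rw [Tsq.app_assoc]
      rfl
  · -- `(R2(R))Q -> Q((R2 S)B)`
    have e := vX_eq h w0 (i := 9) (by norm_num)
    have e' := vX_eq h w0 (i := 17) (by norm_num)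
    apply Tsq.TT_eq
    · rw [e]; exact (by simp [V])
    · rw [e, e']
      have hs2 := Tsq.sq_wrap (R := R) (Z := .nil) hR (by rw [t0]; omega)
      have hs3 := Tsq.sq_pre R2 (R △ .nil) (by rw [Tsq.ht_node]; omega)
      rw [hs2, hsR] at hs3
      have hs4 := Tsq.sq_wrap (R := app R2 (R △ .nil)) (Z := ch (q + 1)) (hpn _ _ _) (by
        rw [Tsq.ht_app, Tsq.ht_node]; omega)
      rw [hs3] at hs4
      change app (ch (q + 1)) ((app R2 S △ B) △ .nil) =
        app (Tsq.sq (app R2 (R △ .nil) △ ch (q + 1))).2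
          (Tsq.sq (app R2 (R △ .nil) △ ch (q + 1))).1
      rw [hs4]
      rfl

theorem NodeI.same10 (h : NodeI k q R R2 B S) (w0 : X k) :
    TT.SameCycle (vX R R2 B S q w0 0) (vX R R2 B S q w0 10) := by
  have h1 := h.link w0 (i := 0) (j := 10) (by simp)
  refine ⟨2, ?_⟩
  rw [show (2 : ℤ) = ((2 : ℕ) : ℤ) from rfl, zpow_natCast, pow_two, Perm.mul_apply, h1]

end I0

end Pool.OddHC
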