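import Pool.Agent.Work.MP_8f87b2_h88.I0
import Pool.Agent.Work.MP_8f87b2_h60.A0

/-!
MP_8f87b2_co: INTERIOR WINDOWS of a bead free `T`-cycle, part 2: the ten words `blk Q X Y i` of a block, `X`, `Y`
heavy, `Y` not empty, `X` may be empty: `blk_inj`: equal words have the same index, the same `X` and the same `Y`.
Hence the twenty words `V` are different.
-/

set_option autoImplicit false

namespace Pool.OddHC

open Finset Equiv BinaryTree Multiset Pool.Agent.Work.MP_8f87b2_co

namespace I0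

/-- the ten words of a block -/
def blk (Q X Y : BinaryTree Unit) : ℕ → BinaryTree Unit
  | 0 => app X ((Q △ .nil) △ Y)
  | 1 => app X (.nil △ app Q (.nil △ Y))
  | 2 => Y △ app X (.nil △ Q)
  | 3 => app Y (app X (.nil △ Q) △ .nil)
  | 4 => app Q (.nil △ Y) △ X
  | 5 => Q △ (Y △ X)
  | 6 => app Y (X △ (Q △ .nil))
  | 7 => app Q ((Y △ X) △ .nil)
  | 8 => app Q (.nil △ app Y (X △ .nil))
  | _ => app Y (X △ .nil) △ Q

/-- `V` = two blocks -/
theorem V_blk (R Q R2 B S : BinaryTree Unit) {i : ℕ} (hi : i < 20) : V R Q R2 B S i =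
    if i < 10 then blk Q R R2 i else blk Q B (app R2 S) (i - 10) := by
  interval_cases i <;> rfl

/-- the class of a word -/
def kapI (e : Bool) : ℕ → ℕ
  | 0 => 0
  | 1 => 1
  | 2 => 2
  | 3 => if e then 3 else 2
  | 4 => 2
  | 5 => 4
  | 6 => if e then 3 else 4
  | 7 => 5
  | 8 => if e then 1 else 2
  | _ => if e then 2 else 5

/-- the code of a profile (class, light solitons in the first and in the last component) -/
def dcI (κ a b : ℕ) : ℕ :=
  if κ = 0 then 0
  else if κ = 1 then (if b = 0 then 1 else 8)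
  else if κ = 2 then (if a = 2 then 4 else if b = 2 then 3 else if a = 0 then 2 else if b = 0 then 8 else 9)
  else if κ = 3 then (if b = 2 then 3 else 6)
  else if κ = 4 then (if a = 1 then 5 else 6)
  else (if a = 1 then 7 else 9)

variable {d : ℕ} {X Y X' Y' : BinaryTree Unit}

/-- the content of a word: small class and heavy part -/
theorem cont_blk (hX : Hv d X) (hY : Hv d Y) (Y0 : Y ≠ .nil) {e : Bool} (he : e = true ↔ X = .nil)
    {i : ℕ} (hi : i < 10) :
    ∃ H, cont (blk (pc (d + 1)) X Y i) = smc d (kapI e i) + H ∧ ∀ x ∈ H, d + 3 ≤ x := by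
  obtain ⟨x, hx⟩ : ∃ x, x = cont X := ⟨_, rfl⟩
  obtain ⟨y, hy⟩ : ∃ y, y = cont Y := ⟨_, rfl⟩
  have y0 : y ≠ 0 := by rw [hy]; exact cont_ne Y0
  have xh : ∀ z ∈ x, d + 3 ≤ z := by rw [hx]; exact hX
  have yh : ∀ z ∈ y, d + 3 ≤ z := by rw [hy]; exact hY
  have x0 : e = true ↔ x = 0 := by rw [he, hx, cont_eq_zero]
  have l1 : ∀ x ∈ ({1} : Multiset ℕ), x < d + 3 := lt_single (by omega)
  have lq1 : ∀ x ∈ ({d + 1} + {1} : Multiset ℕ), x < d + 3 := lt_pair (by omega) (by omega)
  have Yh := raise_hv yh y0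
  have both : ∀ {A C : Multiset ℕ}, (∀ z ∈ A, d + 3 ≤ z) → (∀ z ∈ C, d + 3 ≤ z) →
      ∀ z ∈ A + C, d + 3 ≤ z := by
    intro A C hA hC z hz
    rw [Multiset.mem_add] at hz
    exact hz.elim (hA z) (hC z)
  have xne : e = false → x ≠ 0 := by
    intro g g1
    rw [x0.2 g1] at g
    exact absurd g (by simp)
  have Xh : e = false → ∀ z ∈ raise x, d + 3 ≤ z := fun g => raise_hv xh (xne g)
  have hq := cont_pc d
  have eq1 : raise {d + 1} = {d + 2} := raise_single _
  have eq2 : raise {d + 2} = {d + 3} := raise_single _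
  have hz := raise_zero
  interval_cases i <;> simp only [kapI, smc, blk, cont_node, cont_app, cont_nil, hq, eq1, eq2, hz,
    ← hx, ← hy, add_zero]
  · refine ⟨x + ({d + 3} + y), by abel, both xh (both ?_ yh)⟩
    intro z hz
    rw [Multiset.mem_singleton] at hz
    omega
  · exact ⟨x + y, by abel, both xh yh⟩
  · exact ⟨raise y + x, by abel, both Yh xh⟩
  · cases e with
    | true =>
      refine ⟨y, ?_, yh⟩
      rw [x0.1 rfl, zero_add, add_comm {1}, raise_two]
      simp only [if_true]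
      abel
    | false =>
      refine ⟨y + raise x, ?_, both yh (Xh rfl)⟩
      rw [add_comm {1}, add_comm x, raise_add lq1 xh (xne rfl)]
      simp only [Bool.false_eq_true, if_false]
      abel
  · refine ⟨raise y + x, ?_, both Yh xh⟩
    rw [← add_assoc {d + 1}, raise_add lq1 yh y0]
    abel
  · exact ⟨raise y + x, by abel, both Yh xh⟩
  · cases e with
    | true =>
      refine ⟨y, ?_, yh⟩
      rw [x0.1 rfl, raise_zero]
      simp only [if_true]
      abel
    | false =>
      refine ⟨y + raise x, ?_, both yh (Xh rfl)⟩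
      simp only [Bool.false_eq_true, if_false]
      abel
  · refine ⟨raise (raise y + x), by abel, raise_hv (both Yh xh) ?_⟩
    intro g
    exact raise_ne_zero y (add_eq_zero.1 g).1
  · cases e with
    | true =>
      refine ⟨y, ?_, yh⟩
      rw [x0.1 rfl, raise_zero]
      simp only [if_true]
      abel
    | false =>
      refine ⟨y + raise x, ?_, both yh (Xh rfl)⟩
      simp only [Bool.false_eq_true, if_false]
      abel
  · cases e with
    | true =>
      refine ⟨raise y, ?_, Yh⟩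
      rw [x0.1 rfl, raise_zero, add_comm y, raise_add l1 yh y0]
      simp only [if_true]
      abel
    | false =>
      refine ⟨raise (y + raise x), ?_, raise_hv (both yh (Xh rfl)) ?_⟩
      · simp only [Bool.false_eq_true, if_false]
        abel
      · intro g
        exact y0 (add_eq_zero.1 g).1

/-- the profile of a word -/
theorem prof_blk (hX : Hv d X) (hY : Hv d Y) (Y0 : Y ≠ .nil) {e : Bool} (he : e = true ↔ X = .nil)
    {i : ℕ} (hi : i < 10) : dcI (kapI e i) (lo d (fs (blk (pc (d + 1)) X Y i)))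
      (lo d (ls (blk (pc (d + 1)) X Y i))) = i := by
  have ld := lo_pc (d := d) (e := d) (by omega)
  have ld1 := lo_pc (d := d) (e := d + 1) (by omega)
  have hX0 : e = false → X ≠ .nil := by
    intro g g1
    rw [he.2 g1] at g
    exact absurd g (by simp)
  interval_cases i
  · rfl
  · simp only [blk, app_pc, ls_app _ (nn' _ _), ls_node _ (nn' _ _), ls_node _ Y0, hY.ls Y0, kapI]
    rfl
  · have e1 : ls (Y △ app X (.nil △ pc (d + 1))) = pc d := by
      rw [ls_node _ (app_ne' (nn' _ _)), ls_app _ (nn' _ _),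
        ls_node _ (by rw [pc_succ]; exact nn' _ _), pc_succ, ls_single]
    simp only [blk, e1, fs_node, lo_hv hY Y0, ld, kapI]
    rfl
  · simp only [blk, ls_app _ (nn' _ _), ls_single, fs_app Y0, hY.fs Y0, kapI]
    cases e with
    | true =>
      rw [he.1 rfl, app, lo_nq]
      rfl
    | false =>
      rw [lo_snq hX (hX0 rfl)]
      rfl
  · simp only [blk, app_pc, fs_node, lo_qn hY, kapI]
    rfl
  · simp only [blk, fs_node, ld1, kapI]
    rfl
  · simp only [blk, fs_app Y0, hY.fs Y0, ls_app _ (nn' _ _), ls_node _ (nn' _ _), ls_single, ld1, kapI]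
    cases e <;> rfl
  · simp only [blk, app_pc, fs_node, ld, kapI]
    rfl
  · have e1 : ls (app (pc (d + 1)) (.nil △ app Y (X △ .nil))) = X := by
      rw [ls_app _ (nn' _ _), ls_node _ (app_ne' (nn' _ _)), ls_app _ (nn' _ _), ls_single]
    simp only [blk, e1]
    simp only [app_pc, fs_node, ld, kapI]
    cases e with
    | true =>
      rw [he.1 rfl, lo_nil]
      rfl
    | false =>
      rw [lo_hv hX (hX0 rfl)]
      rfl
  · have e1 : ls (app Y (X △ .nil) △ pc (d + 1)) = pc d := by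
      rw [ls_node _ (by rw [pc_succ]; exact nn' _ _), pc_succ, ls_single]
    simp only [blk, e1, fs_node, ld, kapI]
    cases e with
    | true =>
      rw [he.1 rfl, lo_rn hY Y0]
      rfl
    | false =>
      rw [lo_hv (hY.app (hX.node (hX0 rfl) (Hv.nil d))) (app_ne' (nn' _ _))]
      rfl

theorem kapI_le (e : Bool) (i : ℕ) : kapI e i ≤ 5 := by
  unfold kapI
  split <;> (try split) <;> omega

/-- equal words: same index -/
theorem blk_idx (hX : Hv d X) (hY : Hv d Y) (Y0 : Y ≠ .nil) (hX' : Hv d X') (hY' : Hv d Y')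
    (Y0' : Y' ≠ .nil) {i j : ℕ} (hi : i < 10) (hj : j < 10)
    (heq : blk (pc (d + 1)) X Y i = blk (pc (d + 1)) X' Y' j) : i = j := by
  obtain ⟨e, he⟩ : ∃ e : Bool, e = true ↔ X = .nil := by
    by_cases g : X = .nil
    · exact ⟨true, by simp [g]⟩
    · exact ⟨false, by simp [g]⟩
  obtain ⟨e', he'⟩ : ∃ e : Bool, e = true ↔ X' = .nil := by
    by_cases g : X' = .nil
    · exact ⟨true, by simp [g]⟩
    · exact ⟨false, by simp [g]⟩
  obtain ⟨H, c1, c2⟩ := cont_blk hX hY Y0 he hi
  obtain ⟨H', c1', c2'⟩ := cont_blk hX' hY' Y0' he' hj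
  have k1 : kapI e i = kapI e' j := by
    apply smc_inj (kapI_le _ _) (kapI_le _ _)
    rw [← filter_lo (smc_lt d (kapI_le e i)) c2, ← c1, heq, c1',
      filter_lo (smc_lt d (kapI_le e' j)) c2']
  have p1 := prof_blk hX hY Y0 he hi
  have p2 := prof_blk hX' hY' Y0' he' hj
  rw [heq, k1, p2] at p1
  exact p1.symm

/-- all solitons of size larger than `q + 3` -/
theorem hv_of {q : ℕ} {t : BinaryTree Unit} (h : ∀ x ∈ OddHC.cont t, q + 3 < x) : Hv q t :=
  fun x hx => (h x hx).le

/-- **equal words of blocks: the same index and the same data** -/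
theorem blk_inj {q : ℕ} (hX : ∀ x ∈ OddHC.cont X, q + 3 < x) (hY : ∀ x ∈ OddHC.cont Y, q + 3 < x)
    (Y0 : Y ≠ .nil) (hX' : ∀ x ∈ OddHC.cont X', q + 3 < x) (hY' : ∀ x ∈ OddHC.cont Y', q + 3 < x)
    (Y0' : Y' ≠ .nil) {i j : ℕ} (hi : i < 10) (hj : j < 10)
    (heq : blk (pc (q + 1)) X Y i = blk (pc (q + 1)) X' Y' j) : i = j ∧ X = X' ∧ Y = Y' := by
  have hij := blk_idx (hv_of hX) (hv_of hY) Y0 (hv_of hX') (hv_of hY') Y0' hi hj heq
  subst hij
  refine ⟨rfl, ?_⟩
  have nd : ∀ {A C A' C' : BinaryTree Unit}, A △ C = A' △ C' → A = A' ∧ C = C' :=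
    fun h => ⟨congrArg fs h, congrArg tl h⟩
  have g1 : lo q .nil ≠ 0 := by
    rw [lo_nil]
    omega
  have g2 : lo (q + 1) (pc (q + 1) △ .nil) ≠ 0 := by
    change lo (q + 1) (pc (q + 2)) ≠ 0
    rw [lo_pc (by omega)]
    omega
  have hX1 : Hv (q + 1) X := fun x hx => hX x hx
  have hX1' : Hv (q + 1) X' := fun x hx => hX' x hx
  interval_cases i <;> simp only [blk] at heq
  · obtain ⟨a1, _, a2⟩ := hv_split g2 g2 hX1 hX1' heq
    exact ⟨a1, a2⟩
  · obtain ⟨a1, _, a2⟩ := hv_split g1 g1 (hv_of hX) (hv_of hX') heq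
    exact ⟨a1, (nd (app_cancel_left _ a2)).2⟩
  · obtain ⟨a1, a2⟩ := nd heq
    exact ⟨app_cancel_right _ a2, a1⟩
  · obtain ⟨a1, a2⟩ := app_snoc heq
    exact ⟨app_cancel_right _ a2, a1⟩
  · obtain ⟨a1, a2⟩ := nd heq
    exact ⟨a2, (nd (app_cancel_left _ a1)).2⟩
  · obtain ⟨a1, a2⟩ := nd (nd heq).2
    exact ⟨a2, a1⟩
  · have a0 : app (app Y (X △ .nil)) (pc (q + 1) △ .nil) =
        app (app Y' (X' △ .nil)) (pc (q + 1) △ .nil) := by
      rw [app_assoc', app_assoc']
      exact heq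
    obtain ⟨a1, a2⟩ := app_snoc (app_cancel_right _ a0)
    exact ⟨a2, a1⟩
  · obtain ⟨a1, a2⟩ := nd (nd (app_cancel_left _ heq)).1
    exact ⟨a2, a1⟩
  · obtain ⟨a1, a2⟩ := app_snoc (nd (app_cancel_left _ heq)).2
    exact ⟨a2, a1⟩
  · obtain ⟨a1, a2⟩ := app_snoc (nd heq).1
    exact ⟨a2, a1⟩

end I0

end Pool.OddHC
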