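import Pool.Agent.Work.MP_8f87b2_h58.InA0A0
import Pool.Agent.Work.MP_8f87b2_h88.Kids

/-!
MP_8f87b2_co: INNER WORDS of right END windows, the case of a unique smallest part. `inner_U`: window of `z = R[q + 3]`, all
parts of `R` larger than `q + 3`, `1 ≤ q`, against the words of any END window. `inner_V`: a window with `q + 3` a part of
`R` against the words of a window with a unique smallest part.
-/

set_option autoImplicit false

namespace Pool.OddHC

open Finset Equiv BinaryTree Multiset Pool.Agent.Work.MP_8f87b2_co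

namespace I0

open H1 (FM hg ch ch_eq ch_ht ch_cont wX wX_eq wX_link wd_ch hg_FM hg_of_cont)

variable {k : ℕ} {q q' g : ℕ} {R B S R' B' S' : BinaryTree Unit}

/-! ### Runs at both ends -/

/-- starts with `1^g`, ends with `0^g` -/
structure RunP (g : ℕ) (t : BinaryTree Unit) : Prop where
  sta : ∃ r, wd t = List.replicate g true ++ r
  en : ∃ r, wd t = r ++ List.replicate g false

theorem RunP.start {t : BinaryTree Unit} (h : RunP g t) {n : ℕ} {v : List Bool}
    (e : wd t = List.replicate n true ++ false :: v) : g ≤ n := by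
  by_contra hn
  push Not at hn
  obtain ⟨r, hr⟩ := h.sta
  obtain ⟨m, rfl⟩ : ∃ m, g = n + (m + 1) := ⟨g - n - 1, by omega⟩
  rw [e, List.replicate_add, List.replicate_succ, List.append_assoc] at hr
  have := List.append_cancel_left hr
  simp at this

theorem RunP.stop {t : BinaryTree Unit} (h : RunP g t) {n : ℕ} {v : List Bool}
    (e : wd t = v ++ true :: List.replicate n false) : g ≤ n := by
  by_contra hn
  push Not at hn
  obtain ⟨r, hr⟩ := h.en
  obtain ⟨m, rfl⟩ : ∃ m, g = (m + 1) + n := ⟨g - n - 1, by omega⟩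
  have h1 : (v ++ [true]) ++ List.replicate n false =
      (r ++ List.replicate m false ++ [false]) ++ List.replicate n false := by
    have h2 : wd t = (v ++ [true]) ++ List.replicate n false := by rw [e]; simp
    rw [← h2, hr, List.replicate_add, List.replicate_succ']
    simp
  have h3 := List.append_inj_right' (List.append_cancel_right h1) rfl
  simp at h3

theorem RunP.start_ch {t Y : BinaryTree Unit} (h : RunP g t) {n : ℕ} (hn : 1 ≤ n) (e : t = app (ch n) Y) :
    g ≤ n := by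
  obtain ⟨m, rfl⟩ : ∃ m, n = m + 1 := ⟨n - 1, by omega⟩
  exact h.start (v := List.replicate m false ++ wd Y) (by
    rw [e, wd_app, wd_ch, List.replicate_succ (a := false)]
    simp)

theorem RunP.stop_ch {t Y : BinaryTree Unit} (h : RunP g t) {n : ℕ} (hn : 1 ≤ n) (e : t = app Y (ch n)) :
    g ≤ n := by
  obtain ⟨m, rfl⟩ : ∃ m, n = m + 1 := ⟨n - 1, by omega⟩
  exact h.stop (v := wd Y ++ List.replicate m true) (by
    rw [e, wd_app, wd_ch, List.replicate_succ' (a := true)]
    simp)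

/-- the bounds for the words of a window -/
theorem rp_W {j : ℕ} (hj : j < 20) (h : RunP g (H1.W R (ch (q + 1)) B S j)) :
    (j = 0 → g ≤ q + 3) ∧ (j = 1 ∨ j = 2 ∨ (j = 18 ∧ B = .nil) → g ≤ 1) ∧
      (j = 7 ∨ j = 8 ∨ j = 9 ∨ j = 12 ∨ j = 17 ∨ j = 18 ∨ j = 19 → g ≤ q + 1) ∧
      (j = 3 ∨ j = 4 ∨ j = 5 ∨ j = 6 ∨ j = 13 ∨ j = 14 ∨ j = 15 ∨ j = 16 → g ≤ q + 2) := by
  have en : ∀ (v : List Bool), wd (H1.W R (ch (q + 1)) B S j) = v ++ wd (ch (q + 1)) ++ [false] →
      g ≤ q + 2 := by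
    intro v hv
    apply h.stop (n := q + 2) (v := v ++ List.replicate q true)
    rw [hv, wd_ch, List.replicate_succ' (a := true), List.replicate_succ' (n := q + 1)]
    simp
  have st : ∀ (v : List Bool), wd (H1.W R (ch (q + 1)) B S j) = true :: (wd (ch (q + 1)) ++ v) →
      g ≤ q + 2 := by
    intro v hv
    apply h.start (n := q + 2) (v := List.replicate q false ++ v)
    rw [hv, wd_ch, List.replicate_succ (n := q) (a := false), List.replicate_succ (n := q + 1)]
    simp
  have f : ∀ {p : Prop} {n : ℕ}, (¬ p) → (p → g ≤ n) := fun hp h => absurd h hp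
  interval_cases j
  · exact ⟨fun _ => h.stop_ch (n := q + 3) (by omega) (Y := R) rfl, f (by omega), f (by omega),
      f (by omega)⟩
  · refine ⟨f (by omega), fun _ => ?_, f (by omega), f (by omega)⟩
    apply h.stop_ch (n := 1) (by omega) (Y := app R (.nil △ ch (q + 1)))
    rw [app_assoc']
    rfl
  · exact ⟨f (by omega), fun _ => h.start_ch (n := 1) (by omega) rfl, f (by omega), f (by omega)⟩
  · refine ⟨f (by omega), f (by omega), f (by omega), fun _ => en (true :: (wd R ++ [true, false])) ?_⟩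
    simp [H1.W, wd_app, wd_node, wd]
  · refine ⟨f (by omega), f (by omega), f (by omega), fun _ => st ([true, false] ++ false :: wd R) ?_⟩
    simp [H1.W, wd_app, wd_node, wd]
  · exact ⟨f (by omega), f (by omega), f (by omega),
      fun _ => h.start_ch (n := q + 2) (by omega) (Y := .nil △ R) rfl⟩
  · exact ⟨f (by omega), f (by omega), f (by omega),
      fun _ => h.stop_ch (n := q + 2) (by omega) (Y := R △ .nil) rfl⟩
  · exact ⟨f (by omega), f (by omega), fun _ => h.start_ch (n := q + 1) (by omega) rfl, f (by omega)⟩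
  · exact ⟨f (by omega), f (by omega), fun _ => h.start_ch (n := q + 1) (by omega) rfl, f (by omega)⟩
  · exact ⟨f (by omega), f (by omega),
      fun _ => h.stop_ch (n := q + 1) (by omega) (Y := (R △ .nil) △ .nil) rfl, f (by omega)⟩
  · exact ⟨f (by omega), f (by omega), f (by omega), f (by omega)⟩
  · exact ⟨f (by omega), f (by omega), f (by omega), f (by omega)⟩
  · refine ⟨f (by omega), f (by omega), fun _ => ?_, f (by omega)⟩
    apply h.stop_ch (n := q + 1) (by omega) (Y := S △ app B (.nil △ .nil))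
    change S △ app B (.nil △ ch (q + 1)) = S △ app (app B (.nil △ .nil)) (ch (q + 1))
    rw [app_assoc']
    rfl
  · refine ⟨f (by omega), f (by omega), f (by omega),
      fun _ => en (wd S ++ true :: (wd B ++ [true, false])) ?_⟩
    simp [H1.W, wd_app, wd_node, wd]
  · refine ⟨f (by omega), f (by omega), f (by omega),
      fun _ => st ([true, false] ++ wd S ++ false :: wd B) ?_⟩
    simp [H1.W, wd_app, wd_node, wd]
  · exact ⟨f (by omega), f (by omega), f (by omega),
      fun _ => h.start_ch (n := q + 2) (by omega) (Y := S △ B) rfl⟩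
  · refine ⟨f (by omega), f (by omega), f (by omega),
      fun _ => h.stop_ch (n := q + 2) (by omega) (Y := app S (B △ .nil)) ?_⟩
    rw [app_assoc']
    rfl
  · exact ⟨f (by omega), f (by omega), fun _ => h.start_ch (n := q + 1) (by omega) rfl, f (by omega)⟩
  · refine ⟨f (by omega), ?_, fun _ => h.start_ch (n := q + 1) (by omega) rfl, f (by omega)⟩
    rintro (h1 | h1 | ⟨_, rfl⟩)
    · omega
    · omega
    · apply h.stop_ch (n := 1) (by omega) (Y := app (ch (q + 1)) (.nil △ S))
      change app (ch (q + 1)) (.nil △ app S (.nil △ .nil)) = app (app (ch (q + 1)) (.nil △ S)) (ch 1)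
      rw [app_assoc']
      rfl
  · exact ⟨f (by omega), f (by omega),
      fun _ => h.stop_ch (n := q + 1) (by omega) (Y := app S (B △ .nil) △ .nil) rfl, f (by omega)⟩

/-- before the first maximum -/
def UpA (g : ℕ) (a : List Bool) : Prop :=
  a = List.replicate (g - 1) true ∨ ∃ a', a = a' ++ List.replicate g true

theorem UpA.cons {a : List Bool} (hg : 1 ≤ g) (h : UpA g a) : ∃ a', true :: a = a' ++ List.replicate g true := by
  rcases h with rfl | ⟨a', rfl⟩
  · obtain ⟨n, rfl⟩ : ∃ n, g = n + 1 := ⟨g - 1, by omega⟩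
    exact ⟨[], by rw [Nat.add_sub_cancel, List.replicate_succ]; rfl⟩
  · exact ⟨true :: a', rfl⟩

/-- the first maximum of a word with all parts at least `g` -/
theorem fm_hg (hg2 : 2 ≤ g) (hp : ∀ x ∈ OddHC.cont R, g ≤ x) (R0 : R ≠ .nil) :
    ∃ a b, FM R a b ∧ UpA g a ∧ ∃ b', b = List.replicate g false ++ b' := by
  have h := hg_of_cont hg2 hp
  obtain ⟨h0, a, b, h1, h2, ⟨v, h3, _⟩⟩ := hg_FM (by omega) h R0
  refine ⟨a, b, h1, ?_, v, h3⟩
  rcases Nat.eq_or_lt_of_le h0 with h4 | h4
  · obtain ⟨v', hv⟩ := H1.FM_low (by omega) h R0 h4.symm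
    exact Or.inl (h1.uniq hv).1
  · obtain ⟨a', b', h5⟩ := H1.hg_FMT (by omega) h h4
    obtain ⟨rfl, rfl⟩ := h1.uniq h5.fm
    right
    rcases h5.up with h6 | ⟨a', h6⟩ | ⟨a', h6⟩
    · exact ⟨[], by rw [h6]; rfl⟩
    · exact ⟨a' ++ [true], by rw [h6, List.replicate_succ]; simp⟩
    · exact ⟨a' ++ List.replicate g false, by rw [h6, List.append_assoc]⟩

/-- the linked words of a window: the first maximum -/
theorem FM_W {a b : List Bool} (hg1 : 1 ≤ g) (h : FM R a b) (ha : UpA g a)
    (hb : ∃ b', b = List.replicate g false ++ b') (hq : q + 3 ≤ Tsq.ht R) : ∀ i ∈ [0, 1, 3, 6, 8, 9],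
    ∃ a b, FM (H1.W R (ch (q + 1)) B S i) a b ∧ UpA g a ∧
      ∃ b', b = List.replicate g false ++ b' := by
  intro i hi
  have hn : Tsq.ht (.nil : BinaryTree Unit) = 0 := rfl
  have hc : ∀ n, Tsq.ht (ch n) = n := fun n => by rw [H1.ht_eq, ch_ht]
  obtain ⟨b', rfl⟩ := hb
  have k1 : ∀ {Z : BinaryTree Unit}, Tsq.ht Z ≤ Tsq.ht R →
      FM (app R Z) a (List.replicate g false ++ (b' ++ wd Z)) := by
    intro Z hZ
    rw [← List.append_assoc]
    exact h.app_right hZ
  have k2 : ∀ {A Z : BinaryTree Unit} {a b : List Bool},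
      FM A a (List.replicate g false ++ b) → Tsq.ht Z ≤ Tsq.ht A + 1 →
      FM (A △ Z) (true :: a) (List.replicate g false ++ (b ++ false :: wd Z)) := by
    intro A Z a b h hZ
    rw [← List.append_assoc]
    exact h.node hZ
  have u1 : UpA g (true :: a) := Or.inr (ha.cons hg1)
  simp only [List.mem_cons, List.not_mem_nil, or_false] at hi
  rcases hi with rfl | rfl | rfl | rfl | rfl | rfl
  · exact ⟨_, _, k1 (Z := ch (q + 3)) (by rw [hc]; exact hq), ha, _, rfl⟩
  · exact ⟨_, _, k1 (Z := .nil △ app (ch (q + 1)) (.nil △ .nil)) (by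
      rw [Tsq.ht_node, Tsq.ht_app, Tsq.ht_node, hc, hn]; omega), ha, _, rfl⟩
  · exact ⟨_, _, k2 (k1 (Z := .nil △ ch (q + 1)) (by
      rw [Tsq.ht_node, hc, hn]; omega)) (Z := .nil) (by rw [hn]; omega), u1, _, rfl⟩
  · exact ⟨_, _, k2 h (Z := ch (q + 2)) (by rw [hc]; omega), u1, _, rfl⟩
  · have k3 := (k2 h (Z := .nil) (by rw [hn]; omega)).app_left
      (P := app (ch (q + 1)) (.nil △ .nil)) (by
        rw [Tsq.ht_node, Tsq.ht_app, Tsq.ht_node, hc, hn]; omega)
    have e : H1.W R (ch (q + 1)) B S 8 = app (app (ch (q + 1)) (.nil △ .nil)) (R △ .nil) := by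
      rw [app_assoc']; rfl
    rw [e]
    obtain ⟨a', h5⟩ := ha.cons hg1
    exact ⟨_, _, k3, Or.inr ⟨_, by rw [h5, ← List.append_assoc]⟩, _, rfl⟩
  · exact ⟨_, _, k2 (k2 h (Z := .nil) (by rw [hn]; omega)) (Z := ch (q + 1)) (by
      rw [Tsq.ht_node, hc, hn]; omega), Or.inr (UpA.cons hg1 u1), _, rfl⟩

/-- **runs of the inner words** -/
theorem run_in (hD : H1.Dat q R B S) (hk : R.numNodes + q + 3 = k) {g : ℕ} (hg2 : 2 ≤ g)
    (hp : ∀ x ∈ OddHC.cont R, g ≤ x) (w0 : X k) {i : ℕ} (hi : i ∈ [0, 1, 3, 6, 8, 9]) :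
    RunP g (TT (wX R B S q w0 i)).1 := by
  have hi' : i < 20 := by
    simp only [List.mem_cons, List.not_mem_nil, or_false] at hi
    omega
  obtain ⟨a, b, h1, h2, h3⟩ := fm_hg hg2 hp hD.ne
  obtain ⟨a2, b2, h4, h5, b3, h6⟩ := FM_W (q := q) (B := B) (S := S) (g := g) (by omega) h1 h2 h3 (by
    rw [H1.ht_eq]
    exact hD.big) i hi
  rw [← wX_eq hD hk w0 hi'] at h4
  have e := h4.wdT
  rw [h6] at e
  constructor
  · exact ⟨b3.map not ++ false :: a2.map not, by rw [e]; simp⟩
  · rcases h5 with h5 | ⟨a', h5⟩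
    · obtain ⟨n, rfl⟩ : ∃ n, g = n + 1 := ⟨g - 1, by omega⟩
      refine ⟨(List.replicate (n + 1) false ++ b3).map not, ?_⟩
      rw [e, h5, Nat.add_sub_cancel, List.map_replicate, List.replicate_succ (n := n) (a := false)]
      rfl
    · refine ⟨(List.replicate g false ++ b3).map not ++ false :: a'.map not, ?_⟩
      rw [e, h5]
      simp

/-! ### Contents -/

/-- class of a word of a window -/
def kapW (e : Bool) (i : ℕ) : ℕ := if i < 10 then kapF i else kapI e (i - 10)

theorem kapW_le (e : Bool) (i : ℕ) : kapW e i ≤ 5 := by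
  unfold kapW
  split_ifs
  · exact kapF_le i
  · exact kapI_le e _

/-- content of a word of a window -/
theorem contW {m : ℕ} (hm : q + 3 ≤ m) (hs : Tsq.sq R = (S, B)) (R0 : R ≠ .nil)
    (hR : ∀ x ∈ OddHC.cont R, m ≤ x) {e : Bool} (he : e = true ↔ B = .nil) {i : ℕ} (hi : i < 20) :
    ∃ H, OddHC.cont (H1.W R (ch (q + 1)) B S i) = smU q (kapW e i) + H ∧ ∀ x ∈ H, m ≤ x := by
  obtain ⟨hB, hS⟩ := part_sq hs R0 hR
  rw [ch_eq]
  unfold kapW
  rcases Nat.lt_or_ge i 10 with h1 | h1
  · rw [W_blk1 _ _ _ _ h1, if_pos h1]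
    exact cont_blkFG hm hR R0 h1
  · rw [W_blk2 _ _ _ _ hi h1, if_neg (by omega)]
    exact cont_blkG hm hB hS (sq_ne R0 hs) he (by omega)

theorem kapW_5 : ∀ j < 20, ∀ e : Bool, kapW e j = 5 → j = 9 ∨ j = 17 ∨ j = 19 := by
  decide

theorem kapW_0 : ∀ j < 20, ∀ e : Bool, kapW e j = 0 → j = 0 ∨ j = 10 := by
  decide

theorem cont_T (x : X k) : OddHC.cont (TT x).1 = OddHC.cont x.1 := by
  rw [TT_apply, cont_TF]

theorem cnt_lt {M : Multiset ℕ} {m x : ℕ} (h : ∀ y ∈ M, m ≤ y) (hx : x < m) : M.count x = 0 := by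
  rw [Multiset.count_eq_zero]
  intro h1
  have := h x h1
  omega

/-- content of the words 0 and 10 -/
theorem cont_0_10 (hD : H1.Dat q R B S) (hk : R.numNodes + q + 3 = k) (w0 : X k) {j : ℕ}
    (hj : j = 0 ∨ j = 10) : OddHC.cont (wX R B S q w0 j).1 = OddHC.cont R + {q + 3} := by
  rcases hj with rfl | rfl
  · exact H1.wX_cont0 hD hk w0
  · have h := wX_link hD hk w0 (i := 0) (j := 10) (by simp)
    rw [← h, cont_T, cont_T]
    exact H1.wX_cont0 hD hk w0

/-- the classes of the linked words -/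
theorem kap_in {i : ℕ} (hi : i ∈ [0, 1, 3, 6, 8, 9]) (e : Bool) : i < 20 ∧
    ((i = 0 ∧ kapW e i = 0) ∨ (i = 1 ∧ kapW e i = 1) ∨ (i = 3 ∧ kapW e i = 2) ∨ (i = 6 ∧ kapW e i = 4) ∨
      (i = 8 ∧ kapW e i = 2) ∨ (i = 9 ∧ kapW e i = 5)) := by
  simp only [List.mem_cons, List.not_mem_nil, or_false] at hi
  rcases hi with rfl | rfl | rfl | rfl | rfl | rfl <;> simp [kapW, kapF]

/-- **INNER WORDS of a window with a unique smallest part**, `q ≥ 1`, against any window -/
theorem inner_U (hq : 1 ≤ q) (hD : H1.Dat q R B S) (hk : R.numNodes + q + 3 = k)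
    (hp : ∀ x ∈ OddHC.cont R, q + 3 < x) (hD' : H1.Dat q' R' B' S') (hk' : R'.numNodes + q' + 3 = k)
    (hp' : ∀ x ∈ OddHC.cont R', q' + 3 ≤ x) (w0 w0' : X k) {i j : ℕ} (hi : i ∈ [0, 1, 3, 6, 8, 9])
    (hj : j < 20) (hij : i ≠ 0 ∨ (j ≠ 0 ∧ j ≠ 10)) :
    TT (wX R B S q w0 i) ≠ wX R' B' S' q' w0' j := by
  intro e
  obtain ⟨eb, he⟩ := exB B
  obtain ⟨eb', he'⟩ := exB B'
  obtain ⟨hi', hκ⟩ := kap_in hi eb
  have hrun := run_in hD hk (g := q + 4) (by omega) hp w0 hi
  rw [e, wX_eq hD' hk' w0' hj] at hrun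
  obtain ⟨r0, r1, r2, r3⟩ := rp_W hj hrun
  obtain ⟨H, c1, c2⟩ := contW (q := q) (m := q + 4) (by omega) hD.sq hD.ne hp he hi'
  obtain ⟨H', c1', c2'⟩ := contW (q := q') (m := q' + 3) le_rfl hD'.sq hD'.ne hp' he' hj
  have hE : smU q (kapW eb i) + H = smU q' (kapW eb' j) + H' := by
    rw [← c1, ← c1', ← wX_eq hD hk w0 hi', ← wX_eq hD' hk' w0' hj, ← e, cont_T]
  by_cases j10 : j = 10
  · subst j10
    have i0 : i ≠ 0 := hij.resolve_right (fun h => h.2 rfl)
    have hl := wX_link hD' hk' w0' (i := 0) (j := 10) (by simp)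
    rw [← hl] at e
    have e2 := TT.injective e
    have hE2 : smU q (kapW eb i) + H = OddHC.cont R' + {q' + 3} := by
      rw [← c1, ← wX_eq hD hk w0 hi', e2, cont_T]
      exact H1.wX_cont0 hD' hk' w0'
    have hc : ∀ x, (smU q (kapW eb i)).count x + H.count x =
        (OddHC.cont R').count x + ({q' + 3} : Multiset ℕ).count x := by
      intro x
      rw [← Multiset.count_add, ← Multiset.count_add, hE2]
    have d1 := hc 1
    have d2 := hc (q + 1)
    have d3 := hc (q + 2)
    have d4 := hc (q' + 3)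
    rw [cnt_lt c2 (by omega), cnt_lt hp' (by omega), Multiset.count_singleton, if_neg (by omega),
      cntU _ _ _ (kapW_le _ _), if_pos rfl, if_neg (by omega), if_neg (by omega), if_neg (by omega)] at d1
    rw [Multiset.count_singleton_self, cntU _ _ _ (kapW_le _ _), if_neg (by omega)] at d4
    rw [cntU _ _ _ (kapW_le _ _), if_neg (by omega), if_pos rfl, if_neg (by omega), if_neg (by omega),
      cnt_lt c2 (by omega)] at d2
    rw [cntU _ _ _ (kapW_le _ _), if_neg (by omega), if_neg (by omega), if_pos rfl, if_neg (by omega),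
      cnt_lt c2 (by omega)] at d3
    rcases hκ with ⟨h1, _⟩ | ⟨_, h2⟩ | ⟨_, h2⟩ | ⟨h1, h2⟩ | ⟨_, h2⟩ | ⟨h1, h2⟩
    · exact i0 h1
    · rw [h2] at d1
      simp [k1] at d1
    · rw [h2] at d1
      simp [k1] at d1
    · -- `i = 6`
      rw [h2] at d3 d4
      simp only [ka, kb, kc] at d3 d4
      have hle : q' + 3 ≤ q + 2 := by
        by_contra hlt
        have z3 : (OddHC.cont R').count (q + 2) = 0 := cnt_lt hp' (by omega)
        have z4 : ({q' + 3} : Multiset ℕ).count (q + 2) = 0 := by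
          rw [Multiset.count_singleton, if_neg (by omega)]
        omega
      rw [cnt_lt c2 (by omega)] at d4
      have hq3 : q' + 3 = q + 2 := by
        by_contra hne
        rw [if_neg hne] at d4
        simp at d4
      rw [if_pos hq3] at d4
      have hu : ∀ x ∈ OddHC.cont R', q' + 4 ≤ x := by
        intro x hx
        have h3 := hp' x hx
        have h4 : x ≠ q' + 3 := by
          rintro rfl
          have := Multiset.count_pos.2 hx
          split_ifs at d4 <;> omega
        omega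
      have hr := run_in hD' hk' (g := q' + 4) (by omega) hu w0' (i := 0) (by simp)
      rw [← e2, wX_eq hD hk w0 hi'] at hr
      have := (rp_W hi' hr).2.2.2 (by omega)
      omega
    · rw [h2] at d1
      simp [k1] at d1
    · -- `i = 9`
      rw [h2] at d2 d4
      simp only [ka, kb, kc] at d2 d4
      have hle : q' + 3 ≤ q + 1 := by
        by_contra hlt
        have z3 : (OddHC.cont R').count (q + 1) = 0 := cnt_lt hp' (by omega)
        have z4 : ({q' + 3} : Multiset ℕ).count (q + 1) = 0 := by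
          rw [Multiset.count_singleton, if_neg (by omega)]
        omega
      rw [cnt_lt c2 (by omega)] at d4
      have hq3 : q' + 3 = q + 1 := by
        by_contra hne
        rw [if_neg hne] at d4
        simp at d4
      rw [if_pos hq3] at d4
      have hu : ∀ x ∈ OddHC.cont R', q' + 4 ≤ x := by
        intro x hx
        have h3 := hp' x hx
        have h4 : x ≠ q' + 3 := by
          rintro rfl
          have := Multiset.count_pos.2 hx
          split_ifs at d4 <;> omega
        omega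
      have hr := run_in hD' hk' (g := q' + 4) (by omega) hu w0' (i := 0) (by simp)
      rw [← e2, wX_eq hD hk w0 hi'] at hr
      have := (rp_W hi' hr).2.2.1 (by omega)
      omega
  · by_cases j11 : j = 11
    · subst j11
      have hl := wX_link hD' hk' w0' (i := 1) (j := 11) (by simp)
      rw [← hl] at e
      have e2 := TT.injective e
      have d1 := congrArg (Multiset.count 1) hE
      rw [Multiset.count_add, Multiset.count_add, cntU _ _ _ (kapW_le _ _), if_pos rfl,
        if_neg (by omega), if_neg (by omega), if_neg (by omega), cnt_lt c2 (by omega),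
        cntU _ _ _ (kapW_le _ _), if_pos rfl] at d1
      have h3 : kapW eb' 11 = 1 := rfl
      rw [h3] at d1
      simp only [k1] at d1
      rcases hκ with ⟨h1, h2⟩ | ⟨h1, h2⟩ | ⟨h1, h2⟩ | ⟨h1, h2⟩ | ⟨h1, h2⟩ | ⟨h1, h2⟩
      · rw [h2] at d1; simp only [k1] at d1; omega
      · have hr := run_in hD' hk' (g := q' + 3) (by omega) hp' w0' (i := 1) (by simp)
        rw [← e2, wX_eq hD hk w0 hi'] at hr
        have := (rp_W hi' hr).2.1 (by omega)
        omega
      · rw [h2] at d1; simp only [k1] at d1; omega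
      · rw [h2] at d1; simp only [k1] at d1; omega
      · rw [h2] at d1; simp only [k1] at d1; omega
      · rw [h2] at d1; simp only [k1] at d1; omega
    · have hqq : q < q' := by
        have : j = 0 ∨ (j = 1 ∨ j = 2) ∨ (j = 7 ∨ j = 8 ∨ j = 9 ∨ j = 12 ∨ j = 17 ∨ j = 18 ∨ j = 19) ∨
          (j = 3 ∨ j = 4 ∨ j = 5 ∨ j = 6 ∨ j = 13 ∨ j = 14 ∨ j = 15 ∨ j = 16) := by omega
        rcases this with h | h | h | h
        · have := r0 h; omega
        · have := r1 (by omega); omega
        · have := r2 h; omega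
        · have := r3 h; omega
      rcases sepU hq hqq (kapW_le _ _) (kapW_le _ _) c2 c2' hE with ⟨h1, h2⟩ | ⟨h1, h2, h3⟩
      · have j0 : j = 0 := by
          by_contra j0
          have : (j = 1 ∨ j = 2) ∨ (j = 7 ∨ j = 8 ∨ j = 9 ∨ j = 12 ∨ j = 17 ∨ j = 18 ∨ j = 19) ∨
            (j = 3 ∨ j = 4 ∨ j = 5 ∨ j = 6 ∨ j = 13 ∨ j = 14 ∨ j = 15 ∨ j = 16) := by omega
          rcases this with h | h | h
          · have := r1 (by omega); omega
          · have := r2 h; omega
          · have := r3 h; omega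
        subst j0
        have h3 : kapW eb' 0 = 0 := rfl
        rw [h3] at h2
        omega
      · have := r2 (by have := kapW_5 j hj eb' h3; omega)
        omega

theorem kapW_mid : ∀ j < 20, ∀ e : Bool, j = 0 ∨ j = 10 ∨ j = 11 ∨ j = 1 ∨ j = 2 ∨ (j = 18 ∧ e = true) ∨
    kapW e j = 2 ∨ kapW e j = 3 ∨ kapW e j = 4 ∨ kapW e j = 5 := by
  decide

/-- the counts of the middle words -/
theorem mid_arith {q q' κ κ' c : ℕ} (hc : 1 ≤ c) (hr : q + 3 ≤ q' + 2)
    (hκ : κ = 1 ∨ κ = 2 ∨ κ = 4 ∨ κ = 5) (hκ' : κ' = 2 ∨ κ' = 3 ∨ κ' = 4 ∨ κ' = 5)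
    (g3 : c = (if q + 3 = q' + 1 then ka κ' else 0) + (if q + 3 = q' + 2 then kb κ' else 0))
    (d1 : k1 κ + (if 1 = q + 1 then ka κ else 0) = k1 κ')
    (d2 : (if q + 1 = 1 then k1 κ else 0) + ka κ =
      (if q + 1 = 1 then k1 κ' else 0) + (if q + 1 = q' + 1 then ka κ' else 0))
    (d3 : kb κ = (if q + 2 = q' + 1 then ka κ' else 0) + (if q + 2 = q' + 2 then kb κ' else 0)) :
    q = 0 ∧ κ = 5 ∧ ((q' = 2 ∧ kb κ' = 0) ∨ (q' = 1 ∧ ka κ' = 0)) := by
  have e1 : k1 1 = 2 ∧ k1 2 = 1 ∧ k1 3 = 1 ∧ k1 4 = 0 ∧ k1 5 = 0 := ⟨rfl, rfl, rfl, rfl, rfl⟩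
  have e2 : ka 1 = 1 ∧ ka 2 = 1 ∧ ka 3 = 0 ∧ ka 4 = 0 ∧ ka 5 = 1 := ⟨rfl, rfl, rfl, rfl, rfl⟩
  have e3 : kb 1 = 0 ∧ kb 2 = 0 ∧ kb 3 = 1 ∧ kb 4 = 1 ∧ kb 5 = 0 := ⟨rfl, rfl, rfl, rfl, rfl⟩
  have c1 : q = 0 ∨ 1 ≤ q := by omega
  have c2 : q' = q + 1 ∨ q' = q + 2 ∨ q + 3 ≤ q' := by omega
  rw [if_neg (show ¬ q + 1 = q' + 1 by omega)] at d2
  rw [if_neg (show ¬ q + 2 = q' + 2 by omega)] at d3
  rcases c1 with rfl | c1
  · rw [if_pos rfl] at d1
    rw [if_pos rfl, if_pos rfl] at d2
    rcases c2 with rfl | rfl | c2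
    · rw [if_neg (by omega), if_pos rfl] at g3
      rw [if_pos rfl] at d3
      rcases hκ with rfl | rfl | rfl | rfl <;> rcases hκ' with rfl | rfl | rfl | rfl <;> omega
    · rw [if_pos rfl, if_neg (by omega)] at g3
      rw [if_neg (by omega)] at d3
      rcases hκ with rfl | rfl | rfl | rfl <;> rcases hκ' with rfl | rfl | rfl | rfl <;> omega
    · rw [if_neg (by omega), if_neg (by omega)] at g3
      omega
  · rw [if_neg (by omega)] at d1
    rw [if_neg (by omega), if_neg (by omega)] at d2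
    rcases c2 with rfl | rfl | c2
    · rw [if_neg (by omega), if_pos rfl] at g3
      rw [if_pos rfl] at d3
      rcases hκ with rfl | rfl | rfl | rfl <;> rcases hκ' with rfl | rfl | rfl | rfl <;> omega
    · rw [if_pos rfl, if_neg (by omega)] at g3
      rw [if_neg (by omega)] at d3
      rcases hκ with rfl | rfl | rfl | rfl <;> rcases hκ' with rfl | rfl | rfl | rfl <;> omega
    · rw [if_neg (by omega), if_neg (by omega)] at g3
      omega

/-- beads of the words of a window are at height at most 1 -/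
theorem vb_W (hD : H1.Dat q R B S) (h : ∀ x ∈ OddHC.cont R, 3 ≤ x) {j : ℕ} (hj : j < 20) :
    H1.vb 1 (H1.W R (ch (q + 1)) B S j) := by
  obtain ⟨hB, hS⟩ := part_sq hD.sq hD.ne h
  have nR : H1.nb R := H1.nb_hv (H1.hv_of_cont h)
  have nB : H1.nb B := H1.nb_hv (H1.hv_of_cont hB)
  have nS : H1.nb S := H1.nb_hv (H1.hv_of_cont hS)
  have nQ : H1.nb (ch (q + 1)) := H1.nb_ch _
  have nQ2 : H1.nb (ch (q + 2)) := H1.nb_ch _
  have nQ3 : H1.nb (ch (q + 3)) := H1.nb_ch _
  have n0 := H1.nb_nil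
  have bd : H1.vb 0 (.nil △ .nil : BinaryTree Unit) := H1.vb_tower n0 (n0.vb 0)
  interval_cases j
  · exact H1.vb_app (nR.vb 1) (nQ3.vb 1)
  · exact H1.vb_app (nR.vb 1) (H1.vb_tower n0 (H1.vb_app (nQ.vb 1) (H1.vb_mono bd (by omega))))
  · exact H1.vb_tower n0 (H1.vb_app (nR.vb 1) (H1.vb_tower n0 (nQ.vb 1)))
  · exact H1.vb_node (H1.vb_app (nR.vb 0) (H1.vb_tower n0 (nQ.vb 0))) (n0.vb 1)
  · exact H1.vb_node (H1.vb_app (nQ.vb 0) bd) (nR.vb 1)
  · exact H1.vb_tower nQ (H1.vb_tower n0 (nR.vb 1))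
  · exact H1.vb_tower nR (nQ2.vb 1)
  · exact H1.vb_app (nQ.vb 1) (H1.vb_node (H1.vb_tower n0 (nR.vb 0)) (n0.vb 1))
  · exact H1.vb_app (nQ.vb 1) (H1.vb_tower n0 (H1.vb_tower nR (n0.vb 1)))
  · exact H1.vb_node (H1.vb_tower nR (n0.vb 0)) (nQ.vb 1)
  · exact H1.vb_app (nB.vb 1) (H1.vb_tower nQ2 (nS.vb 1))
  · exact H1.vb_app (nB.vb 1) (H1.vb_tower n0 (H1.vb_app (nQ.vb 1) (H1.vb_tower n0 (nS.vb 1))))
  · exact H1.vb_tower nS (H1.vb_app (nB.vb 1) (H1.vb_tower n0 (nQ.vb 1)))
  · exact H1.vb_app (nS.vb 1) (H1.vb_node (H1.vb_app (nB.vb 0) (H1.vb_tower n0 (nQ.vb 0))) (n0.vb 1))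
  · exact H1.vb_node (H1.vb_app (nQ.vb 0) (H1.vb_tower n0 (nS.vb 0))) (nB.vb 1)
  · exact H1.vb_tower nQ (H1.vb_tower nS (nB.vb 1))
  · exact H1.vb_app (nS.vb 1) (H1.vb_tower nB (nQ2.vb 1))
  · exact H1.vb_app (nQ.vb 1) (H1.vb_node (H1.vb_tower nS (nB.vb 0)) (n0.vb 1))
  · exact H1.vb_app (nQ.vb 1) (H1.vb_tower n0 (H1.vb_app (nS.vb 1) (H1.vb_tower nB (n0.vb 1))))
  · exact H1.vb_node (H1.vb_app (nS.vb 0) (H1.vb_tower nB (n0.vb 0))) (nQ.vb 1)

/-- **INNER WORDS of a window with `q + 3` a part of `R`** against a window with a unique smallest part, `1 ≤ q'` -/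
theorem inner_V (h : HM.NodeM k q R B S) (hm : q + 3 ∈ OddHC.cont R) (hq' : 1 ≤ q')
    (hD' : H1.Dat q' R' B' S') (hk' : R'.numNodes + q' + 3 = k)
    (hp' : ∀ x ∈ OddHC.cont R', q' + 3 < x) (w0 w0' : X k) {i j : ℕ} (hi : i ∈ [0, 1, 3, 6, 8, 9])
    (hj : j < 20) (hij : i ≠ 0 ∨ (j ≠ 0 ∧ j ≠ 10)) :
    TT (wX R B S q w0 i) ≠ wX R' B' S' q' w0' j := by
  intro e
  have hD := h.dat
  have hk := h.size
  have hp : ∀ x ∈ OddHC.cont R, q + 3 ≤ x := h.part
  obtain ⟨eb, he⟩ := exB B
  obtain ⟨eb', he'⟩ := exB B'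
  obtain ⟨hi', hκ⟩ := kap_in hi eb
  have hrun := run_in hD hk (g := q + 3) (by omega) hp w0 hi
  rw [e, wX_eq hD' hk' w0' hj] at hrun
  obtain ⟨r0, r1, r2, r3⟩ := rp_W hj hrun
  obtain ⟨H, c1, c2⟩ := contW (q := q) (m := q + 3) le_rfl hD.sq hD.ne hp he hi'
  obtain ⟨H', c1', c2'⟩ := contW (q := q') (m := q' + 4) (by omega) hD'.sq hD'.ne hp' he' hj
  have hE0 : OddHC.cont (H1.W R (ch (q + 1)) B S i) = OddHC.cont (H1.W R' (ch (q' + 1)) B' S' j) := by
    rw [← wX_eq hD hk w0 hi', ← wX_eq hD' hk' w0' hj, ← e, cont_T]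
  have hE : smU q (kapW eb i) + H = smU q' (kapW eb' j) + H' := by
    rw [← c1, ← c1', hE0]
  have hc : ∀ x, (smU q (kapW eb i)).count x + H.count x =
      (smU q' (kapW eb' j)).count x + H'.count x := by
    intro x
    rw [← Multiset.count_add, ← Multiset.count_add, hE]
  by_cases j10 : j = 10
  · subst j10
    have i0 : i ≠ 0 := hij.resolve_right (fun h => h.2 rfl)
    have hl := wX_link hD' hk' w0' (i := 0) (j := 10) (by simp)
    rw [← hl] at e
    have e2 := TT.injective e
    have hr := run_in hD' hk' (g := q' + 4) (by omega) hp' w0' (i := 0) (by simp)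
    rw [← e2, wX_eq hD hk w0 hi'] at hr
    obtain ⟨s0, s1, s2, s3⟩ := rp_W hi' hr
    have hE2 : smU q (kapW eb i) + H = OddHC.cont R' + {q' + 3} := by
      rw [← c1, ← wX_eq hD hk w0 hi', e2, cont_T]
      exact H1.wX_cont0 hD' hk' w0'
    have hc2 : ∀ x, (smU q (kapW eb i)).count x + H.count x =
        (OddHC.cont R').count x + ({q' + 3} : Multiset ℕ).count x := by
      intro x
      rw [← Multiset.count_add, ← Multiset.count_add, hE2]
    have d1 := hc2 1
    have d4 := hc2 (q' + 3)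
    rw [cnt_lt c2 (by omega), cnt_lt hp' (by omega), Multiset.count_singleton, if_neg (by omega),
      cntU _ _ _ (kapW_le _ _), if_pos rfl] at d1
    rw [Multiset.count_singleton_self, cntU _ _ _ (kapW_le _ _), if_neg (by omega)] at d4
    rcases hκ with ⟨h1, _⟩ | ⟨_, h2⟩ | ⟨_, h2⟩ | ⟨h1, h2⟩ | ⟨_, h2⟩ | ⟨h1, h2⟩
    · exact i0 h1
    · rw [h2] at d1
      simp only [k1] at d1
      omega
    · rw [h2] at d1
      simp only [k1] at d1
      omega
    · have t3 := s3 (by omega)
      rw [h2, cnt_lt c2 (by omega)] at d4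
      simp only [ka, kb, kc] at d4
      split_ifs at d4 <;> omega
    · rw [h2] at d1
      simp only [k1] at d1
      omega
    · have t2 := s2 (by omega)
      rw [h2, cnt_lt c2 (by omega)] at d4
      simp only [ka, kb, kc] at d4
      split_ifs at d4 <;> omega
  · by_cases j11 : j = 11
    · subst j11
      have hl := wX_link hD' hk' w0' (i := 1) (j := 11) (by simp)
      rw [← hl] at e
      have e2 := TT.injective e
      have hr := run_in hD' hk' (g := q' + 4) (by omega) hp' w0' (i := 1) (by simp)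
      rw [← e2, wX_eq hD hk w0 hi'] at hr
      obtain ⟨s0, s1, s2, s3⟩ := rp_W hi' hr
      have d1 := hc 1
      have h3 : kapW eb' 11 = 1 := rfl
      rw [cntU _ _ _ (kapW_le _ _), if_pos rfl, cnt_lt c2 (by omega), cntU _ _ _ (kapW_le _ _),
        if_pos rfl, h3] at d1
      rcases hκ with ⟨h1, h2⟩ | ⟨h1, h2⟩ | ⟨h1, h2⟩ | ⟨h1, h2⟩ | ⟨h1, h2⟩ | ⟨h1, h2⟩
      · rw [h2] at d1
        simp only [k1, ka, kb, kc] at d1
        split_ifs at d1 <;> omega
      · have := s1 (by omega)
        omega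
      · have := s3 (by omega)
        rw [h2] at d1
        simp only [k1, ka, kb, kc] at d1
        split_ifs at d1 <;> omega
      · rw [h2] at d1
        simp only [k1, ka, kb, kc] at d1
        split_ifs at d1 <;> omega
      · have := s2 (by omega)
        rw [h2] at d1
        simp only [k1, ka, kb, kc] at d1
        split_ifs at d1 <;> omega
      · have := s2 (by omega)
        rw [h2] at d1
        simp only [k1, ka, kb, kc] at d1
        split_ifs at d1 <;> omega
    · have hg : 1 ≤ (OddHC.cont (H1.W R (ch (q + 1)) B S i)).count (q + 3) :=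
        le_trans (Nat.succ_le_of_lt (Multiset.count_pos.2 hm))
          (H1.count_W (R := R) (B := B) (S := S) (q := q) h.top i hi)
      have g3 := hc (q + 3)
      rw [← Multiset.count_add, ← c1] at g3
      by_cases j0 : j = 0
      · subst j0
        have i0 : i ≠ 0 := hij.resolve_right (fun h => h.1 rfl)
        have hr0 := r0 rfl
        have h3 : kapW eb' 0 = 0 := rfl
        have d1 := hc 1
        have d2 := hc (q + 1)
        have d3 := hc (q + 2)
        rw [cntU _ _ _ (kapW_le _ _), if_pos rfl, cnt_lt c2' (by omega), cntU _ _ _ (kapW_le _ _),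
          if_pos rfl, h3, cnt_lt c2 (by omega)] at d1
        rw [cntU _ _ _ (kapW_le _ _), if_pos (rfl : q + 1 = q + 1), cnt_lt c2' (by omega),
          cntU _ _ _ (kapW_le _ _), h3, cnt_lt c2 (by omega)] at d2
        rw [cntU _ _ _ (kapW_le _ _), if_pos (rfl : q + 2 = q + 2), cnt_lt c2' (by omega),
          cntU _ _ _ (kapW_le _ _), h3, cnt_lt c2 (by omega)] at d3
        simp only [k1, ka, kb, kc] at d1 d2 d3
        rcases hκ with ⟨h1, h2⟩ | ⟨h1, h2⟩ | ⟨h1, h2⟩ | ⟨h1, h2⟩ | ⟨h1, h2⟩ | ⟨h1, h2⟩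
        · exact i0 h1
        · rw [h2] at d1
          simp only [k1] at d1
          split_ifs at d1 <;> omega
        · rw [h2] at d1
          simp only [k1] at d1
          split_ifs at d1 <;> omega
        · rw [h2] at d3
          simp only [kb] at d3
          split_ifs at d3 <;> omega
        · rw [h2] at d1
          simp only [k1] at d1
          split_ifs at d1 <;> omega
        · rw [h2] at d2
          simp only [ka] at d2
          split_ifs at d2 <;> omega
      · have hn : j ≠ 1 ∧ j ≠ 2 ∧ (j = 18 → eb' = false) := by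
          refine ⟨?_, ?_, ?_⟩
          · rintro rfl
            have := r1 (by omega)
            omega
          · rintro rfl
            have := r1 (by omega)
            omega
          · rintro rfl
            by_contra hb
            have := r1 (Or.inr (Or.inr ⟨rfl, he'.1 (by simpa using hb)⟩))
            omega
        have hκ' : kapW eb' j = 2 ∨ kapW eb' j = 3 ∨ kapW eb' j = 4 ∨ kapW eb' j = 5 := by
          rcases kapW_mid j hj eb' with h1 | h1 | h1 | h1 | h1 | ⟨h1, h2⟩ | h1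
          · exact absurd h1 j0
          · exact absurd h1 j10
          · exact absurd h1 j11
          · exact absurd h1 hn.1
          · exact absurd h1 hn.2.1
          · rw [hn.2.2 h1] at h2
            simp at h2
          · exact h1
        have hrr : q + 3 ≤ q' + 2 := by
          have : (j = 7 ∨ j = 8 ∨ j = 9 ∨ j = 12 ∨ j = 17 ∨ j = 18 ∨ j = 19) ∨
            (j = 3 ∨ j = 4 ∨ j = 5 ∨ j = 6 ∨ j = 13 ∨ j = 14 ∨ j = 15 ∨ j = 16) := by omega
          rcases this with h | h
          · have := r2 h; omega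
          · exact r3 h
        rw [cnt_lt c2' (by omega), cntU _ _ _ (kapW_le _ _), if_neg (by omega),
          if_neg (show ¬ q + 3 = q' + 3 by omega)] at g3
        by_cases i0 : i = 0
        · subst i0
          have h5 : 2 ≤ (OddHC.cont (H1.W R (ch (q + 1)) B S 0)).count (q + 3) := by
            have h6 : OddHC.cont (H1.W R (ch (q + 1)) B S 0) = OddHC.cont R + {q + 3} := by
              rw [← wX_eq hD hk w0 (by omega)]
              exact H1.wX_cont0 hD hk w0
            rw [h6, Multiset.count_add, Multiset.count_singleton_self]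
            have := Multiset.count_pos.2 hm
            omega
          rcases hκ' with h2 | h2 | h2 | h2 <;> rw [h2] at g3 <;> simp only [ka, kb] at g3 <;>
            split_ifs at g3 <;> omega
        · have d1 := hc 1
          rw [cntU _ _ _ (kapW_le _ _), if_pos rfl, cnt_lt c2' (by omega), cntU _ _ _ (kapW_le _ _),
            if_pos rfl, cnt_lt c2 (by omega), if_neg (show ¬ 1 = q + 2 by omega),
            if_neg (show ¬ 1 = q + 3 by omega), if_neg (show ¬ 1 = q' + 1 by omega),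
            if_neg (show ¬ 1 = q' + 2 by omega), if_neg (show ¬ 1 = q' + 3 by omega)] at d1
          have d2 := hc (q + 1)
          rw [cntU _ _ _ (kapW_le _ _), if_pos (rfl : q + 1 = q + 1), cnt_lt c2' (by omega),
            cntU _ _ _ (kapW_le _ _), cnt_lt c2 (by omega), if_neg (show ¬ q + 1 = q + 2 by omega),
            if_neg (show ¬ q + 1 = q + 3 by omega), if_neg (show ¬ q + 1 = q' + 2 by omega),
            if_neg (show ¬ q + 1 = q' + 3 by omega)] at d2
          have d3 := hc (q + 2)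
          rw [cntU _ _ _ (kapW_le _ _), if_pos (rfl : q + 2 = q + 2), cnt_lt c2' (by omega),
            cntU _ _ _ (kapW_le _ _), cnt_lt c2 (by omega), if_neg (show ¬ q + 2 = 1 by omega),
            if_neg (show ¬ q + 2 = q + 1 by omega), if_neg (show ¬ q + 2 = q + 3 by omega),
            if_neg (show ¬ q + 2 = 1 by omega), if_neg (show ¬ q + 2 = q' + 3 by omega)] at d3
          have hκ2 : kapW eb i = 1 ∨ kapW eb i = 2 ∨ kapW eb i = 4 ∨ kapW eb i = 5 := by omega
          obtain ⟨q0, h5, h6⟩ := mid_arith (c := (OddHC.cont (H1.W R (ch (q + 1)) B S i)).count (q + 3))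
            hg hrr hκ2 hκ' (by omega) (by omega) (by omega) (by omega)
          have i9 : i = 9 := by omega
          subst q0 i9
          have hs := (h.sml w0 (i := 9) (by simp)).1
          rw [e, wX_eq hD' hk' w0' hj] at hs
          rcases hs with ⟨p, hp1, hp2, hp3⟩ | hs
          · have hpc : 1 ≤ (OddHC.cont (H1.W R' (ch (q' + 1)) B' S' j)).count p := Multiset.count_pos.2 hp1
            obtain rfl : p = 2 := by omega
            rw [c1', Multiset.count_add, cnt_lt c2' (by omega), cntU _ _ _ (kapW_le _ _)] at hpc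
            split_ifs at hpc <;> omega
          · exact (vb_W hD' (fun x hx => by have := hp' x hx; omega) hj).not_hb hs

end I0

end Pool.OddHC
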