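import Pool.Agent.Work.MP_8f87b2_h88.I1
import Pool.Agent.Work.MP_8f87b2_h60.TyA0

/-!
MP_8f87b2_co: INTERIOR WINDOWS of a bead free `T`-cycle, part 3: the gadgets.

`NodeI k q R R2 B S`: `z = R ((Q)) R2`, `Q = [q + 1]`, all solitons of `R`, `R2` larger than `q + 3`, `R2` not empty,
`ht R2 ≤ ht R`, `(S, B) = sq R`. `TyI0 F g`: the window of `z`; `TyI0M F g`: its mirror image (of `mir z`).
`hF, new, old, abs, rank, path`; `NodeI.disj`: two interior windows with the same `q` with a common word belong to the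
same `T`-cycle.
-/

set_option autoImplicit false

namespace Pool.OddHC

open Finset Equiv BinaryTree Multiset Pool.Agent.Work.MP_8f87b2_co

variable {k : ℕ}

namespace I0

open H1 (ch ch_num ch_eq Lower)

variable {q q' : ℕ} {R R2 B S R' R2' B' S' : BinaryTree Unit}

theorem NodeI.part2S (h : NodeI k q R R2 B S) : ∀ x ∈ OddHC.cont (app R2 S), q + 3 < x := by
  intro x hx
  rw [cont_app, Multiset.mem_add] at hx
  exact hx.elim (h.part2 x) (h.partS x)

theorem NodeI.ne2S (h : NodeI k q R R2 B S) : app R2 S ≠ .nil := app_ne' h.neS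

theorem NodeI.word (h : NodeI k q R R2 B S) (w0 : X k) {i : ℕ} (hi : i < 20) :
    (vX R R2 B S q w0 i).1 = if i < 10 then blk (pc (q + 1)) R R2 i else
      blk (pc (q + 1)) B (app R2 S) (i - 10) := by
  rw [vX_eq h w0 hi, V_blk _ _ _ _ _ hi, ch_eq]

theorem NodeI.word1 (h : NodeI k q R R2 B S) (w0 : X k) {i : ℕ} (hi : i < 10) :
    (vX R R2 B S q w0 i).1 = blk (pc (q + 1)) R R2 i := by
  rw [h.word w0 (by omega), if_pos hi]

theorem NodeI.word2 (h : NodeI k q R R2 B S) (w0 : X k) {i : ℕ} (hi : i < 20) (h10 : 10 ≤ i) :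
    (vX R R2 B S q w0 i).1 = blk (pc (q + 1)) B (app R2 S) (i - 10) := by
  rw [h.word w0 hi, if_neg (by omega)]

/-- the twenty words are different -/
theorem NodeI.inj (h : NodeI k q R R2 B S) (w0 : X k) : ∀ i < 20, ∀ j < 20,
    vX R R2 B S q w0 i = vX R R2 B S q w0 j → i = j := by
  have key : ∀ i < 10, ∀ j, 10 ≤ j → j < 20 → vX R R2 B S q w0 i ≠ vX R R2 B S q w0 j := by
    intro i hi j hj hj' e
    have e1 := congrArg Subtype.val e
    rw [h.word1 w0 hi, h.word2 w0 hj' hj] at e1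
    obtain ⟨_, _, e2⟩ := blk_inj h.part h.part2 h.ne2 h.partB h.part2S h.ne2S hi (by omega) e1
    have e3 := congrArg BinaryTree.numNodes e2
    rw [num_app] at e3
    have e4 : S.numNodes = 0 := by omega
    apply h.neS
    cases S with
    | nil => rfl
    | node _ A C =>
      change A.numNodes + C.numNodes + 1 = 0 at e4
      omega
  intro i hi j hj e
  rcases Nat.lt_or_ge i 10 with h1 | h1 <;> rcases Nat.lt_or_ge j 10 with h2 | h2
  · have e1 := congrArg Subtype.val e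
    rw [h.word1 w0 h1, h.word1 w0 h2] at e1
    exact (blk_inj h.part h.part2 h.ne2 h.part h.part2 h.ne2 h1 h2 e1).1
  · exact absurd e (key i h1 j h2 hj)
  · exact absurd e.symm (key j h2 i h1 hi)
  · have e1 := congrArg Subtype.val e
    rw [h.word2 w0 hi h1, h.word2 w0 hj h2] at e1
    have := (blk_inj h.partB h.part2S h.ne2S h.partB h.part2S h.ne2S (by omega) (by omega) e1).1
    omega

/-- **a common word of two interior windows with the same `q`: the same index mod 10 and the same `T`-cycle** -/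
theorem NodeI.disj (h : NodeI k q R R2 B S) (h' : NodeI k q R' R2' B' S') (w0 w0' : X k) {i j : ℕ}
    (hi : i < 20) (hj : j < 20) (e : vX R R2 B S q w0 i = vX R' R2' B' S' q w0' j) :
    i % 10 = j % 10 ∧ TT.SameCycle (vX R R2 B S q w0 0) (vX R' R2' B' S' q w0' 0) := by
  have e1 := congrArg Subtype.val e
  have s1 := h.same10 w0
  have s2 := h'.same10 w0'
  rcases Nat.lt_or_ge i 10 with h1 | h1 <;> rcases Nat.lt_or_ge j 10 with h2 | h2
  · rw [h.word1 w0 h1, h'.word1 w0' h2] at e1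
    obtain ⟨a1, a2, a3⟩ := blk_inj h.part h.part2 h.ne2 h'.part h'.part2 h'.ne2 h1 h2 e1
    refine ⟨by omega, ?_⟩
    have : vX R R2 B S q w0 0 = vX R' R2' B' S' q w0' 0 := by
      apply Subtype.ext
      rw [h.word1 w0 (by norm_num), h'.word1 w0' (by norm_num), a2, a3]
    rw [this]
  · rw [h.word1 w0 h1, h'.word2 w0' hj h2] at e1
    obtain ⟨a1, a2, a3⟩ := blk_inj h.part h.part2 h.ne2 h'.partB h'.part2S h'.ne2S h1 (by omega) e1
    refine ⟨by omega, ?_⟩
    have : vX R R2 B S q w0 0 = vX R' R2' B' S' q w0' 10 := by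
      apply Subtype.ext
      rw [h.word1 w0 (by norm_num), h'.word2 w0' (by norm_num) (by norm_num), a2, a3]
    rw [this]
    exact s2.symm
  · rw [h.word2 w0 hi h1, h'.word1 w0' h2] at e1
    obtain ⟨a1, a2, a3⟩ := blk_inj h.partB h.part2S h.ne2S h'.part h'.part2 h'.ne2 (by omega) h2 e1
    refine ⟨by omega, ?_⟩
    have : vX R R2 B S q w0 10 = vX R' R2' B' S' q w0' 0 := by
      apply Subtype.ext
      rw [h.word2 w0 (by norm_num) (by norm_num), h'.word1 w0' (by norm_num), a2, a3]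
    rw [← this]
    exact s1
  · rw [h.word2 w0 hi h1, h'.word2 w0' hj h2] at e1
    obtain ⟨a1, a2, a3⟩ := blk_inj h.partB h.part2S h.ne2S h'.partB h'.part2S h'.ne2S (by omega)
      (by omega) e1
    refine ⟨by omega, ?_⟩
    have : vX R R2 B S q w0 10 = vX R' R2' B' S' q w0' 10 := by
      apply Subtype.ext
      rw [h.word2 w0 (by norm_num) (by norm_num), h'.word2 w0' (by norm_num) (by norm_num), a2, a3]
    rw [this] at s1
    exact s1.trans s2.symm

theorem blk_bw (Q X Y : BinaryTree Unit) {i : ℕ} (hi : i < 10) :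
    blk Q X Y i = bw .nil Q .nil Y X i := by
  interval_cases i <;> rfl

/-- **the absorber** -/
theorem NodeI.abs (h : NodeI k q R R2 B S) (w0 : X k) : (gad20 (vX R R2 B S q w0)).Abs := by
  have e := h.num
  have es := h.size
  have hn : (BinaryTree.nil : BinaryTree Unit).numNodes = 0 := rfl
  apply gad20_abs5 (A0 := .nil) (A1 := pc (q + 1)) (A2 := .nil) (A3 := R2) (A4 := R)
    (C0 := .nil) (C1 := pc (q + 1)) (C2 := .nil) (C3 := app R2 S) (C4 := B)
    (by rw [pc_num, hn]; omega) (by rw [pc_num, num_app, hn]; omega)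
    (fun i hi => by rw [h.word1 w0 hi, blk_bw _ _ _ hi])
    (fun i hi => by rw [h.word2 w0 (by omega) (by omega), show 10 + i - 10 = i by omega,
      blk_bw _ _ _ hi]) (h.inj w0) (h.same10 w0) (h.hold w0)

/-! ### The mirror image -/

/-- the words of the mirrored window -/
noncomputable def vXM (R R2 B S : BinaryTree Unit) (q : ℕ) (w0 : X k) (i : ℕ) : X k :=
  Tsq.mirX (vX R R2 B S q w0 i)

theorem mir_blk (Q X Y : BinaryTree Unit) {i : ℕ} (hi : i < 10) : Tsq.mir (blk Q X Y i) =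
    bw .nil (Tsq.mir X) (Tsq.mir Y) .nil (Tsq.mir Q) (ix20 i) := by
  have h0 : Tsq.mir BinaryTree.nil = BinaryTree.nil := rfl
  interval_cases i <;>
    simp only [blk, bw, ix20, w1, Tsq.mir_node, Tsq.mir_app, h0, app, app_nil', app_assoc']

theorem mirX_inj {x y : X k} (h : Tsq.mirX x = Tsq.mirX y) : x = y := by
  rw [← HM.mirX_mirX x, h, HM.mirX_mirX]

theorem same_mir_iff {x y : X k} : TT.SameCycle (Tsq.mirX x) (Tsq.mirX y) ↔ TT.SameCycle x y := by
  constructor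
  · intro h
    have := HM.same_mir h
    rwa [HM.mirX_mirX, HM.mirX_mirX] at this
  · exact HM.same_mir

/-- **the mirrored absorber** -/
theorem NodeI.absM (h : NodeI k q R R2 B S) (w0 : X k) : (gad20M (vXM R R2 B S q w0)).Abs := by
  have e := h.num
  have es := h.size
  have hn : (BinaryTree.nil : BinaryTree Unit).numNodes = 0 := rfl
  apply gad20M_abs5 (A0 := .nil) (A1 := Tsq.mir R) (A2 := Tsq.mir R2) (A3 := .nil) (A4 := pc (q + 1))
    (C0 := .nil) (C1 := Tsq.mir B) (C2 := Tsq.mir (app R2 S)) (C3 := .nil) (C4 := pc (q + 1))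
    (by rw [pc_num, Tsq.mir_num, Tsq.mir_num, hn]; omega)
    (by rw [pc_num, Tsq.mir_num, Tsq.mir_num, num_app, hn]; omega)
    (fun i hi => by
      change Tsq.mir (vX R R2 B S q w0 i).1 = _
      rw [h.word1 w0 hi, mir_blk _ _ _ hi, HM.mir_pc])
    (fun i hi => by
      change Tsq.mir (vX R R2 B S q w0 (10 + i)).1 = _
      rw [h.word2 w0 (by omega) (by omega), show 10 + i - 10 = i by omega, mir_blk _ _ _ hi,
        HM.mir_pc])
    (fun i hi j hj g => h.inj w0 i hi j hj (mirX_inj g)) (same_mir_iff.2 (h.same10 w0))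
    (fun i hi h0 h10 g => h.hold w0 i hi h0 h10 (same_mir_iff.1 g))

/-- the links: `T² (vXM j) = vXM i` -/
theorem NodeI.linkM (h : NodeI k q R R2 B S) (w0 : X k) {i j : ℕ}
    (hij : (i, j) ∈ [(0, 10), (1, 11), (3, 12), (6, 15), (8, 14), (9, 17)]) :
    TT (TT (vXM R R2 B S q w0 j)) = vXM R R2 B S q w0 i :=
  Tsq.TT_mir2 (h.link w0 hij)

/-- the old words are older -/
theorem NodeI.rankM (h : NodeI k q R R2 B S) (w0 : X k) : ∀ i < 20, i ≠ 0 → i ≠ 10 →
    Lower (OddHC.cont (vXM R R2 B S q w0 i).1) (OddHC.cont (vXM R R2 B S q w0 0).1) := by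
  intro i hi h0 h10
  change Lower (OddHC.cont (Tsq.mir (vX R R2 B S q w0 i).1)) (OddHC.cont (Tsq.mir (vX R R2 B S q w0 0).1))
  rw [HM.cont_mir, HM.cont_mir]
  exact h.rank w0 i hi h0 h10

/-- the content of the new `T`-cycle -/
theorem NodeI.cont0M (h : NodeI k q R R2 B S) (w0 : X k) :
    OddHC.cont (vXM R R2 B S q w0 0).1 = OddHC.cont R + {q + 3} + OddHC.cont R2 := by
  change OddHC.cont (Tsq.mir (vX R R2 B S q w0 0).1) = _
  rw [HM.cont_mir, h.cont0 w0]

end I0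

open I0

variable {F F' : Set (Cyc k)} {g g' : DG k}

/-- TYPE I0: the interior window of a bead free T-cycle -/
def TyI0 (F : Set (Cyc k)) (g : DG k) : Prop :=
  ∃ (q : ℕ) (R R2 B S : BinaryTree Unit) (w0 : X k), NodeI k q R R2 B S ∧
    F = {cyc (vX R R2 B S q w0 0)} ∧ g = gad20 (vX R R2 B S q w0)

theorem TyI0.hF (h : TyI0 F g) : ∀ w, w ∈ g.F ↔ cyc w ∈ F := by
  obtain ⟨q, R, R2, B, S, w0, h1, rfl, rfl⟩ := h
  intro w
  change TT.SameCycle _ _ ↔ cyc w = _
  rw [← cyc_eq]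
  exact ⟨fun e => e.symm, fun e => e.symm⟩

theorem TyI0.new (h : TyI0 F g) : ∀ c ∈ F, ∃ u ∈ g.B, cyc u = c := by
  obtain ⟨q, R, R2, B, S, w0, h1, rfl, rfl⟩ := h
  rintro c rfl
  exact ⟨_, mem_gad20.2 ⟨0, by norm_num, rfl⟩, rfl⟩

theorem TyI0.old (h : TyI0 F g) : ∃ u ∈ g.B, cyc u ∉ F := by
  obtain ⟨q, R, R2, B, S, w0, h1, rfl, rfl⟩ := h
  refine ⟨_, mem_gad20.2 ⟨1, by norm_num, rfl⟩, ?_⟩
  intro e
  have h2 := h1.rank w0 1 (by norm_num) (by norm_num) (by norm_num)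
  have h3 : cyc (vX R R2 B S q w0 1) = cyc (vX R R2 B S q w0 0) := e
  exact h2.ne (congrArg contc h3)

theorem TyI0.abs (h : TyI0 F g) : g.Abs := by
  obtain ⟨q, R, R2, B, S, w0, h1, rfl, rfl⟩ := h
  exact h1.abs w0

/-- rank: every old word is `Lower` than the new T-cycle -/
theorem TyI0.rank (h : TyI0 F g) : ∀ w ∈ g.B, cyc w ∈ F ∨ ∀ c ∈ F, H1.Lower (contc (cyc w)) (contc c) := by
  obtain ⟨q, R, R2, B, S, w0, h1, rfl, rfl⟩ := h
  intro w hw
  obtain ⟨i, hi, rfl⟩ := mem_gad20.1 hw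
  by_cases h0 : i = 0
  · left; rw [h0]; rfl
  · by_cases h10 : i = 10
    · left
      rw [h10]
      change cyc _ = cyc _
      exact cyc_eq.2 (h1.same10 w0).symm
    · right
      rintro c rfl
      exact h1.rank w0 i hi h0 h10

theorem TyI0.path (h : TyI0 F g) : ∀ a ∈ g.arcs, ∃ n : ℕ, (TT ^ (n + 1)) a.1 = a.2 ∧ a.1 ∈ g.B ∧
    ∀ i < n, (TT ^ (i + 1)) a.1 ∈ innA a := by
  obtain ⟨q, R, R2, B, S, w0, h1, rfl, rfl⟩ := h
  intro p hp
  have key : ∀ i j, (i, j) ∈ [(0, 10), (1, 11), (3, 12), (6, 15), (8, 14), (9, 17)] → i < 20 →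
      p = (vX R R2 B S q w0 i, vX R R2 B S q w0 j) →
      ∃ n : ℕ, (TT ^ (n + 1)) p.1 = p.2 ∧ p.1 ∈ (gad20 (vX R R2 B S q w0)).B ∧
        ∀ i < n, (TT ^ (i + 1)) p.1 ∈ innA p := by
    rintro i j hij hi rfl
    refine ⟨1, ?_, mem_gad20.2 ⟨i, hi, rfl⟩, ?_⟩
    · rw [pow_succ, pow_one, Perm.mul_apply]
      exact h1.link w0 hij
    · intro n hn
      obtain rfl : n = 0 := by omega
      rw [pow_one]
      rfl
  have hp' : p = (vX R R2 B S q w0 0, vX R R2 B S q w0 10) ∨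
      p = (vX R R2 B S q w0 1, vX R R2 B S q w0 11) ∨
      p = (vX R R2 B S q w0 3, vX R R2 B S q w0 12) ∨
      p = (vX R R2 B S q w0 6, vX R R2 B S q w0 15) ∨
      p = (vX R R2 B S q w0 8, vX R R2 B S q w0 14) ∨
      p = (vX R R2 B S q w0 9, vX R R2 B S q w0 17) := hp
  rcases hp' with e | e | e | e | e | e
  · exact key 0 10 (by simp) (by norm_num) e
  · exact key 1 11 (by simp) (by norm_num) e
  · exact key 3 12 (by simp) (by norm_num) e
  · exact key 6 15 (by simp) (by norm_num) e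
  · exact key 8 14 (by simp) (by norm_num) e
  · exact key 9 17 (by simp) (by norm_num) e

/-- TYPE I0M: the mirrored interior window of a bead free T-cycle -/
def TyI0M (F : Set (Cyc k)) (g : DG k) : Prop :=
  ∃ (q : ℕ) (R R2 B S : BinaryTree Unit) (w0 : X k), NodeI k q R R2 B S ∧
    F = {cyc (vXM R R2 B S q w0 0)} ∧ g = gad20M (vXM R R2 B S q w0)

theorem TyI0M.hF (h : TyI0M F g) : ∀ w, w ∈ g.F ↔ cyc w ∈ F := by
  obtain ⟨q, R, R2, B, S, w0, h1, rfl, rfl⟩ := h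
  intro w
  change TT.SameCycle _ _ ↔ cyc w = _
  rw [← cyc_eq]
  exact ⟨fun e => e.symm, fun e => e.symm⟩

theorem TyI0M.new (h : TyI0M F g) : ∀ c ∈ F, ∃ u ∈ g.B, cyc u = c := by
  obtain ⟨q, R, R2, B, S, w0, h1, rfl, rfl⟩ := h
  rintro c rfl
  exact ⟨_, mem_gad20M.2 ⟨0, by norm_num, rfl⟩, rfl⟩

theorem TyI0M.old (h : TyI0M F g) : ∃ u ∈ g.B, cyc u ∉ F := by
  obtain ⟨q, R, R2, B, S, w0, h1, rfl, rfl⟩ := h
  refine ⟨_, mem_gad20M.2 ⟨1, by norm_num, rfl⟩, ?_⟩
  intro e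
  have h2 := h1.rankM w0 1 (by norm_num) (by norm_num) (by norm_num)
  have h3 : cyc (vXM R R2 B S q w0 1) = cyc (vXM R R2 B S q w0 0) := e
  exact h2.ne (congrArg contc h3)

theorem TyI0M.abs (h : TyI0M F g) : g.Abs := by
  obtain ⟨q, R, R2, B, S, w0, h1, rfl, rfl⟩ := h
  exact h1.absM w0

/-- rank: every old word is `Lower` than the new T-cycle -/
theorem TyI0M.rank (h : TyI0M F g) : ∀ w ∈ g.B, cyc w ∈ F ∨ ∀ c ∈ F, H1.Lower (contc (cyc w)) (contc c) := by
  obtain ⟨q, R, R2, B, S, w0, h1, rfl, rfl⟩ := h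
  intro w hw
  obtain ⟨i, hi, rfl⟩ := mem_gad20M.1 hw
  by_cases h0 : i = 0
  · left; rw [h0]; rfl
  · by_cases h10 : i = 10
    · left
      rw [h10]
      change cyc _ = cyc _
      exact cyc_eq.2 (same_mir_iff.2 (h1.same10 w0).symm)
    · right
      rintro c rfl
      exact h1.rankM w0 i hi h0 h10

theorem TyI0M.path (h : TyI0M F g) : ∀ a ∈ g.arcs, ∃ n : ℕ, (TT ^ (n + 1)) a.1 = a.2 ∧ a.1 ∈ g.B ∧
    ∀ i < n, (TT ^ (i + 1)) a.1 ∈ innA a := by
  obtain ⟨q, R, R2, B, S, w0, h1, rfl, rfl⟩ := h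
  intro p hp
  have key : ∀ i j, (i, j) ∈ [(0, 10), (1, 11), (3, 12), (6, 15), (8, 14), (9, 17)] → j < 20 →
      p = (vXM R R2 B S q w0 j, vXM R R2 B S q w0 i) →
      ∃ n : ℕ, (TT ^ (n + 1)) p.1 = p.2 ∧ p.1 ∈ (gad20M (vXM R R2 B S q w0)).B ∧
        ∀ i < n, (TT ^ (i + 1)) p.1 ∈ innA p := by
    rintro i j hij hj rfl
    refine ⟨1, ?_, mem_gad20M.2 ⟨j, hj, rfl⟩, ?_⟩
    · rw [pow_succ, pow_one, Perm.mul_apply]
      exact h1.linkM w0 hij
    · intro n hn
      obtain rfl : n = 0 := by omega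
      rw [pow_one]
      rfl
  have hp' : p = (vXM R R2 B S q w0 10, vXM R R2 B S q w0 0) ∨
      p = (vXM R R2 B S q w0 11, vXM R R2 B S q w0 1) ∨
      p = (vXM R R2 B S q w0 12, vXM R R2 B S q w0 3) ∨
      p = (vXM R R2 B S q w0 15, vXM R R2 B S q w0 6) ∨
      p = (vXM R R2 B S q w0 14, vXM R R2 B S q w0 8) ∨
      p = (vXM R R2 B S q w0 17, vXM R R2 B S q w0 9) := hp
  rcases hp' with e | e | e | e | e | e
  · exact key 0 10 (by simp) (by norm_num) e
  · exact key 1 11 (by simp) (by norm_num) e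
  · exact key 3 12 (by simp) (by norm_num) e
  · exact key 6 15 (by simp) (by norm_num) e
  · exact key 8 14 (by simp) (by norm_num) e
  · exact key 9 17 (by simp) (by norm_num) e

/-- **existence, right** -/
theorem TyI0.ex {q : ℕ} {R R2 B S : BinaryTree Unit} (h : NodeI k q R R2 B S) {z : X k}
    (hz : z.1 = app R (H1.ch (q + 2) △ R2)) : ∃ g : DG k, TyI0 {cyc z} g := by
  refine ⟨_, q, R, R2, B, S, z, h, ?_, rfl⟩
  congr 2
  apply Subtype.ext
  rw [vX_eq h z (by norm_num), hz]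
  rfl

/-- **existence, left** -/
theorem TyI0M.ex {q : ℕ} {R R2 B S : BinaryTree Unit} (h : NodeI k q R R2 B S) {z : X k}
    (hz : Tsq.mir z.1 = app R (H1.ch (q + 2) △ R2)) : ∃ g : DG k, TyI0M {cyc z} g := by
  refine ⟨_, q, R, R2, B, S, z, h, ?_, rfl⟩
  congr 2
  have : Tsq.mirX z = vX R R2 B S q z 0 := by
    apply Subtype.ext
    rw [vX_eq h z (by norm_num)]
    exact hz
  change z = Tsq.mirX (vX R R2 B S q z 0)
  rw [← this, HM.mirX_mirX]

end Pool.OddHC
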