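import Pool.Agent.Work.MP_8f87b2_h88.I1

/-!
MP_8f87b2_co: the ten words `blk Q X Y i` of a block, all parts of `X` and `Y` larger than `q + 3`, at most one of
`X`, `Y` empty. `blk_inj2`: equal words have the same index, the same `X` and the same `Y`. (End windows of a unique
smallest part: `X = R`, `Y` empty, and `X = B`, `Y = S`; interior windows: `X = R`, `Y = R2`, and `X = B`, `Y = R2 S`.)
-/

set_option autoImplicit false

namespace Pool.OddHC

open Finset Equiv BinaryTree Multiset Pool.Agent.Work.MP_8f87b2_co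

namespace I0

/-- light solitons in the first and in the last component, `Y` not empty -/
def abI (e : Bool) : ℕ → ℕ × ℕ
  | 1 => (if e then 1 else 0, 0)
  | 2 => (0, 1)
  | 3 => (0, 2)
  | 4 => (2, if e then 2 else 0)
  | 5 => (1, 0)
  | 6 => (0, 1)
  | 7 => (1, 0)
  | 8 => (1, if e then 1 else 0)
  | 9 => (if e then 1 else 0, 1)
  | _ => (0, 0)

/-- light solitons in the first and in the last component, `Y` empty -/
def abF : ℕ → ℕ × ℕ
  | 1 => (0, 1)
  | 2 => (1, 1)
  | 3 => (2, 2)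
  | 4 => (2, 0)
  | 5 => (1, 0)
  | 6 => (0, 1)
  | 7 => (1, 1)
  | 8 => (1, 0)
  | 9 => (0, 1)
  | _ => (0, 0)

/-- the class of a word, `Y` empty -/
def kapF : ℕ → ℕ
  | 0 => 0
  | 1 => 1
  | 2 => 1
  | 3 => 2
  | 4 => 3
  | 5 => 3
  | 6 => 4
  | 7 => 2
  | 8 => 2
  | _ => 5

theorem kapF_le (i : ℕ) : kapF i ≤ 5 := by
  unfold kapF
  split <;> omega

theorem pairFF : ∀ i < 10, ∀ j < 10, kapF i = kapF j → (i = 0 ∨ j = 0 ∨ abF i = abF j) → i = j := by
  decide

/-- the pairs which are not separated by the profile -/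
def spFI (i j : ℕ) : Prop :=
  (i = 0 ∧ j = 0) ∨ (i = 2 ∧ j = 8) ∨ (i = 3 ∧ j = 4) ∨ (i = 7 ∧ j = 9) ∨ (i = 8 ∧ j = 8) ∨
    (i = 6 ∧ j = 6) ∨ (i = 9 ∧ j = 9)

instance (i j : ℕ) : Decidable (spFI i j) := by unfold spFI; infer_instance

theorem pairFI : ∀ i < 10, ∀ j < 10, ∀ e : Bool, kapF i = kapI e j →
    (i = 0 ∨ j = 0 ∨ abF i = abI e j) → spFI i j := by
  decide

variable {d : ℕ} {X Y X' Y' : BinaryTree Unit}

theorem lo_qnD {D d : ℕ} (hD : d ≤ D) {X : BinaryTree Unit} (h : Hv D X) :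
    lo D (pc d △ (.nil △ X)) = 2 := by
  have hc : OddHC.cont (pc d △ (.nil △ X)) = ({d + 1} + {1}) + OddHC.cont X := by
    rw [cont_node, cont_node, raise_pc, cont_nil, raise_zero, add_assoc]
  by_cases h0 : X = .nil
  · unfold lo
    rw [hc, h0, cont_nil, add_zero, raise_two,
      Multiset.filter_eq_self.2 (lt_pair (by omega) (by omega))]
    rfl
  · rw [lo_of hc (lt_pair (by omega) (by omega)) h (cont_ne h0)]
    rfl

theorem lo_nqD {D d : ℕ} (hD : d ≤ D) : lo D (.nil △ pc (d + 1)) = 2 := by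
  have hc : OddHC.cont (.nil △ pc (d + 1)) = {d + 1} + {1} := by
    rw [cont_node, cont_nil, raise_zero, cont_pc, add_comm]
  unfold lo
  rw [hc, raise_two, Multiset.filter_eq_self.2 (lt_pair (by omega) (by omega))]
  rfl

theorem lo_snqD {D d : ℕ} (hD : d ≤ D) {X : BinaryTree Unit} (h : Hv D X) (h0 : X ≠ .nil) :
    lo D (app X (.nil △ pc (d + 1))) = 2 := by
  have hc : OddHC.cont (app X (.nil △ pc (d + 1))) = ({1} + {d + 1}) + OddHC.cont X := by
    rw [cont_app, cont_node, cont_nil, raise_zero, cont_pc, add_comm]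
  rw [lo_of hc (lt_pair (by omega) (by omega)) h (cont_ne h0)]
  rfl

/-- the profile of a word, `Y` not empty, any threshold `D ≥ d` -/
theorem ab_blk {D : ℕ} (hD : d ≤ D) (hX : Hv D X) (hY : Hv D Y) (Y0 : Y ≠ .nil) {e : Bool}
    (he : e = true ↔ X = .nil) {i : ℕ} (hi : i < 10) (h0 : i ≠ 0) :
    (lo D (fs (blk (pc (d + 1)) X Y i)), lo D (ls (blk (pc (d + 1)) X Y i))) = abI e i := by
  have ld := lo_pc (d := D) (e := d) (by omega)
  have ld1 := lo_pc (d := D) (e := d + 1) (by omega)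
  have lo_qn := fun {X : BinaryTree Unit} (h : Hv D X) => lo_qnD hD h
  have lo_nq := lo_nqD hD
  have lo_snq := fun {X : BinaryTree Unit} (h : Hv D X) (h0 : X ≠ .nil) => lo_snqD hD h h0
  have hX0 : e = false → X ≠ .nil := by
    intro g g1
    rw [he.2 g1] at g
    exact absurd g (by simp)
  interval_cases i
  · exact absurd rfl h0
  · simp only [blk, app_pc, ls_app _ (nn' _ _), ls_node _ (nn' _ _), ls_node _ Y0, hY.ls Y0, abI]
    cases e with
    | true =>
      rw [he.1 rfl]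
      change (lo D .nil, 0) = _
      rw [lo_nil]
      rfl
    | false =>
      rw [fs_app (hX0 rfl), hX.fs (hX0 rfl)]
      rfl
  · have e1 : ls (Y △ app X (.nil △ pc (d + 1))) = pc d := by
      rw [ls_node _ (app_ne' (nn' _ _)), ls_app _ (nn' _ _),
        ls_node _ (by rw [pc_succ]; exact nn' _ _), pc_succ, ls_single]
    simp only [blk, e1, fs_node, lo_hv hY Y0, ld, abI]
  · simp only [blk, ls_app _ (nn' _ _), ls_single, fs_app Y0, hY.fs Y0, abI]
    cases e with
    | true =>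
      rw [he.1 rfl, app, lo_nq]
    | false =>
      rw [lo_snq hX (hX0 rfl)]
  · simp only [blk, app_pc, fs_node, lo_qn hY, abI]
    cases e with
    | true =>
      rw [he.1 rfl, ls_single, lo_qn hY]
      rfl
    | false =>
      rw [ls_node _ (hX0 rfl), hX.ls (hX0 rfl)]
      rfl
  · simp only [blk, fs_node, ld1, ls_node _ (nn' _ _), abI]
    by_cases g : X = .nil
    · rw [g, ls_single, lo_hv hY Y0]
    · rw [ls_node _ g, hX.ls g]
  · simp only [blk, fs_app Y0, hY.fs Y0, ls_app _ (nn' _ _), ls_node _ (nn' _ _), ls_single, ld1, abI]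
  · simp only [blk, app_pc, fs_node, ld, ls_node _ (nn' _ _), ls_single, abI]
    rw [lo_hv (hY.node Y0 hX) (nn' _ _)]
  · have e1 : ls (app (pc (d + 1)) (.nil △ app Y (X △ .nil))) = X := by
      rw [ls_app _ (nn' _ _), ls_node _ (app_ne' (nn' _ _)), ls_app _ (nn' _ _), ls_single]
    simp only [blk, e1]
    simp only [app_pc, fs_node, ld, abI]
    cases e with
    | true =>
      rw [he.1 rfl, lo_nil]
      rfl
    | false =>
      rw [lo_hv hX (hX0 rfl)]
      rfl
  · have e1 : ls (app Y (X △ .nil) △ pc (d + 1)) = pc d := by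
      rw [ls_node _ (by rw [pc_succ]; exact nn' _ _), pc_succ, ls_single]
    simp only [blk, e1, fs_node, ld, abI]
    cases e with
    | true =>
      rw [he.1 rfl, lo_rn hY Y0]
      rfl
    | false =>
      rw [lo_hv (hY.app (hX.node (hX0 rfl) (Hv.nil D))) (app_ne' (nn' _ _))]
      rfl

/-- the content of a word, `Y` empty -/
theorem cont_blkF (hX : Hv d X) (X0 : X ≠ .nil) {i : ℕ} (hi : i < 10) :
    ∃ H, cont (blk (pc (d + 1)) X .nil i) = smc d (kapF i) + H ∧ ∀ x ∈ H, d + 3 ≤ x := by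
  obtain ⟨x, hx⟩ : ∃ x, x = cont X := ⟨_, rfl⟩
  have x0 : x ≠ 0 := by rw [hx]; exact cont_ne X0
  have xh : ∀ z ∈ x, d + 3 ≤ z := by rw [hx]; exact hX
  have l1 : ∀ x ∈ ({1} : Multiset ℕ), x < d + 3 := lt_single (by omega)
  have lq1 : ∀ x ∈ ({d + 1} + {1} : Multiset ℕ), x < d + 3 := lt_pair (by omega) (by omega)
  have Xh := raise_hv xh x0
  have hq := cont_pc d
  have eq1 : raise {d + 1} = {d + 2} := raise_single _
  have eq2 : raise {d + 2} = {d + 3} := raise_single _
  have hz := raise_zero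
  interval_cases i <;> simp only [kapF, smc, blk, cont_node, cont_app, cont_nil, hq, eq1, eq2, hz,
    ← hx, add_zero, zero_add]
  · refine ⟨x + {d + 3}, by abel, ?_⟩
    intro z hz
    rw [Multiset.mem_add, Multiset.mem_singleton] at hz
    exact hz.elim (xh z) (fun g => g.ge)
  · exact ⟨x, by abel, xh⟩
  · exact ⟨x, by abel, xh⟩
  · refine ⟨raise x, ?_, Xh⟩
    rw [add_comm {1}, add_comm x, raise_add lq1 xh x0]
  · refine ⟨x, ?_, xh⟩
    rw [raise_two]
  · exact ⟨x, by abel, xh⟩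
  · exact ⟨raise x, by abel, Xh⟩
  · refine ⟨raise x, ?_, Xh⟩
    rw [raise_add l1 xh x0]
    abel
  · exact ⟨raise x, by abel, Xh⟩
  · exact ⟨raise (raise x), by abel, raise_hv Xh (raise_ne_zero _)⟩

/-- the profile of a word, `Y` empty, any threshold `D ≥ d` -/
theorem ab_blkF {D : ℕ} (hD : d ≤ D) (hX : Hv D X) (X0 : X ≠ .nil) {i : ℕ} (hi : i < 10) (h0 : i ≠ 0) :
    (lo D (fs (blk (pc (d + 1)) X .nil i)), lo D (ls (blk (pc (d + 1)) X .nil i))) = abF i := by
  have ld := lo_pc (d := D) (e := d) (by omega)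
  have ld1 := lo_pc (d := D) (e := d + 1) (by omega)
  have lo_qn := fun {X : BinaryTree Unit} (h : Hv D X) => lo_qnD hD h
  have lo_snq := fun {X : BinaryTree Unit} (h : Hv D X) (h0 : X ≠ .nil) => lo_snqD hD h h0
  have an : ∀ t : BinaryTree Unit, app .nil t = t := fun _ => rfl
  interval_cases i
  · exact absurd rfl h0
  · simp only [blk, app_pc, ls_app _ (nn' _ _), ls_node _ (nn' _ _), ls_single, fs_app X0, hX.fs X0,
      lo_nil, abF]
  · have e1 : ls (.nil △ app X (.nil △ pc (d + 1))) = pc d := by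
      rw [ls_node _ (app_ne' (nn' _ _)), ls_app _ (nn' _ _),
        ls_node _ (by rw [pc_succ]; exact nn' _ _), pc_succ, ls_single]
    simp only [blk, e1, fs_node, lo_nil, ld, abF]
  · simp only [blk, an, fs_node, ls_single, lo_snq hX X0, abF]
  · simp only [blk, fs_node, ls_node _ X0, hX.ls X0, abF]
    have e1 : lo D (app (pc (d + 1)) (.nil △ .nil)) = 2 := by
      rw [app_pc]
      exact lo_qn (Hv.nil D)
    rw [e1]
  · simp only [blk, fs_node, ld1, ls_node _ (nn' _ _), ls_node _ X0, hX.ls X0, abF]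
  · simp only [blk, an, fs_node, lo_hv hX X0, ls_node _ (nn' _ _), ls_single, ld1, abF]
  · simp only [blk, app_pc, fs_node, ld, ls_node _ (nn' _ _), ls_single, lo_ns hX X0, abF]
  · simp only [blk, an, app_pc, fs_node, ld, ls_node _ (nn' _ _), ls_single, lo_hv hX X0, abF]
  · have e1 : ls ((X △ .nil) △ pc (d + 1)) = pc d := by
      rw [ls_node _ (by rw [pc_succ]; exact nn' _ _), pc_succ, ls_single]
    simp only [blk, an, e1, fs_node, ld, lo_hv (hX.node X0 (Hv.nil D)) (nn' _ _), abF]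

variable {q : ℕ}

/-- both `Y` empty -/
theorem blk_injFF (hX : ∀ x ∈ OddHC.cont X, q + 3 < x) (X0 : X ≠ .nil)
    (hX' : ∀ x ∈ OddHC.cont X', q + 3 < x) (X0' : X' ≠ .nil) {i j : ℕ} (hi : i < 10) (hj : j < 10)
    (heq : blk (pc (q + 1)) X .nil i = blk (pc (q + 1)) X' .nil j) : i = j ∧ X = X' := by
  have hij : i = j := by
    obtain ⟨H, c1, c2⟩ := cont_blkF (hv_of hX) X0 hi
    obtain ⟨H', c1', c2'⟩ := cont_blkF (hv_of hX') X0' hj
    apply pairFF i hi j hj
    · apply smc_inj (kapF_le _) (kapF_le _)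
      rw [← filter_lo (smc_lt q (kapF_le i)) c2, ← c1, heq, c1',
        filter_lo (smc_lt q (kapF_le j)) c2']
    · by_cases h0 : i = 0
      · exact Or.inl h0
      by_cases h0' : j = 0
      · exact Or.inr (Or.inl h0')
      right; right
      rw [← ab_blkF le_rfl (hv_of hX) X0 hi h0, ← ab_blkF le_rfl (hv_of hX') X0' hj h0', heq]
  subst hij
  refine ⟨rfl, ?_⟩
  have nd : ∀ {A C A' C' : BinaryTree Unit}, A △ C = A' △ C' → A = A' ∧ C = C' :=
    fun h => ⟨congrArg fs h, congrArg tl h⟩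
  have an : ∀ t : BinaryTree Unit, app .nil t = t := fun _ => rfl
  interval_cases i <;> simp only [blk, an] at heq
  · exact app_cancel_right _ heq
  · exact app_cancel_right _ heq
  · exact app_cancel_right _ (nd heq).2
  · exact app_cancel_right _ (nd heq).1
  · exact (nd heq).2
  · exact (nd (nd heq).2).2
  · exact (nd heq).1
  · exact (nd (nd (app_cancel_left _ heq)).1).2
  · exact (nd (nd (app_cancel_left _ heq)).2).1
  · exact (nd (nd heq).1).1

/-- one `Y` empty: no common word -/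
theorem blk_neFI (hX : ∀ x ∈ OddHC.cont X, q + 3 < x) (X0 : X ≠ .nil)
    (hX' : ∀ x ∈ OddHC.cont X', q + 3 < x) (hY' : ∀ x ∈ OddHC.cont Y', q + 3 < x) (Y0' : Y' ≠ .nil)
    {i j : ℕ} (hi : i < 10) (hj : j < 10) :
    blk (pc (q + 1)) X .nil i ≠ blk (pc (q + 1)) X' Y' j := by
  intro heq
  obtain ⟨e, he⟩ : ∃ e : Bool, e = true ↔ X' = .nil := by
    by_cases g : X' = .nil
    · exact ⟨true, by simp [g]⟩
    · exact ⟨false, by simp [g]⟩
  have hij : (i = 0 ∧ j = 0) ∨ (i = 2 ∧ j = 8) ∨ (i = 3 ∧ j = 4) ∨ (i = 7 ∧ j = 9) ∨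
      (i = 8 ∧ j = 8) ∨ (i = 6 ∧ j = 6) ∨ (i = 9 ∧ j = 9) := by
    obtain ⟨H, c1, c2⟩ := cont_blkF (hv_of hX) X0 hi
    obtain ⟨H', c1', c2'⟩ := cont_blk (hv_of hX') (hv_of hY') Y0' he hj
    apply pairFI i hi j hj e
    · apply smc_inj (kapF_le _) (kapI_le _ _)
      rw [← filter_lo (smc_lt q (kapF_le i)) c2, ← c1, heq, c1',
        filter_lo (smc_lt q (kapI_le e j)) c2']
    · by_cases h0 : i = 0
      · exact Or.inl h0
      by_cases h0' : j = 0
      · exact Or.inr (Or.inl h0')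
      right; right
      rw [← ab_blkF le_rfl (hv_of hX) X0 hi h0, ← ab_blk le_rfl (hv_of hX') (hv_of hY') Y0' he hj h0', heq]
  have nd : ∀ {A C A' C' : BinaryTree Unit}, A △ C = A' △ C' → A = A' ∧ C = C' :=
    fun h => ⟨congrArg fs h, congrArg tl h⟩
  have an : ∀ t : BinaryTree Unit, app .nil t = t := fun _ => rfl
  have g2 : lo (q + 1) (pc (q + 1) △ .nil) ≠ 0 := by
    change lo (q + 1) (pc (q + 2)) ≠ 0
    rw [lo_pc (by omega)]
    omega
  have hX1 : Hv (q + 1) X := fun x hx => hX x hx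
  have hX1' : Hv (q + 1) X' := fun x hx => hX' x hx
  have hYt : q + 3 < ht Y' := by
    rw [ht_eq]
    exact hY' _ (sup_mem (cont_ne Y0'))
  have fX := (hv_of hX).fs X0
  rcases hij with ⟨rfl, rfl⟩ | ⟨rfl, rfl⟩ | ⟨rfl, rfl⟩ | ⟨rfl, rfl⟩ | ⟨rfl, rfl⟩ | ⟨rfl, rfl⟩ |
    ⟨rfl, rfl⟩ <;> simp only [blk, an] at heq
  · obtain ⟨_, _, a2⟩ := hv_split g2 g2 hX1 hX1' heq
    exact Y0' a2.symm
  · rw [app_pc] at heq
    have h1 := congrArg fs (nd heq).2
    rw [fs_app X0, fs_node] at h1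
    exact (hv_of hX).fs_ne X0 h1
  · have h1 := congrArg fs (nd heq).1
    rw [fs_app X0, app_pc, fs_node] at h1
    rw [h1, lo_pc (by omega)] at fX
    omega
  · rw [app_pc] at heq
    have h1 := congrArg ht (nd heq).1
    rw [ht_pc, ht_app] at h1
    omega
  · have h1 := (nd (app_cancel_left _ heq)).2
    have h2 := (app_snoc (X := .nil) h1).1
    exact Y0' h2.symm
  · have a0 : app (app .nil (X △ .nil)) (pc (q + 1) △ .nil) =
        app (app Y' (X' △ .nil)) (pc (q + 1) △ .nil) := by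
      rw [app_assoc', app_assoc']
      exact heq
    exact Y0' (app_snoc (app_cancel_right _ a0)).1.symm
  · exact Y0' (app_snoc (X := .nil) (nd heq).1).1.symm

/-- **equal words of blocks: the same index and the same data; at most one of `X`, `Y` empty** -/
theorem blk_inj2 (hX : ∀ x ∈ OddHC.cont X, q + 3 < x) (hY : ∀ x ∈ OddHC.cont Y, q + 3 < x)
    (h0 : X ≠ .nil ∨ Y ≠ .nil) (hX' : ∀ x ∈ OddHC.cont X', q + 3 < x)
    (hY' : ∀ x ∈ OddHC.cont Y', q + 3 < x) (h0' : X' ≠ .nil ∨ Y' ≠ .nil) {i j : ℕ} (hi : i < 10)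
    (hj : j < 10) (heq : blk (pc (q + 1)) X Y i = blk (pc (q + 1)) X' Y' j) :
    i = j ∧ X = X' ∧ Y = Y' := by
  by_cases g : Y = .nil <;> by_cases g' : Y' = .nil
  · subst g g'
    obtain ⟨a1, a2⟩ := blk_injFF hX (h0.resolve_right (fun h => h rfl)) hX'
      (h0'.resolve_right (fun h => h rfl)) hi hj heq
    exact ⟨a1, a2, rfl⟩
  · subst g
    exact absurd heq (blk_neFI hX (h0.resolve_right (fun h => h rfl)) hX' hY' g' hi hj)
  · subst g'
    exact absurd heq.symm (blk_neFI hX' (h0'.resolve_right (fun h => h rfl)) hX hY g hj hi)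
  · exact blk_inj hX hY g hX' hY' g' hi hj heq

end I0

end Pool.OddHC
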